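import Pool.Agent.H379R2.W.Group

set_option autoImplicit false

/-! Numbers that pass the Fermat test for all bases up to `2 (log n)^2`. -/

namespace Pool.Agent.H986R3.FW

open Finset Real
open Pool.Agent.H379R2.W

/-- `n` passes the Fermat test for all bases `1 < b ≤ 2 (log n)^2` -/
def FBad (n : ℕ) : Prop :=
  2 ≤ n ∧ ∀ b : ℕ, 1 < b → (b : ℝ) ≤ 2 * (log n) ^ 2 → (b : ZMod n) ^ (n - 1) = 1

lemma fpow_dvd {n b D : ℕ} (h : (b : ZMod n) ^ (n - 1) = 1) (hD : D ∣ n) :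
    (b : ZMod D) ^ (n - 1) = 1 := by
  have h1 := congrArg (ZMod.castHom hD (ZMod D)) h
  rwa [map_pow, map_natCast, map_one] at h1

lemma fnot_dvd {n b q : ℕ} (hn : 2 ≤ n) (hq : q.Prime) (hqn : q ∣ n)
    (h : (b : ZMod n) ^ (n - 1) = 1) : ¬ q ∣ b := by
  intro hqb
  have h1 := fpow_dvd h hqn
  haveI := Fact.mk hq
  have h2 : (b : ZMod q) = 0 := (ZMod.natCast_eq_zero_iff _ _).mpr hqb
  rw [h2, zero_pow (by omega)] at h1
  exact zero_ne_one h1

lemma fprime_large {n q : ℕ} (h : FBad n) (hq : q.Prime) (hqn : q ∣ n) :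
    2 * (log n) ^ 2 < q := by
  by_contra hle
  push Not at hle
  exact fnot_dvd h.1 hq hqn (h.2 q hq.one_lt hle) dvd_rfl

/-- The main group bound. -/
lemma fgroup_bound : ∃ D0 : ℕ, ∀ n : ℕ, FBad n → ∀ D : ℕ, D0 ≤ D → D ∣ n →
    (D : ℝ) < (liars n D : ℝ) ^ 2 := by
  obtain ⟨D0, hD0⟩ := smooth_count
  refine ⟨max D0 1, fun n hn D hD hDn => ?_⟩
  have hD1 : 1 ≤ D := (le_max_right _ _).trans hD
  have : NeZero D := ⟨by omega⟩
  obtain ⟨S, hS1, hS2⟩ := hD0 D ((le_max_left _ _).trans hD)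
  refine hS2.trans_le ?_
  have hn0 : 0 < n := by have := hn.1; omega
  have hDle : D ≤ n := Nat.le_of_dvd hn0 hDn
  have hlog : log D ≤ log n := log_le_log (by exact_mod_cast hD1) (by exact_mod_cast hDle)
  have hlog0 : 0 ≤ log (D : ℝ) := log_natCast_nonneg D
  have hy : 2 * (log D) ^ 2 ≤ 2 * (log n) ^ 2 := by
    have := pow_le_pow_left₀ hlog0 hlog 2
    linarith
  have hmem : ∀ s ∈ S, (s : ZMod D) ^ (n - 1) = 1 := by
    intro s hs
    obtain ⟨h1, h2, h3⟩ := hS1 s hs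
    refine pow_eq_one_of_primes s h1 fun p hp hps => ?_
    exact fpow_dvd (hn.2 p hp.one_lt ((h3 p hp hps).trans hy)) hDn
  have hcard : S.card ≤ liars n D := by
    unfold liars
    have hinj : Function.Injective (fun s : S => (⟨((s : ℕ) : ZMod D), hmem s s.2⟩ :
        {z : ZMod D // z ^ (n - 1) = 1})) := by
      intro s s' hss
      have h1 : ((s : ℕ) : ZMod D) = ((s' : ℕ) : ZMod D) := congrArg Subtype.val hss
      rw [ZMod.natCast_eq_natCast_iff] at h1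
      obtain ⟨a1, a2, _⟩ := hS1 s s.2
      obtain ⟨b1, b2, _⟩ := hS1 s' s'.2
      apply Subtype.ext
      have h2 : ((s : ℕ) - 1) ≡ ((s' : ℕ) - 1) [MOD D] := by
        have e1 : (s : ℕ) = ((s : ℕ) - 1) + 1 := by omega
        have e2 : (s' : ℕ) = ((s' : ℕ) - 1) + 1 := by omega
        rw [e1, e2] at h1
        exact Nat.ModEq.add_right_cancel' 1 h1
      have h3 := Nat.ModEq.eq_of_lt_of_lt h2 (by omega) (by omega)
      omega
    have h1 := Nat.card_le_card_of_injective _ hinj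
    rw [Nat.card_eq_fintype_card, Fintype.card_coe] at h1
    exact h1
  have : (S.card : ℝ) ≤ liars n D := by exact_mod_cast hcard
  exact pow_le_pow_left₀ (by positivity) this 2

lemma fbad_large : ∃ N : ℕ, ∀ n : ℕ, N ≤ n → FBad n → ∀ q : ℕ, q.Prime → q ∣ n →
    ∀ D : ℕ, q ≤ D → D ∣ n → (D : ℝ) < (liars n D : ℝ) ^ 2 := by
  obtain ⟨D0, hD0⟩ := fgroup_bound
  have h1 : ∀ᶠ x : ℝ in Filter.atTop, (D0 : ℝ) ≤ log x :=
    tendsto_log_atTop.eventually (Filter.eventually_ge_atTop _)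
  have h2 : ∀ᶠ x : ℝ in Filter.atTop, (1 : ℝ) ≤ log x :=
    tendsto_log_atTop.eventually (Filter.eventually_ge_atTop _)
  obtain ⟨Y, hY⟩ := Filter.eventually_atTop.mp (h1.and h2)
  refine ⟨⌈Y⌉₊, fun n hn hb q hq hqn D hqD hDn => ?_⟩
  obtain ⟨a1, a2⟩ := hY n (Nat.ceil_le.mp hn)
  have hlarge := fprime_large hb hq hqn
  refine hD0 n hb D ?_ hDn
  have e1 : (D0 : ℝ) ≤ q := by nlinarith
  have e2 : D0 ≤ q := by exact_mod_cast e1
  omega

/-- a large `n` that is not squarefree has a small Fermat witness -/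
lemma fbad_squarefree : ∃ N : ℕ, ∀ n : ℕ, N ≤ n → FBad n → Squarefree n := by
  obtain ⟨N, hN⟩ := fbad_large
  refine ⟨N, fun n hn hb => ?_⟩
  rw [Nat.squarefree_iff_prime_squarefree]
  intro p hp hpn
  have hpn' : p ^ 2 ∣ n := by rw [sq]; exact hpn
  have hpd : p ∣ n := (dvd_mul_right p p).trans hpn
  have h3 := hN n hn hb p hp hpd (p ^ 2) (by rw [sq]; exact Nat.le_mul_of_pos_left p hp.pos) hpn'
  have h4 := liars_sq hb.1 hp hpd
  have h5 : (liars n (p ^ 2) : ℝ) ≤ p := by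
    have : liars n (p ^ 2) ≤ p := by omega
    exact_mod_cast this
  have h6 := pow_le_pow_left₀ (by positivity : (0 : ℝ) ≤ liars n (p ^ 2)) h5 2
  push_cast at h3
  linarith

/-- for a prime divisor `q` of `n` -/
lemma fbad_gcd : ∃ N : ℕ, ∀ n : ℕ, N ≤ n → FBad n → ∀ q : ℕ, q.Prime → q ∣ n →
    q < (Nat.gcd (q - 1) (n - 1)) ^ 2 := by
  obtain ⟨N, hN⟩ := fbad_large
  refine ⟨N, fun n hn hb q hq hqn => ?_⟩
  have h3 := hN n hn hb q hq hqn q le_rfl hqn
  have h4 := liars_prime hb.1 hq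
  have h6 : (liars n q : ℝ) ≤ Nat.gcd (q - 1) (n - 1) := by exact_mod_cast h4
  have h7 := pow_le_pow_left₀ (by positivity : (0 : ℝ) ≤ liars n q) h6 2
  have h8 : (q : ℝ) < ((Nat.gcd (q - 1) (n - 1) ^ 2 : ℕ) : ℝ) := by push_cast; linarith
  exact_mod_cast h8

/-- If `n` is squarefree and `q - 1` divides `n - 1` for each prime `q ∣ n`, then `n` divides
`b ^ (n - 1) - 1` for each `b` coprime to `n`. -/
lemma korselt {n : ℕ} (hn : 2 ≤ n) (hsq : Squarefree n)
    (h : ∀ q : ℕ, q.Prime → q ∣ n → q - 1 ∣ n - 1) (b : ℕ) (hb : Nat.Coprime b n) :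
    (b : ZMod n) ^ (n - 1) = 1 := by
  have hb0 : b ≠ 0 := by
    rintro rfl
    rw [Nat.coprime_zero_left] at hb
    omega
  have h1 : 1 ≤ b ^ (n - 1) := Nat.one_le_pow _ _ (by omega)
  have h2 : n ∣ b ^ (n - 1) - 1 := by
    conv_lhs => rw [← Nat.prod_primeFactors_of_squarefree hsq]
    refine Finset.prod_primes_dvd _ (fun q hq => (Nat.prime_of_mem_primeFactors hq).prime)
      (fun q hq => ?_)
    have hqp := Nat.prime_of_mem_primeFactors hq
    have hqn := Nat.dvd_of_mem_primeFactors hq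
    have : Fact q.Prime := ⟨hqp⟩
    have hbq : (b : ZMod q) ≠ 0 := by
      rw [Ne, ZMod.natCast_eq_zero_iff]
      intro hd
      have := Nat.dvd_gcd hd hqn
      rw [Nat.Coprime.gcd_eq_one hb] at this
      exact hqp.one_lt.ne' (Nat.dvd_one.mp this)
    obtain ⟨k, hk⟩ := h q hqp hqn
    have h3 : (b : ZMod q) ^ (n - 1) = 1 := by
      rw [hk, pow_mul, ZMod.pow_card_sub_one_eq_one hbq, one_pow]
    rw [← ZMod.natCast_eq_zero_iff, Nat.cast_sub h1]
    push_cast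
    rw [h3, sub_self]
  rw [← ZMod.natCast_eq_zero_iff, Nat.cast_sub h1] at h2
  push_cast at h2
  exact sub_eq_zero.mp h2

end Pool.Agent.H986R3.FW
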