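import Pool.Agent.H986R3.FW1
import Pool.Agent.H471R4.BW.MNP
import Pool.Agent.H471R4.BW.Final

set_option autoImplicit false

/-! The least Fermat witness of a composite number that is not a Carmichael number. -/

namespace Pool.Agent.H986R3.FW

open Finset
open Pool.Agent.H379R2.W
open Pool.Agent.H471R4.BW Pool.Agent.H471R4.BW.TaskMNP

theorem nonCarm (h1 : SNG) (h2 : SMO) (h3 : CSL) (h4 : HCH) (ε : ℝ) (hε : 0 < ε) :
    ∃ n0 : ℕ, ∀ n : ℕ, n0 ≤ n → (∃ a : ℕ, Nat.Coprime a n ∧ (a : ZMod n) ^ (n - 1) ≠ 1) →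
    ∃ b : ℕ, 1 < b ∧ (b : ℝ) ≤ (n : ℝ) ^ (1 / (8 * Real.exp (1 / 2)) + ε) ∧
      (b : ZMod n) ^ (n - 1) ≠ 1 := by
  classical
  obtain ⟨a, ha⟩ : ∃ a : ℝ, 1 / (4 * Real.exp (1 / 2)) = a := ⟨_, rfl⟩
  have hexp : (1 : ℝ) ≤ Real.exp (1 / 2) := Real.one_le_exp (by norm_num)
  have ha0 : 0 < a := by rw [← ha]; positivity
  have ha1 : a ≤ 1 := by
    rw [← ha, div_le_one (by positivity)]
    linarith
  have ha2 : 1 / (8 * Real.exp (1 / 2)) = a / 2 := by
    rw [← ha]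
    field_simp
    norm_num
  rw [ha2]
  obtain ⟨c, hc, D0, hD⟩ := h2 (a / 2) (by positivity) (by linarith)
  choose! K hK hFam using h3
  have hsng : ∀ t : ℕ, t.Prime → ∃ N0 : ℕ, ∀ N : ℕ, N0 ≤ N → ∀ [NeZero N]
      (χ : DirichletCharacter ℂ N), Fam 1 (K t) N χ →
      ∀ y : ℕ, (∀ l : ℕ, l.Prime → l ≤ y → χ (l : ZMod N) = 1) →
        (y : ℝ) ≤ (N : ℝ) ^ (a + ε) := by
    intro t ht
    have := h1 ε 1 (K t) hε one_pos (hK t ht)
    rw [ha] at this
    exact this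
  choose! N0 hN0 using hsng
  obtain ⟨W, hW⟩ : ∃ W, W = max (max D0 ((range (⌊1 / c⌋₊ + 1)).sup N0)) 3 := ⟨_, rfl⟩
  have hev : ∀ᶠ n : ℕ in Filter.atTop, (1 / c) ^ (a / 2 + ε / 2) + 1 < (n : ℝ) ^ (ε / 2) :=
    ((tendsto_rpow_atTop (show 0 < ε / 2 by positivity)).comp
      tendsto_natCast_atTop_atTop).eventually_gt_atTop _
  have hev2 : ∀ᶠ n : ℕ in Filter.atTop, (W : ℝ) + 1 < (n : ℝ) ^ (a / 2 + ε) :=
    ((tendsto_rpow_atTop (show 0 < a / 2 + ε by positivity)).comp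
      tendsto_natCast_atTop_atTop).eventually_gt_atTop _
  obtain ⟨n1, hn1⟩ := Filter.eventually_atTop.1 (hev.and hev2)
  obtain ⟨n2, hn2⟩ := log_sq_le (a / 2) (by positivity)
  obtain ⟨n3, hn3⟩ := fbad_squarefree
  refine ⟨max (max n1 n2) (max n3 2), fun n hn hcar => ?_⟩
  by_contra hcon
  push Not at hcon
  obtain ⟨hbig, hbig2⟩ := hn1 n (((le_max_left _ _).trans (le_max_left _ _)).trans hn)
  have hlog2 := hn2 n (((le_max_right _ _).trans (le_max_left _ _)).trans hn)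
  have hn2' : 2 ≤ n := ((le_max_right _ _).trans (le_max_right _ _)).trans hn
  have hnr : (1 : ℝ) ≤ n := by exact_mod_cast (by omega : 1 ≤ n)
  have hfb : FBad n := by
    refine ⟨hn2', fun b hb hb2 => hcon b hb (hb2.trans (hlog2.trans ?_))⟩
    exact Real.rpow_le_rpow_of_exponent_le hnr (by linarith)
  have hsq := hn3 n (((le_max_left _ _).trans (le_max_right _ _)).trans hn) hfb
  obtain ⟨q, hq, hqn, hqd⟩ : ∃ q : ℕ, q.Prime ∧ q ∣ n ∧ ¬ (q - 1 ∣ n - 1) := by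
    by_contra hno
    push Not at hno
    obtain ⟨b, hb1, hb2⟩ := hcar
    exact hb2 (korselt hn2' hsq hno b hb1)
  obtain ⟨m, hnm⟩ := hqn
  have hqn : q ∣ n := ⟨m, hnm⟩
  have hm2 : 2 ≤ m := by
    by_contra h
    have : m = 0 ∨ m = 1 := by omega
    rcases this with h | h
    · rw [h, mul_zero] at hnm; omega
    · rw [h, mul_one] at hnm
      exact hqd (by rw [hnm])
  obtain ⟨y, hy⟩ : ∃ y, ⌊(n : ℝ) ^ (a / 2 + ε)⌋₊ = y := ⟨_, rfl⟩
  have hy1 : (n : ℝ) ^ (a / 2 + ε) < (y : ℝ) + 1 := by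
    rw [← hy]
    exact Nat.lt_floor_add_one _
  have hpow : (0 : ℝ) ≤ (n : ℝ) ^ (a / 2 + ε) := by positivity
  have hpass : ∀ b : ℕ, 1 < b → b ≤ y → (b : ZMod n) ^ (n - 1) = 1 := by
    intro b hb hby
    refine hcon b hb ?_
    rw [← hy] at hby
    exact (Nat.le_floor_iff hpow).1 hby
  have hWq : W < q := by
    have h5 : y < q := by
      by_contra hc'
      exact fnot_dvd hn2' hq hqn (hpass q hq.one_lt (by omega)) dvd_rfl
    have h6 : (W : ℝ) < y := by linarith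
    have h7 : W < y := by exact_mod_cast h6
    omega
  have : Fact q.Prime := ⟨hq⟩
  have : NeZero q := ⟨hq.ne_zero⟩
  have hl : ∀ l : ℕ, l.Prime → l ≤ y → (l : ZMod q) ^ (n - 1) = 1 := fun l hl hly =>
    fpow_dvd (hpass l hl.one_lt hly) hqn
  have hunit : ∀ z : ZMod q, z ^ (n - 1) = 1 → z ^ (q - 1) = 1 := by
    intro z hz
    refine ZMod.pow_card_sub_one_eq_one fun h0 => ?_
    rw [h0, zero_pow (by omega)] at hz
    exact zero_ne_one hz
  obtain ⟨g, hg⟩ : ∃ g, Nat.gcd (n - 1) (q - 1) = g := ⟨_, rfl⟩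
  have hgz : ∀ z : ZMod q, z ^ (n - 1) = 1 → z ^ g = 1 := by
    intro z hz
    rw [← hg]
    exact pow_gcd_eq_one.2 ⟨hz, hunit z hz⟩
  have hq2 := hq.two_le
  have hgpos : 0 < g := by
    rw [← hg]
    exact Nat.gcd_pos_of_pos_left _ (by omega)
  obtain ⟨S, hS, hScard⟩ := hD q (by omega)
  have hSg : S.card ≤ g := by
    refine le_trans ?_ (card_roots_le (q := q) hgpos)
    refine card_le_card_of_injOn (fun s => (s : ZMod q)) ?_ ?_
    · intro s hs
      obtain ⟨h5, h6, h7⟩ := hS s hs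
      rw [mem_coe, mem_filter]
      refine ⟨mem_univ _, hgz _ ?_⟩
      refine smooth_pow hl s h5 fun l hlp hls => ?_
      rw [← hy, Nat.le_floor_iff hpow]
      refine (h7 l hlp hls).trans ?_
      have hqn' : (q : ℝ) ≤ n := by exact_mod_cast Nat.le_of_dvd (by omega) hqn
      calc (q : ℝ) ^ (a / 2) ≤ (n : ℝ) ^ (a / 2) :=
            Real.rpow_le_rpow (by positivity) hqn' (by positivity)
        _ ≤ (n : ℝ) ^ (a / 2 + ε) := Real.rpow_le_rpow_of_exponent_le hnr (by linarith)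
    · intro s hs s' hs' hss
      have h5 := (hS s hs).2.1
      have h6 := (hS s' hs').2.1
      have h7 : (s : ZMod q) = (s' : ZMod q) := hss
      rw [ZMod.natCast_eq_natCast_iff', Nat.mod_eq_of_lt h5, Nat.mod_eq_of_lt h6] at h7
      exact h7
  have hgq : g ∣ q - 1 := by
    rw [← hg]
    exact Nat.gcd_dvd_right _ _
  have hgn : g ∣ n - 1 := by
    rw [← hg]
    exact Nat.gcd_dvd_left _ _
  have hglt : g < q - 1 := by
    refine lt_of_le_of_ne (Nat.le_of_dvd (by omega) hgq) ?_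
    rintro rfl
    exact hqd hgn
  have hgm : g ∣ m - 1 := by
    have h5 : n - 1 = m * (q - 1) + (m - 1) := by
      rw [hnm, Nat.mul_sub_one, mul_comm q m]
      have : m ≤ m * q := Nat.le_mul_of_pos_right m hq.pos
      omega
    rw [h5] at hgn
    exact (Nat.dvd_add_right (Dvd.dvd.mul_left hgq m)).1 hgn
  have hgm' : g ≤ m - 1 := Nat.le_of_dvd (by omega) hgm
  obtain ⟨t, ht, htd, χ, hχ1, hχ2, hχ3⟩ := h4 q g hgq hglt
  have hcg : c * q ≤ g := by
    have : (S.card : ℝ) ≤ g := by exact_mod_cast hSg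
    linarith
  have hqpos : (0 : ℝ) < q := by exact_mod_cast hq.pos
  have hgr : (0 : ℝ) < g := by exact_mod_cast hgpos
  have htT : t ≤ ⌊1 / c⌋₊ := by
    refine Nat.le_floor ?_
    have h5 : t ≤ (q - 1) / g := Nat.le_of_dvd (Nat.div_pos (by omega) hgpos) htd
    have h6 : (t : ℝ) ≤ (((q - 1) / g : ℕ) : ℝ) := by exact_mod_cast h5
    refine h6.trans (Nat.cast_div_le.trans ?_)
    rw [div_le_div_iff₀ hgr hc]
    have h7 : ((q - 1 : ℕ) : ℝ) ≤ q := by exact_mod_cast Nat.sub_le q 1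
    nlinarith
  have hN0q : N0 t ≤ q := by
    have h5 : N0 t ≤ (range (⌊1 / c⌋₊ + 1)).sup N0 :=
      le_sup (f := N0) (mem_range.2 (by omega))
    omega
  have hfin := hN0 t ht q hN0q χ
    (hFam t ht 1 q hq (htd.trans (Nat.div_dvd_of_dvd hgq)) le_rfl χ hχ1 hχ2) y
    (fun l hlp hly => hχ3 _ (hgz _ (hl l hlp hly)))
  refine TaskMNP.final ha0 hε hc hnr hqpos.le ?_ hfin hy1 hbig
  have h8 : (g : ℝ) ≤ m := by exact_mod_cast (by omega : g ≤ m)
  have h9 : (n : ℝ) = q * m := by rw [hnm]; push_cast; ring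
  rw [h9]
  nlinarith

end Pool.Agent.H986R3.FW
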