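import Pool.Agent.H986R3.FW1
import Pool.Agent.H379R2.W.ClassBound

set_option autoImplicit false

/-! Structure of the composite numbers without a small witness of the strong test. -/

namespace Pool.Agent.H986R3.FW

open Finset Real
open Pool.Agent.H379R2.W

lemma fbad_of_bad {n : ℕ} (h : Bad n) : FBad n :=
  ⟨h.1, fun b hb hb2 => pow_of_passes (h.2.2 b hb hb2)⟩

lemma symbol_ne' {p ℓ : ℕ} (hp : p.Prime) (hℓ : ℓ.Prime) (hne : ℓ ≠ p) :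
    jacobiSym (ℓ : ℤ) p = 1 ∨ jacobiSym (ℓ : ℤ) p = -1 := by
  have hco : Nat.Coprime ℓ p := (Nat.coprime_primes hℓ hp).mpr hne
  have : NeZero p := ⟨hp.ne_zero⟩
  rcases jacobiSym.trichotomy (ℓ : ℤ) p with h | h | h
  · exfalso
    rw [jacobiSym.eq_zero_iff_not_coprime, Int.gcd_natCast_natCast] at h
    exact h hco
  · exact Or.inl h
  · exact Or.inr h

lemma bad_symbols {n : ℕ} (hb : Bad n) (hlog2 : 1 ≤ (log n) ^ 2) (hsq : Squarefree n) :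
    ∃ m : ℕ, 1 < m ∧ m ∣ n ∧ (m = n ∨ (n / m).Prime) ∧
      ∀ ℓ : ℕ, ℓ.Prime → (ℓ : ℝ) ≤ 2 * (log n) ^ 2 → jacobiSym (ℓ : ℤ) m = 1 := by
  have hn2 := hb.1
  have hpf : ∀ q ∈ n.primeFactors, q.Prime ∧ q ∣ n ∧ 2 * (log n) ^ 2 < q ∧ q ≠ 2 := by
    intro q hq
    rw [Nat.mem_primeFactors] at hq
    have h1 := bad_prime_large hb hq.1 hq.2.1
    refine ⟨hq.1, hq.2.1, h1, ?_⟩
    intro h
    rw [h, Nat.cast_ofNat] at h1
    linarith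
  have hne : n.primeFactors.Nonempty := Nat.nonempty_primeFactors.mpr (by omega)
  obtain ⟨p, hp, hpmin⟩ := exists_min_image n.primeFactors v2 hne
  obtain ⟨hpp, hpn, hplog, hp2⟩ := hpf p hp
  obtain ⟨m, hm⟩ := hpn
  have hm0 : m ≠ 0 := by intro h; rw [h, mul_zero] at hm; omega
  have hm1 : m ≠ 1 := by
    intro h
    rw [h, mul_one] at hm
    exact hb.2.1 (hm ▸ hpp)
  have hmn : m ∣ n := ⟨p, by rw [hm, mul_comm]⟩
  have hmsq : Squarefree m := hsq.squarefree_of_dvd hmn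
  obtain ⟨s, hs⟩ : ∃ s, s = (m.primeFactors.filter (fun q => v2 q = v2 p)).card := ⟨_, rfl⟩
  have hJm : ∀ ℓ : ℕ, ℓ.Prime → (ℓ : ℝ) ≤ 2 * (log n) ^ 2 →
      jacobiSym (ℓ : ℤ) m = jacobiSym (ℓ : ℤ) p ^ s := by
    intro ℓ hℓ hℓ2
    have hpass : Passes n ℓ := hb.2.2 ℓ hℓ.one_lt hℓ2
    have e1 : ∏ q ∈ m.primeFactors, q = m := Nat.prod_primeFactors_of_squarefree hmsq
    conv_lhs => rw [← e1]
    rw [jacobi_prod _ _ (fun q hq => (Nat.prime_of_mem_primeFactors hq).ne_zero)]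
    have e2 : ∀ q ∈ m.primeFactors, jacobiSym (ℓ : ℤ) q =
        if v2 q = v2 p then jacobiSym (ℓ : ℤ) p else 1 := by
      intro q hq
      rw [Nat.mem_primeFactors] at hq
      have hqn : q ∈ n.primeFactors :=
        Nat.mem_primeFactors.mpr ⟨hq.1, hq.2.1.trans hmn, by omega⟩
      obtain ⟨a1, a2, a3, a4⟩ := hpf q hqn
      have hmin := hpmin q hqn
      split_ifs with h
      · exact same_symbol hpass a1 hpp a4 hp2 a2 ⟨m, hm⟩ h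
      · exact symbol_one hpass a1 hpp a4 hp2 a2 ⟨m, hm⟩ (by omega)
    rw [prod_congr rfl e2, ← prod_filter, prod_const, hs]
  have hnep : ∀ ℓ : ℕ, (ℓ : ℝ) ≤ 2 * (log n) ^ 2 → ℓ ≠ p := by
    rintro ℓ h rfl
    linarith
  rcases Nat.even_or_odd s with hev | hod
  · refine ⟨m, by omega, hmn, Or.inr ?_, fun ℓ hℓ hℓ2 => ?_⟩
    · rw [hm, Nat.mul_div_cancel _ (by omega)]
      exact hpp
    · rw [hJm ℓ hℓ hℓ2]
      rcases symbol_ne' hpp hℓ (hnep ℓ hℓ2) with e | e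
      · rw [e]; simp
      · rw [e]; exact hev.neg_one_pow
  · refine ⟨n, by omega, dvd_rfl, Or.inl rfl, fun ℓ hℓ hℓ2 => ?_⟩
    have : NeZero p := ⟨hpp.ne_zero⟩
    have : NeZero m := ⟨hm0⟩
    rw [hm, jacobiSym.mul_right, hJm ℓ hℓ hℓ2]
    rcases symbol_ne' hpp hℓ (hnep ℓ hℓ2) with e | e
    · rw [e]; simp
    · rw [e, hod.neg_one_pow]; norm_num

theorem exc_struct : ∃ N : ℕ, ∀ n : ℕ, N ≤ n → Bad n → Squarefree n ∧
    (∀ q : ℕ, q.Prime → q ∣ n → q < (Nat.gcd (q - 1) (n - 1)) ^ 2 ∧ q ^ 3 < n ^ 2) ∧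
    ∃ m : ℕ, 1 < m ∧ m ∣ n ∧ (m = n ∨ (n / m).Prime) ∧
      ∀ ℓ : ℕ, ℓ.Prime → (ℓ : ℝ) ≤ 2 * (log n) ^ 2 → jacobiSym (ℓ : ℤ) m = 1 := by
  obtain ⟨N1, h1⟩ := bad_squarefree
  obtain ⟨N2, h2⟩ := bad_gcd
  obtain ⟨N3, h3⟩ := fbad_gcd
  have h4 : ∀ᶠ x : ℝ in Filter.atTop, (1 : ℝ) ≤ log x :=
    tendsto_log_atTop.eventually (Filter.eventually_ge_atTop _)
  obtain ⟨Y, hY⟩ := Filter.eventually_atTop.mp h4
  refine ⟨max (max N1 N2) (max N3 ⌈Y⌉₊), fun n hn hb => ?_⟩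
  simp only [max_le_iff] at hn
  obtain ⟨⟨c1, c2⟩, c3, c4⟩ := hn
  have hlog := hY n (Nat.ceil_le.mp c4)
  have hsq := h1 n c1 hb
  refine ⟨hsq, fun q hq hqn => ⟨h3 n c3 (fbad_of_bad hb) q hq hqn, ?_⟩,
    bad_symbols hb (by nlinarith) hsq⟩
  obtain ⟨m, hm⟩ := hqn
  obtain ⟨g1, g2⟩ := h2 n c2 hb q m hq hm
  have g3 : Nat.gcd (q - 1) (m - 1) ≤ m - 1 := Nat.gcd_le_right _ (by omega)
  have g4 : q < m ^ 2 := g1.trans_le (Nat.pow_le_pow_left (by omega) 2)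
  have g5 : q ^ 2 * q < q ^ 2 * m ^ 2 := Nat.mul_lt_mul_of_pos_left g4 (by have := hq.pos; positivity)
  calc q ^ 3 = q ^ 2 * q := by ring
    _ < q ^ 2 * m ^ 2 := g5
    _ = n ^ 2 := by rw [hm]; ring

end Pool.Agent.H986R3.FW
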