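import Mathlib

/-!
Polynomial calculus: semantic refutations and their monomial space, syntactic refutations and
their degree.
-/

set_option autoImplicit false

namespace Pool.Agent.H986R3.MS

open MvPolynomial

variable {V F : Type} [Field F]

/-- The Boolean ideal, generated by the polynomials `x^2 - x`. -/
noncomputable def boolIdeal (V F : Type) [Field F] : Ideal (MvPolynomial V F) :=
  Ideal.span (Set.range fun x : V => X x ^ 2 - X x)

/-- No assignment of `0` and `1` to the variables is a common zero of the polynomials in `P`. -/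
def Unsatisfiable (P : Set (MvPolynomial V F)) : Prop :=
  ¬ ∃ a : V → F, (∀ x, a x = 0 ∨ a x = 1) ∧ ∀ p ∈ P, eval a p = 0

/-- The number of distinct monomials that occur in the polynomials of a configuration. -/
noncomputable def MSp (S : Finset (MvPolynomial V F)) : ℕ :=
  Set.ncard {m : V →₀ ℕ | ∃ f ∈ S, m ∈ f.support}

/-- The configurations `M 0, ..., M l` form a semantic refutation of `P`. -/
def IsSemanticRefutation (P : Set (MvPolynomial V F)) (l : ℕ)
    (M : ℕ → Finset (MvPolynomial V F)) : Prop :=
  M 0 = ∅ ∧ 1 ∈ M l ∧ ∀ i < l, ∃ p ∈ P, ∀ f ∈ M (i + 1),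
    f ∈ Ideal.span (M i : Set (MvPolynomial V F)) ⊔ boolIdeal V F ⊔ Ideal.span {p}

/-- The monomial space of the semantic refutation `M 0, ..., M l`. -/
noncomputable def space (l : ℕ) (M : ℕ → Finset (MvPolynomial V F)) : ℕ :=
  (Finset.range (l + 1)).sup fun i => MSp (M i)

/-- `f` is an axiom or follows from the polynomials in `L` by one rule of polynomial calculus. -/
def IsLine (P : Set (MvPolynomial V F)) (L : List (MvPolynomial V F)) (f : MvPolynomial V F) :
    Prop :=
  f ∈ P ∨ (∃ x : V, f = X x ^ 2 - X x) ∨
    (∃ g ∈ L, ∃ h ∈ L, ∃ α β : F, f = C α * g + C β * h) ∨ ∃ g ∈ L, ∃ x : V, f = X x * g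

/-- The lines of a polynomial calculus derivation from `P`, the last line first. -/
def IsDerivation (P : Set (MvPolynomial V F)) : List (MvPolynomial V F) → Prop
  | [] => True
  | f :: L => IsLine P L f ∧ IsDerivation P L

/-- `P` has a polynomial calculus refutation in which each line has degree at most `k`. -/
def RefutableInDegree (P : Set (MvPolynomial V F)) (k : ℕ) : Prop :=
  ∃ L : List (MvPolynomial V F), IsDerivation P (1 :: L) ∧ ∀ f ∈ (1 :: L), f.totalDegree ≤ k

end Pool.Agent.H986R3.MS
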