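import Pool.Agent.H986R3.MSDefs

set_option autoImplicit false

/-! The degree lower bound for the knapsack polynomials. -/

namespace Pool.Agent.H986R3.MS

open MvPolynomial Finset

variable {n : ℕ}

/-- Coefficient vectors of multilinear polynomials in `x_1, ..., x_n`. -/
abbrev Vec (n : ℕ) := Finset (Fin n) → ℚ

/-- Multiplication by the variable `x_i`. -/
def mulX (i : Fin n) (c : Vec n) : Vec n := fun T => if i ∈ T then c T + c (T.erase i) else 0

/-- Multiplication by `Σ x_i - r`. -/
def mulP (r : ℚ) (c : Vec n) : Vec n := fun T => (∑ i, mulX i c T) - r * c T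

/-- Support on sets of size at most `k`. -/
def Low (k : ℕ) (c : Vec n) : Prop := ∀ T, k < T.card → c T = 0

theorem mulX_comm (i j : Fin n) (c : Vec n) : mulX i (mulX j c) = mulX j (mulX i c) := by
  funext T
  by_cases hij : i = j
  · subst hij; rfl
  · have hji : j ≠ i := fun h => hij h.symm
    simp only [mulX, mem_erase]
    by_cases hi : i ∈ T <;> by_cases hj : j ∈ T <;>
      simp only [hi, hj, hij, hji, ne_eq, not_false_eq_true, and_true, and_false, if_true, if_false,
        add_zero]
    rw [erase_right_comm]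
    ring

theorem mulX_sum (i : Fin n) (s : Finset (Fin n)) (c : Fin n → Vec n) (T : Finset (Fin n)) :
    mulX i (fun T => ∑ j ∈ s, c j T) T = ∑ j ∈ s, mulX i (c j) T := by
  simp only [mulX]
  split_ifs
  · rw [sum_add_distrib]
  · simp

theorem mulX_mulP (i : Fin n) (r : ℚ) (c : Vec n) : mulX i (mulP r c) = mulP r (mulX i c) := by
  funext T
  have h1 : mulX i (mulP r c) T = mulX i (fun T => ∑ j, mulX j c T) T - r * mulX i c T := by
    simp only [mulX, mulP]
    split_ifs <;> ring
  rw [h1, mulX_sum i univ (fun j => mulX j c) T]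
  simp only [mulP]
  congr 1
  exact sum_congr rfl fun j _ => by rw [mulX_comm]

theorem mulP_add (r : ℚ) (a b : ℚ) (c d : Vec n) :
    mulP r (a • c + b • d) = a • mulP r c + b • mulP r d := by
  funext T
  simp only [mulP, Pi.add_apply, Pi.smul_apply, smul_eq_mul]
  have : ∀ i, mulX i (a • c + b • d) T = a * mulX i c T + b * mulX i d T := by
    intro i
    simp only [mulX, Pi.add_apply, Pi.smul_apply, smul_eq_mul]
    split_ifs <;> ring
  simp only [this, sum_add_distrib, ← mul_sum]
  ring

theorem mulX_low {i : Fin n} {k : ℕ} {c : Vec n} (h : Low k c) : Low (k + 1) (mulX i c) := by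
  intro T hT
  simp only [mulX]
  split_ifs with hi
  · rw [h T (by omega), h (T.erase i) (by rw [card_erase_of_mem hi]; omega), add_zero]
  · rfl

theorem mulP_apply (r : ℚ) (c : Vec n) (T : Finset (Fin n)) :
    mulP r c T = (T.card - r) * c T + ∑ i ∈ T, c (T.erase i) := by
  simp only [mulP, mulX]
  rw [← sum_filter, filter_mem_eq_inter, univ_inter, sum_add_distrib, sum_const, nsmul_eq_mul]
  ring

/-- The up operator. -/
def up (c : Vec n) : Vec n := fun T => ∑ i ∈ T, c (T.erase i)

/-- The down operator. -/
def down (c : Vec n) : Vec n := fun S => ∑ i ∈ Sᶜ, c (insert i S)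

theorem adj (c d : Vec n) : ∑ T, up c T * d T = ∑ S, c S * down d S := by
  simp only [up, down, sum_mul, mul_sum]
  rw [sum_sigma', sum_sigma']
  refine sum_bij' (fun x _ => ⟨x.1.erase x.2, x.2⟩) (fun x _ => ⟨insert x.2 x.1, x.2⟩) ?_ ?_ ?_ ?_ ?_
  · rintro ⟨T, i⟩ h
    simp only [mem_sigma, mem_univ, true_and, mem_compl, mem_erase, ne_eq, not_true_eq_false,
      false_and, not_false_eq_true]
  · rintro ⟨S, i⟩ h
    simp only [mem_sigma, mem_univ, true_and, mem_insert, true_or]
  · rintro ⟨T, i⟩ h
    simp only [mem_sigma, mem_univ, true_and] at h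
    simp only [insert_erase h]
  · rintro ⟨S, i⟩ h
    simp only [mem_sigma, mem_univ, true_and, mem_compl] at h
    simp only [erase_insert h]
  · rintro ⟨T, i⟩ h
    simp only [mem_sigma, mem_univ, true_and] at h
    simp only [insert_erase h]

theorem comm (c : Vec n) (S : Finset (Fin n)) :
    down (up c) S = up (down c) S + ((n : ℚ) - 2 * S.card) * c S := by
  have h1 : down (up c) S = ∑ i ∈ Sᶜ, (c S + ∑ j ∈ S, c ((insert i S).erase j)) := by
    refine sum_congr rfl fun i hi => ?_
    rw [mem_compl] at hi
    simp only [up]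
    rw [sum_insert hi, erase_insert hi]
  have h2 : up (down c) S = ∑ j ∈ S, (c S + ∑ i ∈ Sᶜ, c ((insert i S).erase j)) := by
    refine sum_congr rfl fun j hj => ?_
    simp only [down]
    have h3 : (S.erase j)ᶜ = insert j Sᶜ := by rw [compl_erase]
    rw [h3, sum_insert (by simp [hj]), insert_erase hj]
    congr 1
    refine sum_congr rfl fun i hi => ?_
    rw [mem_compl] at hi
    have hij : i ≠ j := by rintro rfl; exact hi hj
    rw [erase_insert_of_ne hij]
  rw [h1, h2, sum_add_distrib, sum_add_distrib, sum_const, sum_const, sum_comm, nsmul_eq_mul,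
    nsmul_eq_mul]
  have h4 : ((Sᶜ).card : ℚ) = n - S.card := by
    rw [card_compl, Fintype.card_fin, Nat.cast_sub]
    have := card_le_univ S
    rwa [Fintype.card_fin] at this
  rw [h4]
  ring

/-- Injectivity of the up operator below the middle level. -/
theorem up_inj {m : ℕ} (hm : 2 * m < n) (c : Vec n) (hc : ∀ S, S.card ≠ m → c S = 0)
    (h : ∀ T, T.card = m + 1 → up c T = 0) : c = 0 := by
  have h0 : up c = 0 := by
    funext T
    by_cases hT : T.card = m + 1
    · exact h T hT
    · refine sum_eq_zero fun i hi => hc _ ?_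
      rw [card_erase_of_mem hi]
      have : 0 < T.card := card_pos.mpr ⟨i, hi⟩
      omega
  have h1 : ∑ S, c S * down (up c) S = 0 := by
    rw [h0]
    refine sum_eq_zero fun S _ => ?_
    simp [down]
  have h2 : ∑ S, c S * down (up c) S =
      ∑ S, down c S * down c S + ((n : ℚ) - 2 * m) * ∑ S, c S * c S := by
    have h3 : ∀ S, c S * down (up c) S = up (down c) S * c S + ((n : ℚ) - 2 * m) * (c S * c S) := by
      intro S
      rw [comm]
      by_cases hS : S.card = m
      · rw [hS]; ring
      · rw [hc S hS]; ring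
    simp only [h3, sum_add_distrib, adj, mul_sum]
  rw [h1] at h2
  have h4 : 0 ≤ ∑ S, down c S * down c S := sum_nonneg fun S _ => mul_self_nonneg _
  have h5 : 0 ≤ ∑ S, c S * c S := sum_nonneg fun S _ => mul_self_nonneg _
  have h6 : (0 : ℚ) < (n : ℚ) - 2 * m := by
    have : ((2 * m : ℕ) : ℚ) < n := by exact_mod_cast hm
    push_cast at this
    linarith
  have h7 : ∑ S, c S * c S = 0 := by
    by_contra hne
    have : 0 < ∑ S, c S * c S := lt_of_le_of_ne h5 (Ne.symm hne)
    have := mul_pos h6 this
    linarith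
  rw [sum_eq_zero_iff_of_nonneg fun S _ => mul_self_nonneg _] at h7
  funext S
  exact mul_self_eq_zero.mp (h7 S (mem_univ S))

theorem low_drop {r : ℚ} {k : ℕ} (hk : 2 * k < n) {c : Vec n} (hc : Low k c)
    (h : ∀ T, T.card = k + 1 → mulP r c T = 0) : ∀ T, k ≤ T.card → c T = 0 := by
  have h1 : (fun S : Finset (Fin n) => if S.card = k then c S else 0) = (0 : Vec n) := by
    refine up_inj hk _ (fun S hS => if_neg hS) fun T hT => ?_
    have h2 := h T hT
    rw [mulP_apply, hc T (by omega), mul_zero, zero_add] at h2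
    refine Eq.trans (sum_congr rfl fun i hi => ?_) h2
    refine if_pos ?_
    rw [card_erase_of_mem hi]
    omega
  intro T hT
  rcases Nat.lt_or_ge k T.card with h3 | h3
  · exact hc T h3
  · have h4 := congrFun h1 T
    simp only [show T.card = k by omega, if_true] at h4
    exact h4

theorem low_zero {r : ℚ} {k : ℕ} : 2 * k < n → ∀ {c : Vec n}, Low k c →
    (∀ T, 1 ≤ T.card → mulP r c T = 0) → c = 0 := by
  induction k with
  | zero =>
    intro hk c hc h
    have h1 := low_drop hk hc (fun T hT => h T (by omega))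
    funext T
    exact h1 T (Nat.zero_le _)
  | succ k ih =>
    intro hk c hc h
    have h1 := low_drop hk hc (fun T hT => h T (by omega))
    exact ih (by omega) (fun T hT => h1 T hT) h

end Pool.Agent.H986R3.MS
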