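import Pool.Agent.H986R3.MSLow

set_option autoImplicit false

/-! The degree lower bound for the knapsack axioms with an extra variable `y`. -/

namespace Pool.Agent.H986R3.MS

open MvPolynomial Finset

variable {n : ℕ}

/-- The variables `x_1, ..., x_n` and `y`. -/
abbrev Var (n : ℕ) := Option (Fin n)

/-- The indices of the variables `x_i` in a monomial. -/
def sx (s : Var n →₀ ℕ) : Finset (Fin n) := univ.filter fun i => s (some i) ≠ 0

/-- The coefficients of the multilinear form of `f` after the substitution `y = 1`. -/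
noncomputable def Phi : MvPolynomial (Var n) ℚ →ₗ[ℚ] Vec n :=
  (basisMonomials (Var n) ℚ).constr ℚ fun s => Pi.single (sx s) 1

theorem Phi_monomial (s : Var n →₀ ℕ) (a : ℚ) :
    Phi (monomial s a) = a • (Pi.single (sx s) 1 : Vec n) := by
  have h1 : monomial s a = a • (monomial s 1 : MvPolynomial (Var n) ℚ) := by
    rw [smul_monomial, smul_eq_mul, mul_one]
  have h2 : (monomial s 1 : MvPolynomial (Var n) ℚ) = basisMonomials (Var n) ℚ s := by
    rw [coe_basisMonomials]
  rw [h1, map_smul, h2, Phi, Module.Basis.constr_basis]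

theorem mulX_single (i : Fin n) (S : Finset (Fin n)) :
    mulX i (Pi.single S 1 : Vec n) = Pi.single (insert i S) 1 := by
  funext T
  simp only [mulX, Pi.single_apply]
  by_cases hiT : i ∈ T
  · rw [if_pos hiT]
    by_cases hiS : i ∈ S
    · rw [insert_eq_self.mpr hiS]
      have h1 : ¬ T.erase i = S := by
        intro h
        rw [← h] at hiS
        exact notMem_erase i T hiS
      rw [if_neg h1, add_zero]
    · have h1 : ¬ T = S := by
        rintro rfl; exact hiS hiT
      rw [if_neg h1, zero_add]
      by_cases h2 : T.erase i = S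
      · rw [if_pos h2, if_pos]
        rw [← h2, insert_erase hiT]
      · rw [if_neg h2, if_neg]
        intro h3
        exact h2 (by rw [h3, erase_insert hiS])
  · rw [if_neg hiT, if_neg]
    rintro rfl
    exact hiT (mem_insert_self i S)

theorem mulX_smul_add (i : Fin n) (a : ℚ) (c : Vec n) : mulX i (a • c) = a • mulX i c := by
  funext T
  simp only [mulX, Pi.smul_apply, smul_eq_mul]
  split_ifs <;> ring

theorem mulX_add (i : Fin n) (c d : Vec n) : mulX i (c + d) = mulX i c + mulX i d := by
  funext T
  simp only [mulX, Pi.add_apply]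
  split_ifs <;> ring

theorem Phi_some (i : Fin n) (f : MvPolynomial (Var n) ℚ) :
    Phi (X (some i) * f) = mulX i (Phi f) := by
  induction f using MvPolynomial.induction_on' with
  | monomial u a =>
    rw [X, monomial_mul, one_mul, Phi_monomial, Phi_monomial, mulX_smul_add, mulX_single]
    congr 2
    ext j
    simp only [sx, mem_filter, mem_univ, true_and, mem_insert, Finsupp.add_apply,
      Finsupp.single_apply, Option.some.injEq]
    split_ifs with h
    · subst h; simp
    · simp [Ne.symm h]
  | add p q hp hq =>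
    rw [mul_add, map_add, map_add, hp, hq, mulX_add]

theorem Phi_none (f : MvPolynomial (Var n) ℚ) : Phi (X none * f) = Phi f := by
  induction f using MvPolynomial.induction_on' with
  | monomial u a =>
    rw [X, monomial_mul, one_mul, Phi_monomial, Phi_monomial]
    congr 2
    ext j
    simp only [sx, mem_filter, mem_univ, true_and, Finsupp.add_apply,
      Finsupp.single_apply, reduceCtorEq, if_false, zero_add]
  | add p q hp hq =>
    rw [mul_add, map_add, map_add, hp, hq]

theorem card_sx (s : Var n →₀ ℕ) : (sx s).card ≤ s.sum fun _ e => e := by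
  have h1 : ((sx s).map Function.Embedding.some) ⊆ s.support := by
    intro x hx
    rw [mem_map] at hx
    obtain ⟨i, hi, rfl⟩ := hx
    rw [Finsupp.mem_support_iff]
    exact (mem_filter.mp hi).2
  calc (sx s).card = ((sx s).map Function.Embedding.some).card := (card_map _).symm
    _ ≤ s.support.card := card_le_card h1
    _ = ∑ _x ∈ s.support, 1 := by rw [sum_const, smul_eq_mul, mul_one]
    _ ≤ s.sum fun _ e => e := sum_le_sum fun x hx =>
        Nat.one_le_iff_ne_zero.mpr (Finsupp.mem_support_iff.mp hx)

theorem Phi_low {k : ℕ} {f : MvPolynomial (Var n) ℚ} (hf : f.totalDegree ≤ k) : Low k (Phi f) := by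
  intro T hT
  rw [← support_sum_monomial_coeff f, map_sum, Finset.sum_apply]
  refine sum_eq_zero fun s hs => ?_
  rw [Phi_monomial, Pi.smul_apply, Pi.single_apply, if_neg, smul_zero]
  rintro rfl
  have h1 := card_sx s
  have h2 := le_totalDegree hs
  omega

/-- The axiom `Σ x_i - r y`. -/
noncomputable def ax1 (n : ℕ) (r : ℚ) : MvPolynomial (Var n) ℚ :=
  ∑ i : Fin n, X (some i) - C r * X none

/-- The axiom `1 - y`. -/
noncomputable def ax2 (n : ℕ) : MvPolynomial (Var n) ℚ := 1 - X none

theorem Phi_ax1 (r : ℚ) : Phi (ax1 n r) = mulP r (Phi 1) := by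
  have h1 : ∀ i : Fin n, Phi (X (some i)) = mulX i (Phi 1) := fun i => by
    rw [← Phi_some, mul_one]
  have h2 : Phi (X none : MvPolynomial (Var n) ℚ) = Phi 1 := by
    rw [← Phi_none 1, mul_one]
  rw [ax1, map_sub, map_sum, C_mul', map_smul, h2]
  funext T
  simp only [h1, Pi.sub_apply, Finset.sum_apply, Pi.smul_apply, smul_eq_mul, mulP]

theorem Phi_ax2 : Phi (ax2 n) = 0 := by
  have h2 : Phi (X none : MvPolynomial (Var n) ℚ) = Phi 1 := by
    rw [← Phi_none 1, mul_one]
  rw [ax2, map_sub, h2, sub_self]

theorem Phi_bool (x : Var n) : Phi (X x ^ 2 - X x : MvPolynomial (Var n) ℚ) = 0 := by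
  cases x with
  | none =>
    have h2 : Phi (X none : MvPolynomial (Var n) ℚ) = Phi 1 := by
      rw [← Phi_none 1, mul_one]
    rw [map_sub, sq, Phi_none, sub_self]
  | some i =>
    have h1 : Phi (X (some i) : MvPolynomial (Var n) ℚ) = mulX i (Phi 1) := by
      rw [← Phi_some, mul_one]
    rw [map_sub, sq, Phi_some, h1]
    funext T
    simp only [Pi.sub_apply, Pi.zero_apply, mulX, mem_erase, ne_eq, not_true_eq_false, false_and,
      if_false, add_zero]
    split_ifs <;> ring

theorem mulP_zero (r : ℚ) : mulP r (0 : Vec n) = 0 := by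
  funext T
  simp [mulP, mulX]

/-- The invariant. -/
theorem invariant {r : ℚ} {k : ℕ} (hk : 2 * k < n) : ∀ L : List (MvPolynomial (Var n) ℚ),
    IsDerivation {ax1 n r, ax2 n} L → (∀ f ∈ L, f.totalDegree ≤ k + 1) →
    ∀ f ∈ L, ∃ c : Vec n, Low k c ∧ Phi f = mulP r c := by
  intro L
  induction L with
  | nil => intro _ _ f hf; simp at hf
  | cons g L ih =>
    rintro ⟨hline, hder⟩ hdeg
    have ih' := ih hder fun f hf => hdeg f (List.mem_cons_of_mem _ hf)
    have hg := hdeg g (List.mem_cons_self)
    intro f hf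
    rcases List.mem_cons.mp hf with rfl | hf
    · rcases hline with (h | h) | ⟨x, rfl⟩ | ⟨g, hg1, h, hh, α, β, rfl⟩ | ⟨g, hg1, x, rfl⟩
      · refine ⟨Phi 1, ?_, by rw [h, Phi_ax1]⟩
        intro T hT
        have h1 : Low 0 (Phi (1 : MvPolynomial (Var n) ℚ)) := Phi_low (by simp)
        exact h1 T (by omega)
      · rw [Set.mem_singleton_iff] at h
        exact ⟨0, fun _ _ => rfl, by rw [h, Phi_ax2, mulP_zero]⟩
      · exact ⟨0, fun _ _ => rfl, by rw [Phi_bool, mulP_zero]⟩
      · obtain ⟨c, hc1, hc2⟩ := ih' g hg1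
        obtain ⟨d, hd1, hd2⟩ := ih' h hh
        refine ⟨α • c + β • d, fun T hT => ?_, ?_⟩
        · simp [hc1 T hT, hd1 T hT]
        · rw [map_add, C_mul', C_mul', map_smul, map_smul, hc2, hd2, mulP_add]
      · obtain ⟨c, hc1, hc2⟩ := ih' g hg1
        by_cases hg0 : g = 0
        · exact ⟨0, fun _ _ => rfl, by rw [hg0, mul_zero, map_zero, mulP_zero]⟩
        · have hdg : g.totalDegree ≤ k := by
            rw [totalDegree_mul_of_isDomain (X_ne_zero x) hg0, totalDegree_X] at hg
            omega
          have hlow := Phi_low hdg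
          have hc3 := low_drop (r := r) hk hc1 (fun T hT => by
            rw [← hc2]; exact hlow T (by omega))
          cases x with
          | none => exact ⟨c, hc1, by rw [Phi_none, hc2]⟩
          | some i =>
            refine ⟨mulX i c, fun T hT => ?_, by rw [Phi_some, hc2, mulX_mulP]⟩
            simp only [mulX]
            split_ifs with hi
            · rw [hc3 T (by omega), hc3 (T.erase i) (by rw [card_erase_of_mem hi]; omega),
                add_zero]
            · rfl
    · exact ih' f hf

theorem lower {r : ℚ} {k : ℕ} (hk : 2 * k < n) : ¬ RefutableInDegree {ax1 n r, ax2 n} (k + 1) := by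
  rintro ⟨L, hL, hdeg⟩
  obtain ⟨c, hc1, hc2⟩ := invariant hk (1 :: L) hL hdeg 1 (List.mem_cons_self)
  have h1 : Low 0 (Phi (1 : MvPolynomial (Var n) ℚ)) := Phi_low (by simp)
  have h2 : c = 0 := low_zero hk hc1 (fun T hT => by rw [← hc2]; exact h1 T (by omega))
  rw [h2, mulP_zero] at hc2
  have h3 : Phi (1 : MvPolynomial (Var n) ℚ) = (Pi.single ∅ 1 : Vec n) := by
    have h4 : (1 : MvPolynomial (Var n) ℚ) = monomial 0 1 := rfl
    rw [h4, Phi_monomial, one_smul]
    congr 1
    ext i
    simp [sx]
  rw [h3] at hc2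
  have h5 := congrFun hc2 ∅
  simp at h5

end Pool.Agent.H986R3.MS
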