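import Pool.Agent.H986R3.MSPC

set_option autoImplicit false

/-! Semantic refutation in monomial space one, and completeness of polynomial calculus. -/

namespace Pool.Agent.H986R3.MS

open MvPolynomial Finset

section complete
variable {V F : Type} [Field F] {P : Set (MvPolynomial V F)}

theorem isLine_mono {L L' : List (MvPolynomial V F)} (h : ∀ g ∈ L, g ∈ L') {f : MvPolynomial V F}
    (hf : IsLine P L f) : IsLine P L' f := by
  rcases hf with h1 | h1 | ⟨g, hg, k, hk, h1⟩ | ⟨g, hg, h1⟩
  · exact Or.inl h1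
  · exact Or.inr (Or.inl h1)
  · exact Or.inr (Or.inr (Or.inl ⟨g, h g hg, k, h k hk, h1⟩))
  · exact Or.inr (Or.inr (Or.inr ⟨g, h g hg, h1⟩))

theorem isDerivation_append {L L' : List (MvPolynomial V F)} (h : IsDerivation P L)
    (h' : IsDerivation P L') : IsDerivation P (L ++ L') := by
  induction L with
  | nil => exact h'
  | cons f L ih =>
    exact ⟨isLine_mono (fun g hg => List.mem_append_left _ hg) h.1, ih h.2⟩

theorem isDerivation_suffix {L L' : List (MvPolynomial V F)} (h : IsDerivation P (L ++ L')) :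
    IsDerivation P L' := by
  induction L with
  | nil => exact h
  | cons f L ih => exact ih h.2

/-- `f` is derivable. -/
def Der (P : Set (MvPolynomial V F)) (f : MvPolynomial V F) : Prop :=
  ∃ L, IsDerivation P L ∧ f ∈ L

theorem Der.ax {f : MvPolynomial V F} (h : f ∈ P) : Der P f :=
  ⟨[f], ⟨Or.inl h, trivial⟩, List.mem_cons_self⟩

theorem Der.bool (x : V) : Der P (X x ^ 2 - X x) :=
  ⟨[_], ⟨Or.inr (Or.inl ⟨x, rfl⟩), trivial⟩, List.mem_cons_self⟩

theorem Der.lin {f g : MvPolynomial V F} (hf : Der P f) (hg : Der P g) (α β : F) :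
    Der P (C α * f + C β * g) := by
  obtain ⟨L, hL, hf⟩ := hf
  obtain ⟨L', hL', hg⟩ := hg
  exact ⟨_ :: (L ++ L'), ⟨Or.inr (Or.inr (Or.inl ⟨f, List.mem_append_left _ hf, g,
    List.mem_append_right _ hg, α, β, rfl⟩)), isDerivation_append hL hL'⟩, List.mem_cons_self⟩

theorem Der.mulX {f : MvPolynomial V F} (hf : Der P f) (x : V) : Der P (X x * f) := by
  obtain ⟨L, hL, hf⟩ := hf
  exact ⟨_ :: L, ⟨Or.inr (Or.inr (Or.inr ⟨f, hf, x, rfl⟩)), hL⟩, List.mem_cons_self⟩

theorem Der.add {f g : MvPolynomial V F} (hf : Der P f) (hg : Der P g) : Der P (f + g) := by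
  have := Der.lin hf hg 1 1
  simpa using this

theorem Der.mul {f : MvPolynomial V F} (hf : Der P f) (q : MvPolynomial V F) : Der P (q * f) := by
  induction q using MvPolynomial.induction_on with
  | C a =>
    have := Der.lin hf hf a 0
    simpa using this
  | add p q hp hq =>
    rw [add_mul]
    exact Der.add hp hq
  | mul_X p x hp =>
    rw [mul_comm p, mul_assoc]
    exact Der.mulX hp x

theorem Der.zero {f : MvPolynomial V F} (hf : Der P f) : Der P 0 := by
  have := Der.mul hf 0
  simpa using this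

theorem Der.ideal {f : MvPolynomial V F} (hf : Der P f) {g : MvPolynomial V F}
    (hg : g ∈ Ideal.span (P ∪ Set.range fun x : V => X x ^ 2 - X x)) : Der P g := by
  induction hg using Submodule.span_induction with
  | mem g h =>
    rcases h with h | ⟨x, rfl⟩
    · exact Der.ax h
    · exact Der.bool x
  | zero => exact Der.zero hf
  | add a b _ _ ha hb => exact Der.add ha hb
  | smul a b _ hb => exact Der.mul hb a

theorem refutable_of_mem {f : MvPolynomial V F} (hf : f ∈ P)
    (h : (1 : MvPolynomial V F) ∈ Ideal.span (P ∪ Set.range fun x : V => X x ^ 2 - X x)) :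
    ∃ k, RefutableInDegree P k := by
  classical
  obtain ⟨L, hL, h1⟩ := Der.ideal (Der.ax hf) h
  obtain ⟨s, t, rfl⟩ := List.append_of_mem h1
  refine ⟨(1 :: t).toFinset.sup totalDegree, t, isDerivation_suffix hL, fun g hg => ?_⟩
  exact Finset.le_sup (f := totalDegree) (List.mem_toFinset.mpr hg)

end complete

variable {n : ℕ}

theorem vanish (f : MvPolynomial (Var n) ℚ)
    (h : ∀ a : Var n → ℚ, (∀ x, a x = 0 ∨ a x = 1) → eval a f = 0) : f ∈ boolIdeal (Var n) ℚ := by
  obtain ⟨g, -, hg⟩ := combinatorial_nullstellensatz_exists_linearCombination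
    (fun _ : Var n => ({0, 1} : Finset ℚ)) (fun _ => by simp) f (fun a ha => h a fun x => by
      simpa using ha x)
  rw [hg, Finsupp.linearCombination_apply]
  refine Ideal.sum_mem _ fun x _ => ?_
  beta_reduce
  rw [smul_eq_mul]
  refine Ideal.mul_mem_left _ _ (Ideal.subset_span ⟨x, ?_⟩)
  rw [prod_pair (by norm_num)]
  simp only [C_0, C_1]
  ring

/-- `y` follows semantically from the first axiom. -/
theorem sem1 : (X none : MvPolynomial (Var n) ℚ) ∈
    boolIdeal (Var n) ℚ ⊔ Ideal.span {ax1 n ((n : ℚ) + 1)} := by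
  obtain ⟨r, hr⟩ : ∃ r : ℚ, r = (n : ℚ) + 1 := ⟨_, rfl⟩
  rw [← hr]
  obtain ⟨Q, hQ⟩ : ∃ Q : Polynomial ℚ, Q = ∏ j ∈ range (n + 1), (Polynomial.X - Polynomial.C (j : ℚ)) :=
    ⟨_, rfl⟩
  have hQr : Q.eval r ≠ 0 := by
    rw [hQ, Polynomial.eval_prod, prod_ne_zero_iff]
    intro j hj
    rw [mem_range] at hj
    simp only [Polynomial.eval_sub, Polynomial.eval_X, Polynomial.eval_C]
    have : (j : ℚ) < n + 1 := by exact_mod_cast hj
    rw [hr]
    intro h
    linarith
  have hQj : ∀ j : ℕ, j ≤ n → Q.eval (j : ℚ) = 0 := by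
    intro j hj
    rw [hQ, Polynomial.eval_prod]
    refine prod_eq_zero (mem_range.mpr (by omega) : j ∈ range (n + 1)) ?_
    simp
  obtain ⟨G, hG⟩ : (Polynomial.X - Polynomial.C r) ∣ Q - Polynomial.C (Q.eval r) :=
    Polynomial.X_sub_C_dvd_sub_C_eval
  obtain ⟨S, hS⟩ : ∃ S : MvPolynomial (Var n) ℚ, S = ∑ i : Fin n, X (some i) := ⟨_, rfl⟩
  have key : C (Q.eval r) * X none + ax1 n r * (Polynomial.aeval S G * X none) ∈
      boolIdeal (Var n) ℚ := by
    refine vanish _ fun a ha => ?_
    have h1 : eval a S = ∑ i : Fin n, a (some i) := by rw [hS, map_sum]; simp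
    obtain ⟨j, hj, hj2⟩ : ∃ j : ℕ, j ≤ n ∧ eval a S = j := by
      refine ⟨(univ.filter fun i : Fin n => a (some i) = 1).card, ?_, ?_⟩
      · have := card_filter_le (univ : Finset (Fin n)) (fun i => a (some i) = 1)
        simpa using this
      · rw [h1, card_filter]
        push_cast
        refine sum_congr rfl fun i _ => ?_
        rcases ha (some i) with h | h
        · rw [h]; simp
        · rw [h]; simp
    have h2 : eval a (Polynomial.aeval S G) = G.eval (j : ℚ) := by
      rw [← hj2, Polynomial.aeval_def, Polynomial.eval₂_eq_sum_range, map_sum,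
        Polynomial.eval_eq_sum_range]
      refine sum_congr rfl fun i _ => ?_
      rw [map_mul, map_pow, algebraMap_eq, eval_C]
    have h3 : Q.eval (j : ℚ) - Q.eval r = ((j : ℚ) - r) * G.eval (j : ℚ) := by
      have := congrArg (Polynomial.eval (j : ℚ)) hG
      simpa using this
    rw [hQj j hj] at h3
    have h4 : eval a (ax1 n r) = j - r * a none := by
      rw [ax1, ← hS, map_sub, hj2]
      simp
    rw [map_add, map_mul, map_mul, map_mul, eval_C, eval_X, h2, h4]
    rcases ha none with h | h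
    · rw [h]; ring
    · rw [h]
      linarith
  have h5 : (X none : MvPolynomial (Var n) ℚ) = C (1 / Q.eval r) *
      (C (Q.eval r) * X none + ax1 n r * (Polynomial.aeval S G * X none)) -
      (C (1 / Q.eval r) * (Polynomial.aeval S G * X none)) * ax1 n r := by
    have h6 : (C (1 / Q.eval r) * C (Q.eval r) : MvPolynomial (Var n) ℚ) = 1 := by
      rw [← C_mul, one_div_mul_cancel hQr, C_1]
    calc (X none : MvPolynomial (Var n) ℚ) = (C (1 / Q.eval r) * C (Q.eval r)) * X none := by
          rw [h6, one_mul]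
      _ = _ := by ring
  rw [h5]
  refine Ideal.sub_mem _ (Ideal.mul_mem_left _ _ (Ideal.mem_sup_left key))
    (Ideal.mul_mem_left _ _ (Ideal.mem_sup_right (Ideal.mem_span_singleton_self _)))

/-- The configurations. -/
noncomputable def conf (n : ℕ) : ℕ → Finset (MvPolynomial (Var n) ℚ)
  | 0 => ∅
  | 1 => {X none}
  | _ => {1}

theorem conf_refutes : IsSemanticRefutation {ax1 n ((n : ℚ) + 1), ax2 n} 2 (conf n) := by
  refine ⟨rfl, by simp [conf], fun i hi => ?_⟩
  interval_cases i
  · refine ⟨ax1 n ((n : ℚ) + 1), Or.inl rfl, fun f hf => ?_⟩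
    simp only [conf, mem_singleton] at hf
    rw [hf]
    have h1 := sem1 (n := n)
    exact (sup_le_sup_right le_sup_right _ : _ ≤ Ideal.span (conf n 0 : Set _) ⊔
      boolIdeal (Var n) ℚ ⊔ Ideal.span {ax1 n ((n : ℚ) + 1)}) h1
  · refine ⟨ax2 n, Or.inr rfl, fun f hf => ?_⟩
    simp only [conf, mem_singleton] at hf
    rw [hf]
    have h1 : (1 : MvPolynomial (Var n) ℚ) = X none + ax2 n := by rw [ax2]; ring
    rw [h1]
    refine Ideal.add_mem _ (Ideal.mem_sup_left (Ideal.mem_sup_left (Ideal.subset_span ?_)))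
      (Ideal.mem_sup_right (Ideal.mem_span_singleton_self _))
    simp [conf]

theorem conf_space : space 2 (conf n) = 1 := by
  have h0 : MSp (conf n 0) = 0 := by simp [MSp, conf]
  have h1 : MSp (conf n 1) = 1 := by
    have : {m : Var n →₀ ℕ | ∃ f ∈ conf n 1, m ∈ f.support} = {Finsupp.single none 1} := by
      ext m
      simp [conf, coeff_X', eq_comm]
    rw [MSp, this, Set.ncard_singleton]
  have h2 : MSp (conf n 2) = 1 := by
    have : {m : Var n →₀ ℕ | ∃ f ∈ conf n 2, m ∈ f.support} = {0} := by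
      ext m
      simp [conf, coeff_one, eq_comm]
    rw [MSp, this, Set.ncard_singleton]
  simp [space, range_add_one, h0, h1, h2]

theorem unsat : Unsatisfiable ({ax1 n ((n : ℚ) + 1), ax2 n} : Set (MvPolynomial (Var n) ℚ)) := by
  rintro ⟨a, ha, hP⟩
  have h1 := hP _ (Or.inl rfl)
  have h2 := hP _ (Or.inr rfl)
  simp only [ax1, ax2, map_sub, map_one, eval_X, map_sum, map_mul, eval_C, map_add, map_natCast]
    at h1 h2
  have h3 : ∑ i : Fin n, a (some i) ≤ ∑ _i : Fin n, (1 : ℚ) := sum_le_sum fun i _ => by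
    rcases ha (some i) with h | h <;> rw [h] <;> norm_num
  simp only [sum_const, card_univ, Fintype.card_fin, nsmul_eq_mul, mul_one] at h3
  have h4 : a none = 1 := by linarith
  rw [h4] at h1
  linarith

theorem sat1 : ¬ Unsatisfiable ({ax1 n ((n : ℚ) + 1)} : Set (MvPolynomial (Var n) ℚ)) := by
  intro h
  refine h ⟨fun _ => 0, fun _ => Or.inl rfl, fun p hp => ?_⟩
  rw [Set.mem_singleton_iff] at hp
  rw [hp]
  simp [ax1]

theorem sat2 : ¬ Unsatisfiable ({ax2 n} : Set (MvPolynomial (Var n) ℚ)) := by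
  intro h
  refine h ⟨fun _ => 1, fun _ => Or.inr rfl, fun p hp => ?_⟩
  rw [Set.mem_singleton_iff] at hp
  rw [hp]
  simp [ax2]

theorem refutable : ∃ k, RefutableInDegree
    ({ax1 n ((n : ℚ) + 1), ax2 n} : Set (MvPolynomial (Var n) ℚ)) k := by
  refine refutable_of_mem (Or.inl rfl) ?_
  obtain ⟨J, hJ⟩ : ∃ J : Ideal (MvPolynomial (Var n) ℚ), J = Ideal.span
    (({ax1 n ((n : ℚ) + 1), ax2 n} : Set (MvPolynomial (Var n) ℚ)) ∪
      Set.range fun x : Var n => X x ^ 2 - X x) := ⟨_, rfl⟩
  rw [← hJ]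
  have h1 : boolIdeal (Var n) ℚ ≤ J := by
    rw [hJ]
    exact Ideal.span_mono Set.subset_union_right
  have h2 : Ideal.span {ax1 n ((n : ℚ) + 1)} ≤ J := by
    rw [hJ, Ideal.span_singleton_le_iff_mem]
    exact Ideal.subset_span (Or.inl (Or.inl rfl))
  have h3 : ax2 n ∈ J := by
    rw [hJ]
    exact Ideal.subset_span (Or.inl (Or.inr rfl))
  have h4 := sup_le h1 h2 (sem1 (n := n))
  have h5 : (1 : MvPolynomial (Var n) ℚ) = X none + ax2 n := by rw [ax2]; ring
  rw [h5]
  exact Ideal.add_mem _ h4 h3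

theorem deg_ax1 (r : ℚ) : (ax1 n r).totalDegree ≤ 1 := by
  rw [ax1]
  refine (totalDegree_sub _ _).trans (max_le ?_ ?_)
  · refine totalDegree_finsetSum_le fun i _ => ?_
    rw [totalDegree_X]
  · refine (totalDegree_mul _ _).trans ?_
    rw [totalDegree_C, totalDegree_X]

theorem deg_ax2 : (ax2 n).totalDegree = 1 := by
  apply le_antisymm
  · rw [ax2]
    refine (totalDegree_sub _ _).trans (max_le ?_ ?_)
    · rw [totalDegree_one]; omega
    · rw [totalDegree_X]
  · have h1 : Finsupp.single none 1 ∈ (ax2 n).support := by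
      rw [mem_support_iff, ax2, coeff_sub, coeff_X, coeff_one, if_neg]
      · norm_num
      · intro h
        have := DFunLike.congr_fun h none
        simp at this
    have h2 := le_totalDegree h1
    simpa using h2

theorem greatest : IsGreatest (totalDegree '' ({ax1 n ((n : ℚ) + 1), ax2 n} :
    Set (MvPolynomial (Var n) ℚ))) 1 := by
  refine ⟨⟨ax2 n, Or.inr rfl, deg_ax2⟩, ?_⟩
  rintro k ⟨p, hp | hp, rfl⟩
  · rw [hp]; exact deg_ax1 _
  · rw [Set.mem_singleton_iff] at hp
    rw [hp, deg_ax2]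

end Pool.Agent.H986R3.MS
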