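import Pool.Agent.H986R3.SOADefs

set_option autoImplicit false

namespace Pool.Agent.H986R3.SOA

open Function

theorem Tm.val_congr (M : Model) (t : Tm) : ∀ (v v' : ℕ → M.Num), (∀ i ∈ t.fv, v i = v' i) →
    t.val M v = t.val M v' := by
  induction t with
  | var i => intro v v' h; exact h i (by simp [Tm.fv])
  | zero => intro v v' h; rfl
  | one => intro v v' h; rfl
  | add s t hs ht =>
    intro v v' h
    simp only [Tm.val]
    rw [hs v v' (fun i hi => h i (Or.inl hi)), ht v v' (fun i hi => h i (Or.inr hi))]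
  | mul s t hs ht =>
    intro v v' h
    simp only [Tm.val]
    rw [hs v v' (fun i hi => h i (Or.inl hi)), ht v v' (fun i hi => h i (Or.inr hi))]

theorem Sat_congr (M : Model) (φ : Fm) : ∀ (v v' : ℕ → M.Num) (V V' : ℕ → Set M.Num),
    (∀ i ∈ φ.fvN, v i = v' i) → (∀ i ∈ φ.fvS, V i = V' i) → (Sat M v V φ ↔ Sat M v' V' φ) := by
  induction φ with
  | eq s t =>
    intro v v' V V' h _
    simp only [Sat]
    rw [Tm.val_congr M s v v' (fun i hi => h i (Or.inl hi)),
      Tm.val_congr M t v v' (fun i hi => h i (Or.inr hi))]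
  | lt s t =>
    intro v v' V V' h _
    simp only [Sat]
    rw [Tm.val_congr M s v v' (fun i hi => h i (Or.inl hi)),
      Tm.val_congr M t v v' (fun i hi => h i (Or.inr hi))]
  | mem t i =>
    intro v v' V V' h h'
    simp only [Sat]
    rw [Tm.val_congr M t v v' (fun i hi => h i hi), h' i rfl]
  | neg φ ih =>
    intro v v' V V' h h'
    simp only [Sat]
    rw [ih v v' V V' h h']
  | and φ ψ ih1 ih2 =>
    intro v v' V V' h h'
    simp only [Sat]
    rw [ih1 v v' V V' (fun i hi => h i (Or.inl hi)) (fun i hi => h' i (Or.inl hi)),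
      ih2 v v' V V' (fun i hi => h i (Or.inr hi)) (fun i hi => h' i (Or.inr hi))]
  | all i φ ih =>
    intro v v' V V' h h'
    simp only [Sat]
    refine forall_congr' fun a => ih _ _ _ _ (fun j hj => ?_) h'
    by_cases hji : j = i
    · subst hji; simp
    · rw [update_of_ne hji, update_of_ne hji]
      exact h j ⟨hj, hji⟩
  | allS i φ ih =>
    intro v v' V V' h h'
    simp only [Sat]
    refine forall_congr' fun A => forall_congr' fun _ => ih _ _ _ _ h (fun j hj => ?_)
    by_cases hji : j = i
    · subst hji; simp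
    · rw [update_of_ne hji, update_of_ne hji]
      exact h' j ⟨hj, hji⟩

section sat
variable (M : Model) (v : ℕ → M.Num) (V : ℕ → Set M.Num)

@[simp] theorem Sat_imp (φ ψ : Fm) : Sat M v V (φ.imp ψ) ↔ (Sat M v V φ → Sat M v V ψ) := by
  simp only [Fm.imp, Sat]; tauto

@[simp] theorem Sat_iff (φ ψ : Fm) : Sat M v V (φ.iff ψ) ↔ (Sat M v V φ ↔ Sat M v V ψ) := by
  simp only [Fm.iff, Sat, Sat_imp]; tauto

@[simp] theorem Sat_or (φ ψ : Fm) : Sat M v V (φ.or ψ) ↔ (Sat M v V φ ∨ Sat M v V ψ) := by
  simp only [Fm.or, Sat]; tauto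

@[simp] theorem Sat_ex (i : ℕ) (φ : Fm) :
    Sat M v V (φ.ex i) ↔ ∃ a, Sat M (update v i a) V φ := by
  simp only [Fm.ex, Sat]; push Not; rfl

@[simp] theorem Sat_exS (i : ℕ) (φ : Fm) :
    Sat M v V (φ.exS i) ↔ ∃ A ∈ M.sets, Sat M v (update V i A) φ := by
  simp only [Fm.exS, Sat]; push Not; rfl

end sat

/-- The value of the numeral of `n` in `M`. -/
def Model.num (M : Model) : ℕ → M.Num
  | 0 => M.zero
  | n + 1 => M.add (M.num n) M.one

@[simp] theorem val_numeral (M : Model) (v : ℕ → M.Num) (n : ℕ) :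
    (numeral n).val M v = M.num n := by
  induction n with
  | zero => rfl
  | succ n ih => simp only [numeral, Tm.val, Model.num, ih]

/-- The pairing function in `M`. -/
def Model.pr (M : Model) (a b : M.Num) : M.Num := M.add (M.mul (M.add a b) (M.add a b)) a

/-- The pairing function as a term. -/
def prT (s t : Tm) : Tm := .add (.mul (.add s t) (.add s t)) s

@[simp] theorem val_prT (M : Model) (v : ℕ → M.Num) (s t : Tm) :
    (prT s t).val M v = M.pr (s.val M v) (t.val M v) := rfl

/-- The numerical part of the axioms of `ACA_0` which is needed for computations. -/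
structure Arith (M : Model) : Prop where
  add_zero : ∀ m, M.add m M.zero = m
  add_succ : ∀ m n, M.add m (M.add n M.one) = M.add (M.add m n) M.one
  mul_zero : ∀ m, M.mul m M.zero = M.zero
  mul_succ : ∀ m n, M.mul m (M.add n M.one) = M.add (M.mul m n) m

theorem Model.exists_setAsg (M : Model) : ∃ V : ℕ → Set M.Num, ∀ j, V j ∈ M.sets :=
  ⟨fun _ => M.sets_nonempty.some, fun _ => M.sets_nonempty.some_mem⟩

theorem arith_of_aca (M : Model) (h : ∀ ψ, ACA0 ψ → M.Holds ψ) : Arith M := by
  obtain ⟨V, hV⟩ := M.exists_setAsg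
  refine ⟨fun m => ?_, fun m n => ?_, fun m => ?_, fun m n => ?_⟩
  · have := h _ ACA0.add_zero (fun _ => m) V hV
    simpa [Sat, Tm.val] using this
  · have := h _ ACA0.add_succ (fun i => if i = 0 then m else n) V hV
    simpa [Sat, Tm.val] using this
  · have := h _ ACA0.mul_zero (fun _ => m) V hV
    simpa [Sat, Tm.val] using this
  · have := h _ ACA0.mul_succ (fun i => if i = 0 then m else n) V hV
    simpa [Sat, Tm.val] using this

theorem num_add {M : Model} (h : Arith M) (m n : ℕ) :
    M.num (m + n) = M.add (M.num m) (M.num n) := by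
  induction n with
  | zero => exact (h.add_zero _).symm
  | succ n ih =>
    rw [← Nat.add_assoc]
    show M.add (M.num (m + n)) M.one = M.add (M.num m) (M.add (M.num n) M.one)
    rw [h.add_succ, ih]

theorem num_mul {M : Model} (h : Arith M) (m n : ℕ) :
    M.num (m * n) = M.mul (M.num m) (M.num n) := by
  induction n with
  | zero => exact (h.mul_zero _).symm
  | succ n ih =>
    rw [Nat.mul_succ, num_add h]
    show _ = M.mul (M.num m) (M.add (M.num n) M.one)
    rw [h.mul_succ, ih]

theorem num_pr {M : Model} (h : Arith M) (a b : ℕ) :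
    M.num (pr a b) = M.pr (M.num a) (M.num b) := by
  simp only [pr, Model.pr, num_add h, num_mul h]

theorem std_num (n : ℕ) : @Eq ℕ (std.num n) n := by
  induction n with
  | zero => rfl
  | succ n ih => exact congrArg (· + 1) ih

/-- A strict upper bound for the variables of a term. -/
def Tm.bd : Tm → ℕ
  | .var i => i + 1
  | .zero => 0
  | .one => 0
  | .add s t => max s.bd t.bd
  | .mul s t => max s.bd t.bd

/-- A strict upper bound for the number variables (free or bound) of a formula. -/
def Fm.bd : Fm → ℕ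
  | .eq s t => max s.bd t.bd
  | .lt s t => max s.bd t.bd
  | .mem t _ => t.bd
  | .neg φ => φ.bd
  | .and φ ψ => max φ.bd ψ.bd
  | .all i φ => max (i + 1) φ.bd
  | .allS _ φ => φ.bd

/-- The formula `θ` with the set variable `i` replaced by its section `{n : (b + 1, n) ∈ X_i}`. -/
def Fm.sec (b i : ℕ) : Fm → Fm
  | .eq s t => .eq s t
  | .lt s t => .lt s t
  | .mem t j => if j = i then .mem (prT (.add (.var b) .one) t) i else .mem t j
  | .neg φ => .neg (φ.sec b i)
  | .and φ ψ => .and (φ.sec b i) (ψ.sec b i)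
  | .all j φ => .all j (φ.sec b i)
  | .allS j φ => .allS j φ

theorem Fm.sec_arith (b i : ℕ) : ∀ θ : Fm, θ.Arithmetical → (θ.sec b i).Arithmetical
  | .eq _ _, _ => trivial
  | .lt _ _, _ => trivial
  | .mem t j, _ => by
      simp only [Fm.sec]
      split_ifs <;> trivial
  | .neg φ, h => Fm.sec_arith b i φ h
  | .and φ ψ, h => ⟨Fm.sec_arith b i φ h.1, Fm.sec_arith b i ψ h.2⟩
  | .all _ φ, h => Fm.sec_arith b i φ h
  | .allS _ _, h => h.elim

theorem Tm.fv_prT (s t : Tm) : (prT s t).fv = s.fv ∪ t.fv := by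
  simp only [prT, Tm.fv]
  ext x; simp only [Set.mem_union]; tauto

theorem Fm.sec_fvN (b i : ℕ) : ∀ θ : Fm, θ.Arithmetical → (θ.sec b i).fvN ⊆ θ.fvN ∪ {b}
  | .eq _ _, _ => Set.subset_union_left
  | .lt _ _, _ => Set.subset_union_left
  | .mem t j, _ => by
      simp only [Fm.sec]
      split_ifs
      · intro x hx
        simp only [Fm.fvN, Tm.fv_prT, Tm.fv, Set.mem_union, Set.mem_singleton_iff] at hx ⊢
        simp at hx
        tauto
      · exact Set.subset_union_left
  | .neg φ, h => Fm.sec_fvN b i φ h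
  | .and φ ψ, h => by
      intro x hx
      rcases hx with hx | hx
      · rcases Fm.sec_fvN b i φ h.1 hx with h1 | h1
        · exact Or.inl (Or.inl h1)
        · exact Or.inr h1
      · rcases Fm.sec_fvN b i ψ h.2 hx with h1 | h1
        · exact Or.inl (Or.inr h1)
        · exact Or.inr h1
  | .all _ φ, h => by
      intro x hx
      rcases Fm.sec_fvN b i φ h hx.1 with h1 | h1
      · exact Or.inl ⟨h1, hx.2⟩
      · exact Or.inr h1
  | .allS _ _, h => h.elim

theorem Fm.sec_fvS (b i : ℕ) : ∀ θ : Fm, θ.Arithmetical → (θ.sec b i).fvS ⊆ θ.fvS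
  | .eq _ _, _ => subset_rfl
  | .lt _ _, _ => subset_rfl
  | .mem t j, _ => by
      simp only [Fm.sec]
      split_ifs with h
      · rw [h]; exact subset_rfl
      · exact subset_rfl
  | .neg φ, h => Fm.sec_fvS b i φ h
  | .and φ ψ, h => by
      intro x hx
      rcases hx with hx | hx
      · exact Or.inl (Fm.sec_fvS b i φ h.1 hx)
      · exact Or.inr (Fm.sec_fvS b i ψ h.2 hx)
  | .all _ φ, h => Fm.sec_fvS b i φ h
  | .allS _ _, h => h.elim

theorem Sat_sec (M : Model) (b i : ℕ) : ∀ θ : Fm, θ.Arithmetical → θ.bd ≤ b →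
    ∀ (v : ℕ → M.Num) (V : ℕ → Set M.Num), Sat M v V (θ.sec b i) ↔
      Sat M v (update V i {n | M.pr (M.add (v b) M.one) n ∈ V i}) θ
  | .eq _ _, _, _, _, _ => Iff.rfl
  | .lt _ _, _, _, _, _ => Iff.rfl
  | .mem t j, _, _, v, V => by
      simp only [Fm.sec]
      split_ifs with h
      · subst h
        simp only [Sat, update_self, val_prT, Tm.val, Set.mem_ofPred_eq]
      · simp only [Sat, update_of_ne h]
  | .neg φ, h, hb, v, V => by
      simp only [Fm.sec, Sat]
      rw [Sat_sec M b i φ h hb v V]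
  | .and φ ψ, h, hb, v, V => by
      simp only [Fm.sec, Sat]
      simp only [Fm.bd] at hb
      rw [Sat_sec M b i φ h.1 (le_trans (le_max_left _ _) hb) v V,
        Sat_sec M b i ψ h.2 (le_trans (le_max_right _ _) hb) v V]
  | .all j φ, h, hb, v, V => by
      simp only [Fm.sec, Sat]
      simp only [Fm.bd] at hb
      have hj : b ≠ j := by
        have := le_trans (le_max_left _ _) hb
        omega
      refine forall_congr' fun a => ?_
      rw [Sat_sec M b i φ h (le_trans (le_max_right _ _) hb) (update v j a) V, update_of_ne hj]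
  | .allS _ _, h, _, _, _ => h.elim

end Pool.Agent.H986R3.SOA
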