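import Mathlib

/-!
Second-order arithmetic: the language `L_2`, its two-sorted (Henkin) structures, satisfaction,
provability (truth in all structures satisfying the axioms, which by the completeness theorem is
the same as derivability), the system `ACA_0`, a Goedel numbering, the classes `Pi^1_1` and
`Sigma^1_1`, proof predicates, truth predicates and the `Pi^1_1` reflection sentence.
-/

set_option autoImplicit false

namespace Pool.Agent.H986R3.SOA

/-- Number terms of `L_2`: number variables, `0`, `1`, `+`, `*`. -/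
inductive Tm : Type
  | var : ℕ → Tm
  | zero : Tm
  | one : Tm
  | add : Tm → Tm → Tm
  | mul : Tm → Tm → Tm

/-- Formulas of `L_2`. `mem t i` says that `t` belongs to the set variable with index `i`,
`all i` quantifies the number variable `i`, and `allS i` the set variable `i`. -/
inductive Fm : Type
  | eq : Tm → Tm → Fm
  | lt : Tm → Tm → Fm
  | mem : Tm → ℕ → Fm
  | neg : Fm → Fm
  | and : Fm → Fm → Fm
  | all : ℕ → Fm → Fm
  | allS : ℕ → Fm → Fm

namespace Fm

/-- Implication. -/
def imp (φ ψ : Fm) : Fm := .neg (.and φ (.neg ψ))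

/-- Equivalence. -/
def iff (φ ψ : Fm) : Fm := .and (φ.imp ψ) (ψ.imp φ)

/-- Disjunction. -/
def or (φ ψ : Fm) : Fm := .neg (.and (.neg φ) (.neg ψ))

/-- Existential number quantifier. -/
def ex (i : ℕ) (φ : Fm) : Fm := .neg (.all i (.neg φ))

/-- Existential set quantifier. -/
def exS (i : ℕ) (φ : Fm) : Fm := .neg (.allS i (.neg φ))

end Fm

/-- Free variables of a term. -/
def Tm.fv : Tm → Set ℕ
  | .var i => {i}
  | .zero => ∅
  | .one => ∅
  | .add s t => s.fv ∪ t.fv
  | .mul s t => s.fv ∪ t.fv

/-- Free number variables of a formula. -/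
def Fm.fvN : Fm → Set ℕ
  | .eq s t => s.fv ∪ t.fv
  | .lt s t => s.fv ∪ t.fv
  | .mem t _ => t.fv
  | .neg φ => φ.fvN
  | .and φ ψ => φ.fvN ∪ ψ.fvN
  | .all i φ => φ.fvN \ {i}
  | .allS _ φ => φ.fvN

/-- Free set variables of a formula. -/
def Fm.fvS : Fm → Set ℕ
  | .eq _ _ => ∅
  | .lt _ _ => ∅
  | .mem _ i => {i}
  | .neg φ => φ.fvS
  | .and φ ψ => φ.fvS ∪ ψ.fvS
  | .all _ φ => φ.fvS
  | .allS i φ => φ.fvS \ {i}

/-- A sentence is a formula without free variables. -/
def Fm.IsSentence (φ : Fm) : Prop := φ.fvN = ∅ ∧ φ.fvS = ∅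

/-- Arithmetical formulas: no set quantifiers (set variables may occur). -/
def Fm.Arithmetical : Fm → Prop
  | .eq _ _ => True
  | .lt _ _ => True
  | .mem _ _ => True
  | .neg φ => φ.Arithmetical
  | .and φ ψ => φ.Arithmetical ∧ ψ.Arithmetical
  | .all _ φ => φ.Arithmetical
  | .allS _ _ => False

/-- `Pi^1_1` formulas: `∀ X θ` with `θ` arithmetical. -/
def Fm.IsPi11 (φ : Fm) : Prop := ∃ i θ, φ = .allS i θ ∧ θ.Arithmetical

/-- `Sigma^1_1` formulas: `∃ X θ` with `θ` arithmetical. -/
def Fm.IsSigma11 (φ : Fm) : Prop := ∃ i θ, φ = .exS i θ ∧ θ.Arithmetical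

/-- A two-sorted structure for `L_2`: a number domain with `0, 1, +, *, <` and a nonempty family
of subsets of the number domain over which the set variables range. -/
structure Model where
  Num : Type
  zero : Num
  one : Num
  add : Num → Num → Num
  mul : Num → Num → Num
  lt : Num → Num → Prop
  sets : Set (Set Num)
  sets_nonempty : sets.Nonempty

/-- Value of a term under an assignment of the number variables. -/
def Tm.val (M : Model) (v : ℕ → M.Num) : Tm → M.Num
  | .var i => v i
  | .zero => M.zero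
  | .one => M.one
  | .add s t => M.add (s.val M v) (t.val M v)
  | .mul s t => M.mul (s.val M v) (t.val M v)

/-- Satisfaction; `v` assigns the number variables and `V` the set variables. -/
def Sat (M : Model) : (ℕ → M.Num) → (ℕ → Set M.Num) → Fm → Prop
  | v, _, .eq s t => s.val M v = t.val M v
  | v, _, .lt s t => M.lt (s.val M v) (t.val M v)
  | v, V, .mem t i => t.val M v ∈ V i
  | v, V, .neg φ => ¬ Sat M v V φ
  | v, V, .and φ ψ => Sat M v V φ ∧ Sat M v V ψ
  | v, V, .all i φ => ∀ a : M.Num, Sat M (Function.update v i a) V φ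
  | v, V, .allS i φ => ∀ A ∈ M.sets, Sat M v (Function.update V i A) φ

/-- `φ` is true in `M` (free variables are understood as universally quantified). -/
def Model.Holds (M : Model) (φ : Fm) : Prop :=
  ∀ (v : ℕ → M.Num) (V : ℕ → Set M.Num), (∀ j, V j ∈ M.sets) → Sat M v V φ

/-- `T` proves `φ`: by the completeness theorem, `φ` is derivable from the axioms `T` if and only
if it holds in all structures in which all members of `T` hold. -/
def Proves (T : Set Fm) (φ : Fm) : Prop :=
  ∀ M : Model, (∀ ψ ∈ T, M.Holds ψ) → M.Holds φ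

/-- The standard model: the natural numbers with all sets of natural numbers. -/
def std : Model where
  Num := ℕ
  zero := 0
  one := 1
  add := (· + ·)
  mul := (· * ·)
  lt := (· < ·)
  sets := Set.univ
  sets_nonempty := ⟨∅, trivial⟩

/-- The axioms of `ACA_0` (Simpson), free variables being universally quantified: the basic
axioms, the induction axiom and arithmetical comprehension. -/
inductive ACA0 : Fm → Prop
  | succ_ne_zero : ACA0 (.neg (.eq (.add (.var 0) .one) .zero))
  | succ_inj : ACA0 (.imp (.eq (.add (.var 0) .one) (.add (.var 1) .one)) (.eq (.var 0) (.var 1)))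
  | add_zero : ACA0 (.eq (.add (.var 0) .zero) (.var 0))
  | add_succ : ACA0 (.eq (.add (.var 0) (.add (.var 1) .one)) (.add (.add (.var 0) (.var 1)) .one))
  | mul_zero : ACA0 (.eq (.mul (.var 0) .zero) .zero)
  | mul_succ : ACA0 (.eq (.mul (.var 0) (.add (.var 1) .one)) (.add (.mul (.var 0) (.var 1)) (.var 0)))
  | not_lt_zero : ACA0 (.neg (.lt (.var 0) .zero))
  | lt_succ : ACA0 (.iff (.lt (.var 0) (.add (.var 1) .one))
      (.or (.lt (.var 0) (.var 1)) (.eq (.var 0) (.var 1))))
  | induction : ACA0 (.imp (.and (.mem .zero 0)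
      (.all 0 (.imp (.mem (.var 0) 0) (.mem (.add (.var 0) .one) 0)))) (.all 0 (.mem (.var 0) 0)))
  | comprehension (φ : Fm) (i j : ℕ) : φ.Arithmetical → j ∉ φ.fvS →
      ACA0 (.exS j (.all i (.iff (.mem (.var i) j) φ)))

/-- The numeral of `n`. -/
def numeral : ℕ → Tm
  | 0 => .zero
  | n + 1 => .add (numeral n) .one

/-- The pairing function used for the Goedel numbering. -/
def pr (a b : ℕ) : ℕ := (a + b) * (a + b) + a

/-- Goedel numbers of terms. -/
def Tm.code : Tm → ℕ
  | .var i => pr 0 i
  | .zero => pr 1 0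
  | .one => pr 2 0
  | .add s t => pr 3 (pr s.code t.code)
  | .mul s t => pr 4 (pr s.code t.code)

/-- Goedel numbers of formulas. -/
def Fm.code : Fm → ℕ
  | .eq s t => pr 0 (pr s.code t.code)
  | .lt s t => pr 1 (pr s.code t.code)
  | .mem t i => pr 2 (pr t.code i)
  | .neg φ => pr 3 φ.code
  | .and φ ψ => pr 4 (pr φ.code ψ.code)
  | .all i φ => pr 5 (pr i φ.code)
  | .allS i φ => pr 6 (pr i φ.code)

/-- The assignment giving the values `a, p, x` to the number variables `0, 1` and `2, 3, ...`. -/
def asg {A : Type} (a p x : A) : ℕ → A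
  | 0 => a
  | 1 => p
  | _ => x

/-- `φ` is true in the standard model when the number variables `0, 1` and `2, 3, ...` have the
values `a, p, x` (for formulas without free set variables). -/
def SatN (a p x : ℕ) (φ : Fm) : Prop := Sat std (asg (A := ℕ) a p x) (fun _ => (∅ : Set ℕ)) φ

/-- The formula `φ` has at most the number variables in `s` free, and no free set variables. -/
def Fm.FreeIn (φ : Fm) (s : Set ℕ) : Prop := φ.fvN ⊆ s ∧ φ.fvS = ∅

/-- For `φ` with free number variable `2`: the sentence `φ(n)`, that is `∀ x (x = n → φ(x))`. -/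
def Fm.inst (φ : Fm) (n : ℕ) : Fm := .all 2 (.imp (.eq (.var 2) (numeral n)) φ)

/-- `Pi^1_1` sentences. -/
def Fm.IsPi11Sentence (φ : Fm) : Prop := φ.IsPi11 ∧ φ.IsSentence

/-- An arithmetization of the metamathematics of `L_2`.
* `prf` and `axIn` are arithmetical formulas; `prf(p, x)` (with `p` the number variable `1` and
  `x` the number variable `2`) says that `p` is a proof of `x`, and `axIn(a, p)` (with `a` the
  number variable `0`) that the non-logical axiom `a` is used in `p`. The only requirement is that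
  in the standard model they define a sound and complete notion of proof: a sentence is provable
  from a set `T` of sentences iff it has a proof all of whose non-logical axioms are in `T`.
* `isPi(x)` is an arithmetical formula that says that `x` is the Goedel number of a `Pi^1_1`
  sentence: it defines this set in the standard model, and `ACA_0` proves `isPi(n)` if `n` is the
  Goedel number of a `Pi^1_1` sentence.
* `tr(x)` is a partial truth predicate for `Pi^1_1` sentences: a `Pi^1_1` formula for which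
  `ACA_0` proves `tr(φ) ↔ φ` for each `Pi^1_1` sentence `φ`. -/
structure Arithmetization where
  prf : Fm
  axIn : Fm
  isPi : Fm
  tr : Fm
  prf_arith : prf.Arithmetical
  prf_free : prf.FreeIn {1, 2}
  axIn_arith : axIn.Arithmetical
  axIn_free : axIn.FreeIn {0, 1}
  prf_correct : ∀ (T : Set Fm), (∀ ψ ∈ T, ψ.IsSentence) → ∀ φ : Fm, φ.IsSentence →
    (Proves T φ ↔ ∃ p : ℕ, SatN 0 p φ.code prf ∧ ∀ a : ℕ, SatN a p 0 axIn → ∃ ψ ∈ T, ψ.code = a)
  isPi_arith : isPi.Arithmetical
  isPi_free : isPi.FreeIn {2}
  isPi_std : ∀ n : ℕ, SatN 0 0 n isPi ↔ ∃ φ : Fm, φ.IsPi11Sentence ∧ φ.code = n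
  isPi_proves : ∀ φ : Fm, φ.IsPi11Sentence → Proves {ψ | ACA0 ψ} (isPi.inst φ.code)
  tr_pi : tr.IsPi11
  tr_free : tr.FreeIn {2}
  tr_proves : ∀ φ : Fm, φ.IsPi11Sentence → Proves {ψ | ACA0 ψ} (.iff (tr.inst φ.code) φ)

/-- The provability predicate `Pr_τ(x)` (with `x` the number variable `2`) built from `τ(a)`
(with `a` the number variable `0`): there is a proof of `x` all of whose axioms satisfy `τ`. -/
def Arithmetization.Pr (𝒜 : Arithmetization) (τ : Fm) : Fm :=
  .ex 1 (.and 𝒜.prf (.all 0 (.imp 𝒜.axIn τ)))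

/-- The sentence `∀ φ ∈ Pi^1_1 (Pr_τ(φ) → True(φ))`. -/
def Arithmetization.reflection (𝒜 : Arithmetization) (τ : Fm) : Fm :=
  .all 2 (.imp (.and 𝒜.isPi (𝒜.Pr τ)) 𝒜.tr)

/-- The `Sigma^1_1` formula `τ(a)` defines (the set of Goedel numbers of the members of) `T` in the
standard model. -/
def Sigma11Defines (τ : Fm) (T : Set Fm) : Prop :=
  τ.IsSigma11 ∧ τ.FreeIn {0} ∧
    ∀ n : ℕ, SatN n 0 0 τ ↔ ∃ φ ∈ T, φ.code = n

/-- `T` is `Pi^1_1`-sound: each `Pi^1_1` sentence provable in `T` is true in the standard model. -/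
def Pi11Sound (T : Set Fm) : Prop := ∀ φ : Fm, φ.IsPi11Sentence → Proves T φ → std.Holds φ

/-- `T` is a set of sentences that proves all axioms of `ACA_0`. -/
def ExtendsACA0 (T : Set Fm) : Prop := (∀ φ ∈ T, φ.IsSentence) ∧ ∀ φ, ACA0 φ → Proves T φ

/-- `T` proves its own `Pi^1_1`-soundness, for some `Sigma^1_1` definition `τ` of `T`. -/
def ProvesOwnSoundness (𝒜 : Arithmetization) (T : Set Fm) : Prop :=
  ∃ τ : Fm, Sigma11Defines τ T ∧ Proves T (𝒜.reflection τ)

end Pool.Agent.H986R3.SOA
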