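import Pool.Agent.H986R3.SOAMain

set_option autoImplicit false

namespace Pool.Agent.H986R3.SOA

open Function

theorem pr_inj {a b c d : ℕ} (h : pr a b = pr c d) : a = c ∧ b = d := by
  unfold pr at h
  have h1 : a + b = c + d := by
    rcases lt_trichotomy (a + b) (c + d) with hlt | heq | hgt
    · exfalso
      have : (a + b + 1) * (a + b + 1) ≤ (c + d) * (c + d) := Nat.mul_le_mul hlt hlt
      nlinarith
    · exact heq
    · exfalso
      have : (c + d + 1) * (c + d + 1) ≤ (a + b) * (a + b) := Nat.mul_le_mul hgt hgt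
      nlinarith
  rw [h1] at h
  omega

/-- Goedel numbers of terms determine the terms. -/
theorem Tm.code_inj : ∀ s t : Tm, s.code = t.code → s = t := by
  intro s
  induction s with
  | var i => intro t h; cases t <;> simp only [Tm.code] at h <;> have h' := pr_inj h <;> simp_all
  | zero =>
    intro t h
    cases t with
    | zero => rfl
    | _ => simp only [Tm.code] at h; have h' := pr_inj h; simp_all
  | one =>
    intro t h
    cases t with
    | one => rfl
    | _ => simp only [Tm.code] at h; have h' := pr_inj h; simp_all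
  | add s1 s2 ih1 ih2 =>
    intro t h
    cases t with
    | add t1 t2 =>
      have h2 := pr_inj (pr_inj h).2
      rw [ih1 _ h2.1, ih2 _ h2.2]
    | _ => simp only [Tm.code] at h; have h' := pr_inj h; simp_all
  | mul s1 s2 ih1 ih2 =>
    intro t h
    cases t with
    | mul t1 t2 =>
      have h2 := pr_inj (pr_inj h).2
      rw [ih1 _ h2.1, ih2 _ h2.2]
    | _ => simp only [Tm.code] at h; have h' := pr_inj h; simp_all

/-- Goedel numbers of formulas determine the formulas. -/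
theorem Fm.code_inj : ∀ φ ψ : Fm, φ.code = ψ.code → φ = ψ := by
  intro φ
  induction φ with
  | eq s1 s2 =>
    intro ψ h
    cases ψ with
    | eq t1 t2 =>
      have h2 := pr_inj (pr_inj h).2
      rw [Tm.code_inj _ _ h2.1, Tm.code_inj _ _ h2.2]
    | _ => simp only [Fm.code] at h; have h' := pr_inj h; simp_all
  | lt s1 s2 =>
    intro ψ h
    cases ψ with
    | lt t1 t2 =>
      have h2 := pr_inj (pr_inj h).2
      rw [Tm.code_inj _ _ h2.1, Tm.code_inj _ _ h2.2]
    | _ => simp only [Fm.code] at h; have h' := pr_inj h; simp_all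
  | mem s1 i =>
    intro ψ h
    cases ψ with
    | mem t1 t2 =>
      have h2 := pr_inj (pr_inj h).2
      rw [Tm.code_inj _ _ h2.1, h2.2]
    | _ => simp only [Fm.code] at h; have h' := pr_inj h; simp_all
  | neg φ ih =>
    intro ψ h
    cases ψ with
    | neg ψ => rw [ih _ (pr_inj h).2]
    | _ => simp only [Fm.code] at h; have h' := pr_inj h; simp_all
  | and φ1 φ2 ih1 ih2 =>
    intro ψ h
    cases ψ with
    | and t1 t2 =>
      have h2 := pr_inj (pr_inj h).2
      rw [ih1 _ h2.1, ih2 _ h2.2]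
    | _ => simp only [Fm.code] at h; have h' := pr_inj h; simp_all
  | all i φ ih =>
    intro ψ h
    cases ψ with
    | all j ψ =>
      have h2 := pr_inj (pr_inj h).2
      rw [ih _ h2.2, h2.1]
    | _ => simp only [Fm.code] at h; have h' := pr_inj h; simp_all
  | allS i φ ih =>
    intro ψ h
    cases ψ with
    | allS j ψ =>
      have h2 := pr_inj (pr_inj h).2
      rw [ih _ h2.2, h2.1]
    | _ => simp only [Fm.code] at h; have h' := pr_inj h; simp_all

theorem arith_std : Arith std :=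
  ⟨fun m => Nat.add_zero m, fun m n => (Nat.add_assoc m n 1).symm, fun m => Nat.mul_zero m,
    fun m n => Nat.mul_succ m n⟩

theorem gamma_false (M : Model) {𝒜 : Arithmetization} {b i : ℕ} {θ : Fm} (hθ : θ.Arithmetical)
    (hf : θ.fvN ⊆ {0}) (hf' : θ.fvS ⊆ {i}) (hb : θ.bd ≤ b) (hb0 : b ≠ 0)
    (W : Set M.Num) (hW : W ∈ M.sets) (hrec : M.Rec W) (y x2 p : M.Num)
    (hy : M.pr M.zero (M.pr (M.num (HH 𝒜 b i θ).code) y) ∈ W)
    (hx2 : x2 = M.gam i y (M.num (HH 𝒜 b i θ).code))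
    (hp : Sat M (asg M.zero p x2) (fun _ => ∅) 𝒜.prf)
    (hax : ∀ a, Sat M (asg a p M.zero) (fun _ => ∅) 𝒜.axIn →
        Sat M (asg a M.zero M.zero) (update (fun _ => ∅) i {n | M.pr (M.add a M.one) n ∈ W}) θ) :
    ¬ M.Holds (gamma 𝒜 b i θ) := by
  intro h
  have h1 := (Sat_gamma M (fun _ => M.zero) (fun _ => W)).mp (h _ _ (fun _ => hW)) W hW x2
  refine h1 ?_ ?_
  · rw [Sat_dg, update_self, update_of_ne (by norm_num : (3 : ℕ) ≠ 2), update_self, update_self]
    exact ⟨hrec, y, hy, hx2⟩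
  · rw [Sat_prs M hθ hf hf' hb _ _ hb0, update_self, update_self]
    exact ⟨p, hp, hax⟩

theorem std_Rec_iff (W : Set ℕ) : std.Rec W ↔
    (∀ y : ℕ, pr 0 (pr 0 y) ∈ W → y = (numeral 0).code) ∧
    (∀ u y : ℕ, pr 0 (pr (u + 1) y) ∈ W → ∃ y' : ℕ, pr 0 (pr u y') ∈ W ∧
      y = pr 3 (pr y' (pr 2 0))) := by
  have e1 : std.num (pr 1 0) = (numeral 0).code := std_num _
  have e2 : ∀ y : ℕ, std.cadd y = pr 3 (pr y (pr 2 0)) := by
    intro y
    have h3 : std.num 3 = (3 : ℕ) := std_num 3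
    have h4 : std.num (pr 2 0) = (pr 2 0 : ℕ) := std_num _
    show std.pr (std.num 3) (std.pr y (std.num (pr 2 0))) = _
    rw [h3, h4]
    rfl
  constructor
  · rintro ⟨h1, h2⟩
    refine ⟨fun y hy => (h1 y hy).trans e1, fun u y hy => ?_⟩
    obtain ⟨y', h3, h4⟩ := h2 u y hy
    exact ⟨y', h3, h4.trans (e2 y')⟩
  · rintro ⟨h1, h2⟩
    refine ⟨fun y hy => (h1 y hy).trans e1.symm, fun u y hy => ?_⟩
    obtain ⟨y', h3, h4⟩ := h2 u y hy
    exact ⟨y', h3, h4.trans (e2 y').symm⟩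

/-- The set coding the Goedel numbers of numerals and the witnesses. -/
def Wit (X : ℕ → Set ℕ) : Set ℕ := {m | (∃ n, m = pr 0 (pr n (numeral n).code)) ∨
    ∃ a n, m = pr (a + 1) n ∧ n ∈ X a}

theorem Wit_num {X : ℕ → Set ℕ} (n y : ℕ) (h : pr 0 (pr n y) ∈ Wit X) :
    y = (numeral n).code := by
  rcases h with ⟨m, hm⟩ | ⟨a, m, hm, _⟩
  · have h1 := pr_inj (pr_inj hm).2
    rw [h1.2, h1.1]
  · have h1 := (pr_inj hm).1
    omega

theorem Wit_sec {X : ℕ → Set ℕ} (a : ℕ) : {n | pr (a + 1) n ∈ Wit X} = X a := by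
  ext n
  constructor
  · rintro (⟨m, hm⟩ | ⟨a', m, hm, hm'⟩)
    · have := (pr_inj hm).1
      omega
    · have := pr_inj hm
      have e4 : a = a' := by omega
      rw [e4, this.2]
      exact hm'
  · intro hn
    exact Or.inr ⟨a, n, rfl, hn⟩

theorem std_pr (a b : ℕ) : std.pr a b = pr a b := rfl

theorem Wit_mem (X : ℕ → Set ℕ) (g : ℕ) :
    std.pr std.zero (std.pr (std.num g) (numeral g).code) ∈ Wit X := by
  left
  refine ⟨g, ?_⟩
  have e1 : std.num g = g := std_num _
  rw [e1]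
  exact (std_pr 0 _).trans (congrArg (pr 0) (std_pr g _))

theorem std_gam (i g : ℕ) (H : Fm) :
    @Eq ℕ (Gam i g H).code (std.gam i (numeral g).code (std.num H.code)) := by
  have h2 := num_gam arith_std i (numeral g).code H.code
  have e1 : std.num (numeral g).code = (numeral g).code := std_num _
  have e3 : std.num (gam i (numeral g).code H.code) = gam i (numeral g).code H.code := std_num _
  rw [e1, e3] at h2
  exact (code_Gam i g H).trans h2

/-- No `Pi^1_1`-sound, `Sigma^1_1`-definable extension of `ACA_0` proves its own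
`Pi^1_1`-soundness. -/
theorem main (𝒜 : Arithmetization) (T : Set Fm) (hT : ExtendsACA0 T) (hS : Pi11Sound T) :
    ¬ ProvesOwnSoundness 𝒜 T := by
  rintro ⟨τ, ⟨⟨i, θ, rfl, hθ⟩, hfree, hdef⟩, hprov⟩
  have hf : θ.fvN ⊆ {0} := hfree.1
  have hf' : θ.fvS ⊆ {i} := by
    have h2 : θ.fvS \ {i} = ∅ := hfree.2
    intro x hx
    by_contra hne
    have : x ∈ θ.fvS \ {i} := ⟨hx, hne⟩
    rw [h2] at this
    exact this
  set b := max θ.bd 1 with hb
  have hb1 : θ.bd ≤ b := le_max_left _ _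
  have hb0 : b ≠ 0 := by omega
  have hpi : (gamma 𝒜 b i θ).IsPi11Sentence := gamma_pi hθ hf hf'
  have hγ : Proves T (gamma 𝒜 b i θ) := fun M hM =>
    step_model M (fun ψ hψ => hT.2 ψ hψ M hM) hθ hf hf' hb1 hb0 (hprov M hM)
  have htrue := hS _ hpi hγ
  obtain ⟨p, hp, hax⟩ := (𝒜.prf_correct T hT.1 _ hpi.2).mp hγ
  have hX : ∀ a : ℕ, ∃ X : Set ℕ, SatN a p 0 𝒜.axIn →
      Sat std (asg (A := ℕ) a 0 0) (update (fun _ => (∅ : Set ℕ)) i X) θ := by
    intro a
    by_cases ha : SatN a p 0 𝒜.axIn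
    · have h1 := (hdef a).mpr (hax a ha)
      obtain ⟨X, _, hX⟩ :=
        (Sat_exS std (asg (A := ℕ) a 0 0) (fun _ => (∅ : Set ℕ)) i θ).mp h1
      exact ⟨X, fun _ => hX⟩
    · exact ⟨∅, fun h => absurd h ha⟩
  choose X hX using hX
  refine gamma_false std (𝒜 := 𝒜) (b := b) (i := i) (θ := θ) hθ hf hf' hb1 hb0 (Wit X) trivial ?_
    (numeral (HH 𝒜 b i θ).code).code (gamma 𝒜 b i θ).code p (Wit_mem X _) (std_gam i _ _) hp ?_ htrue
  · rw [std_Rec_iff]
    refine ⟨fun y hy => Wit_num 0 y hy, fun u y hy => ⟨(numeral u).code, Or.inl ⟨u, rfl⟩, ?_⟩⟩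
    exact Wit_num (u + 1) y hy
  · intro a ha
    have h2 := hX a ha
    rw [← Wit_sec (X := X) a] at h2
    exact h2

end Pool.Agent.H986R3.SOA
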