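import Pool.Agent.H986R3.SOABasic

set_option autoImplicit false

namespace Pool.Agent.H986R3.SOA

open Function

/-- The code of `s + 1` as a function of the code of `s`. -/
def caddT (y : Tm) : Tm := prT (numeral 3) (prT y (numeral (pr 2 0)))

/-- The same function in a model. -/
def Model.cadd (M : Model) (y : M.Num) : M.Num := M.pr (M.num 3) (M.pr y (M.num (SOA.pr 2 0)))

@[simp] theorem val_caddT (M : Model) (v : ℕ → M.Num) (y : Tm) :
    (caddT y).val M v = M.cadd (y.val M v) := by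
  simp only [caddT, val_prT, val_numeral, Model.cadd]

theorem num_cadd {M : Model} (h : Arith M) (n : ℕ) :
    M.cadd (M.num (numeral n).code) = M.num (numeral (n + 1)).code := by
  simp only [Model.cadd, ← num_pr h]
  rfl

/-- The formula `∀ X_i ∀ x_3 (x_3 = g → H)`. -/
def Gam (i g : ℕ) (H : Fm) : Fm := .allS i (.all 3 (.imp (.eq (.var 3) (numeral g)) H))

def gam (i a h : ℕ) : ℕ :=
  pr 6 (pr i (pr 5 (pr 3 (pr 3 (pr 4 (pr (pr 0 (pr (pr 0 3) a)) (pr 3 h)))))))

theorem code_Gam (i g : ℕ) (H : Fm) : (Gam i g H).code = gam i (numeral g).code H.code := rfl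

def gamT (i : ℕ) (y x : Tm) : Tm :=
  prT (numeral 6) (prT (numeral i) (prT (numeral 5) (prT (numeral 3) (prT (numeral 3)
    (prT (numeral 4) (prT (prT (numeral 0) (prT (prT (numeral 0) (numeral 3)) y))
      (prT (numeral 3) x)))))))

def Model.gam (M : Model) (i : ℕ) (y x : M.Num) : M.Num :=
  M.pr (M.num 6) (M.pr (M.num i) (M.pr (M.num 5) (M.pr (M.num 3) (M.pr (M.num 3)
    (M.pr (M.num 4) (M.pr (M.pr (M.num 0) (M.pr (M.pr (M.num 0) (M.num 3)) y))
      (M.pr (M.num 3) x)))))))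

@[simp] theorem val_gamT (M : Model) (v : ℕ → M.Num) (i : ℕ) (y x : Tm) :
    (gamT i y x).val M v = M.gam i (y.val M v) (x.val M v) := by
  simp only [gamT, val_prT, val_numeral, Model.gam]

theorem num_gam {M : Model} (h : Arith M) (i a x : ℕ) :
    M.num (gam i a x) = M.gam i (M.num a) (M.num x) := by
  simp only [Model.gam, gam, num_pr h]

def rec0 (i : ℕ) : Fm :=
  .all 6 (.imp (.mem (prT .zero (prT .zero (.var 6))) i) (.eq (.var 6) (numeral (pr 1 0))))

def recS (i : ℕ) : Fm :=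
  .all 5 (.all 6 (.imp (.mem (prT .zero (prT (.add (.var 5) .one) (.var 6))) i)
    (.ex 7 (.and (.mem (prT .zero (prT (.var 5) (.var 7))) i)
      (.eq (.var 6) (caddT (.var 7)))))))

/-- `x_2` is the code of `Gam i x_3 (formula with code x_3)`. -/
def dg (i : ℕ) : Fm :=
  .and (rec0 i) (.and (recS i) (.ex 4 (.and (.mem (prT .zero (prT (.var 3) (.var 4))) i)
    (.eq (.var 2) (gamT i (.var 4) (.var 3))))))

/-- The `0`-th section of `W` is (part of) the function that maps `n` to the code of its numeral. -/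
def Model.Rec (M : Model) (W : Set M.Num) : Prop :=
  (∀ y, M.pr M.zero (M.pr M.zero y) ∈ W → y = M.num (SOA.pr 1 0)) ∧
  (∀ u y, M.pr M.zero (M.pr (M.add u M.one) y) ∈ W →
    ∃ y', M.pr M.zero (M.pr u y') ∈ W ∧ y = M.cadd y')

theorem Sat_dg (M : Model) (i : ℕ) (v : ℕ → M.Num) (V : ℕ → Set M.Num) :
    Sat M v V (dg i) ↔ M.Rec (V i) ∧ ∃ y, M.pr M.zero (M.pr (v 3) y) ∈ V i ∧
      v 2 = M.gam i y (v 3) := by
  simp only [dg, rec0, recS, Sat, Sat_imp, Sat_ex, val_prT, Tm.val, val_numeral, val_caddT,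
    val_gamT, Model.Rec]
  simp [Function.update_apply, and_assoc]

theorem rec_unique {M : Model} (h : Arith M) {W : Set M.Num} (hW : M.Rec W) (n : ℕ) :
    ∀ y, M.pr M.zero (M.pr (M.num n) y) ∈ W → y = M.num (numeral n).code := by
  induction n with
  | zero => exact fun y hy => hW.1 y hy
  | succ n ih =>
    intro y hy
    obtain ⟨y', h1, h2⟩ := hW.2 _ _ hy
    rw [h2, ih y' h1, num_cadd h]

end Pool.Agent.H986R3.SOA
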