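import Pool.Agent.H986R3.SOAGamma

set_option autoImplicit false

namespace Pool.Agent.H986R3.SOA

open Function

theorem numeral_fv (n : ℕ) : (numeral n).fv = ∅ := by
  induction n with
  | zero => rfl
  | succ n ih => simp [numeral, Tm.fv, ih]

theorem gamT_fv (i : ℕ) (y x : Tm) : (gamT i y x).fv ⊆ y.fv ∪ x.fv := by
  intro z hz
  simp only [gamT, Tm.fv_prT, numeral_fv, Set.mem_union, Set.mem_empty_iff_false, false_or] at hz
  exact hz

theorem dg_fvN (i : ℕ) : (dg i).fvN ⊆ {2, 3} := by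
  intro x hx
  simp only [dg, rec0, recS, Fm.fvN, Fm.imp, Fm.ex, Tm.fv_prT, Tm.fv, numeral_fv, caddT,
    Set.mem_union, Set.mem_sdiff, Set.mem_singleton_iff, Set.mem_empty_iff_false] at hx
  simp only [Set.mem_insert_iff, Set.mem_singleton_iff]
  have h := @gamT_fv i (.var 4) (.var 3) x
  simp only [Tm.fv, Set.mem_union, Set.mem_singleton_iff] at h
  tauto

theorem dg_fvS (i : ℕ) : (dg i).fvS ⊆ {i} := by
  intro x hx
  simp only [dg, rec0, recS, Fm.fvS, Fm.imp, Fm.ex, 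
    Set.mem_union, Set.mem_singleton_iff, Set.mem_empty_iff_false] at hx
  simp only [Set.mem_singleton_iff]
  tauto

theorem dg_arith (i : ℕ) : (dg i).Arithmetical := by
  simp [dg, rec0, recS, Fm.Arithmetical, Fm.imp, Fm.ex]

variable (𝒜 : Arithmetization) (b i : ℕ) (θ : Fm)

/-- Strong provability: there is a proof `p` of `x_2` such that for each axiom `a` used in `p` the
formula `θ(a, X)` holds for the section `X` of `X_i` at `a + 1`. -/
def prs : Fm :=
  .ex 1 (.and 𝒜.prf (.all 0 (.imp 𝒜.axIn (.all b (.imp (.eq (.var b) (.var 0)) (θ.sec b i))))))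

/-- `∀ x_2 (x_2 = the code given by x_3 → ¬ Prs(x_2))`. -/
def HH : Fm := .all 2 (.imp (dg i) (.neg (prs 𝒜 b i θ)))

/-- The Goedel sentence. -/
def gamma : Fm := Gam i (HH 𝒜 b i θ).code (HH 𝒜 b i θ)

variable {𝒜 b i θ}

theorem prs_arith (hθ : θ.Arithmetical) : (prs 𝒜 b i θ).Arithmetical := by
  simp only [prs, Fm.Arithmetical, Fm.imp, Fm.ex]
  exact ⟨𝒜.prf_arith, 𝒜.axIn_arith, trivial, Fm.sec_arith b i θ hθ⟩

theorem prs_fvN (hθ : θ.Arithmetical) (hf : θ.fvN ⊆ {0}) : (prs 𝒜 b i θ).fvN ⊆ {2} := by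
  intro x hx
  simp only [prs, Fm.fvN, Fm.imp, Fm.ex, Tm.fv, Set.mem_union, Set.mem_sdiff,
    Set.mem_singleton_iff] at hx
  simp only [Set.mem_singleton_iff]
  have h1 : x ∈ 𝒜.prf.fvN → x ∈ ({1, 2} : Set ℕ) := fun h => 𝒜.prf_free.1 h
  have h2 : x ∈ 𝒜.axIn.fvN → x ∈ ({0, 1} : Set ℕ) := fun h => 𝒜.axIn_free.1 h
  have h3 : x ∈ (θ.sec b i).fvN → x ∈ θ.fvN ∪ {b} := fun h => Fm.sec_fvN b i θ hθ h
  have h4 : x ∈ θ.fvN → x ∈ ({0} : Set ℕ) := fun h => hf h
  simp only [Set.mem_union, Set.mem_insert_iff, Set.mem_singleton_iff] at h1 h2 h3 h4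
  tauto

theorem prs_fvS (hθ : θ.Arithmetical) (hf : θ.fvS ⊆ {i}) : (prs 𝒜 b i θ).fvS ⊆ {i} := by
  intro x hx
  simp only [prs, Fm.fvS, Fm.imp, Fm.ex, 𝒜.prf_free.2, 𝒜.axIn_free.2, Set.mem_union,
    Set.mem_empty_iff_false, false_or] at hx
  exact hf (Fm.sec_fvS b i θ hθ hx)

theorem gamma_pi (hθ : θ.Arithmetical) (hf : θ.fvN ⊆ {0}) (hf' : θ.fvS ⊆ {i}) :
    (gamma 𝒜 b i θ).IsPi11Sentence := by
  refine ⟨⟨i, _, rfl, ?_⟩, ?_, ?_⟩
  · simp only [HH, Fm.Arithmetical, Fm.imp]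
    exact ⟨trivial, dg_arith i, prs_arith hθ⟩
  · refine Set.eq_empty_iff_forall_notMem.mpr fun x hx => ?_
    simp only [gamma, Gam, HH, Fm.fvN, Fm.imp, Tm.fv, numeral_fv, Set.mem_union, Set.mem_sdiff,
      Set.mem_singleton_iff, Set.mem_empty_iff_false] at hx
    have h1 := @dg_fvN i x
    have h2 : x ∈ (prs 𝒜 b i θ).fvN → x ∈ ({2} : Set ℕ) := fun h => prs_fvN hθ hf h
    simp only [Set.mem_insert_iff, Set.mem_singleton_iff] at h1 h2
    tauto
  · refine Set.eq_empty_iff_forall_notMem.mpr fun x hx => ?_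
    simp only [gamma, Gam, HH, Fm.fvS, Fm.imp, Set.mem_union, Set.mem_sdiff,
      Set.mem_singleton_iff, Set.mem_empty_iff_false, false_or] at hx
    have h1 := @dg_fvS i x
    have h2 : x ∈ (prs 𝒜 b i θ).fvS → x ∈ ({i} : Set ℕ) := fun h => prs_fvS hθ hf' h
    simp only [Set.mem_singleton_iff] at h1 h2
    tauto

theorem Sat_free_asg (M : Model) {φ : Fm} {s : Set ℕ} (h : φ.FreeIn s) (v v' : ℕ → M.Num)
    (V V' : ℕ → Set M.Num) (hv : ∀ j ∈ s, v j = v' j) : Sat M v V φ ↔ Sat M v' V' φ :=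
  Sat_congr M φ v v' V V' (fun j hj => hv j (h.1 hj)) (fun j hj => by simp [h.2] at hj)

theorem Sat_prs (M : Model) (hθ : θ.Arithmetical) (hf : θ.fvN ⊆ {0}) (hf' : θ.fvS ⊆ {i})
    (hb : θ.bd ≤ b) (v : ℕ → M.Num) (V : ℕ → Set M.Num) (hb0 : b ≠ 0) :
    Sat M v V (prs 𝒜 b i θ) ↔ ∃ p, Sat M (asg M.zero p (v 2)) (fun _ => ∅) 𝒜.prf ∧
      ∀ a, Sat M (asg a p M.zero) (fun _ => ∅) 𝒜.axIn →
        Sat M (asg a M.zero M.zero)
          (update (fun _ => ∅) i {n | M.pr (M.add a M.one) n ∈ V i}) θ := by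
  simp only [prs, Sat_ex, Sat, Sat_imp, Tm.val]
  refine exists_congr fun p => and_congr ?_ (forall_congr' fun a => imp_congr ?_ ?_)
  · refine Sat_free_asg M 𝒜.prf_free _ _ _ _ ?_
    intro j hj
    rcases hj with rfl | rfl
    · simp [asg]
    · simp [asg]
  · refine Sat_free_asg M 𝒜.axIn_free _ _ _ _ ?_
    intro j hj
    rcases hj with rfl | rfl
    · simp [asg]
    · simp [asg]
  · have e0 : ∀ a_2 : M.Num, update (update (update v 1 p) 0 a) b a_2 b = a_2 := fun _ => by simp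
    have e1 : ∀ a_2 : M.Num, update (update (update v 1 p) 0 a) b a_2 0 = a := fun a_2 => by
      rw [update_of_ne hb0.symm]; simp
    simp only [e0, e1]
    rw [forall_eq, Sat_sec M b i θ hθ hb]
    refine Sat_congr M θ _ _ _ _ ?_ ?_
    · intro j hj
      have := hf hj
      rw [Set.mem_singleton_iff] at this
      subst this
      rw [update_of_ne hb0.symm]
      simp [asg]
    · intro j hj
      have := hf' hj
      rw [Set.mem_singleton_iff] at this
      subst this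
      simp

theorem section_mem (M : Model) (h : ∀ ψ, ACA0 ψ → M.Holds ψ) (W : Set M.Num) (hW : W ∈ M.sets)
    (a : M.Num) : {n | M.pr (M.add a M.one) n ∈ W} ∈ M.sets := by
  have h1 := h _ (ACA0.comprehension (.mem (prT (.add (.var 1) .one) (.var 0)) 0) 0 1 trivial
    (by simp [Fm.fvS])) (fun _ => a) (fun _ => W) (fun _ => hW)
  rw [Sat_exS] at h1
  obtain ⟨A, hA, h2⟩ := h1
  have : {n | M.pr (M.add a M.one) n ∈ W} = A := by
    ext n
    have h3 := h2 n
    rw [Sat_iff] at h3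
    simp only [Sat, val_prT, Tm.val] at h3
    simp at h3
    exact h3.symm
  rw [this]; exact hA

theorem Sat_gamma (M : Model) (v : ℕ → M.Num) (V : ℕ → Set M.Num) :
    Sat M v V (gamma 𝒜 b i θ) ↔ ∀ W ∈ M.sets, ∀ x2,
      Sat M (update (update v 3 (M.num (HH 𝒜 b i θ).code)) 2 x2) (update V i W) (dg i) →
      ¬ Sat M (update (update v 3 (M.num (HH 𝒜 b i θ).code)) 2 x2) (update V i W)
        (prs 𝒜 b i θ) := by
  simp only [gamma, Gam, HH, Sat, Sat_imp, Tm.val, val_numeral, update_self]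
  constructor
  · intro h W hW x2 h1
    exact h W hW _ rfl x2 h1
  · intro h W hW a ha x2
    subst ha
    exact h W hW x2

/-- The model theoretic step: the Goedel sentence follows from the reflection sentence. -/
theorem step_model (M : Model) (hM : ∀ ψ, ACA0 ψ → M.Holds ψ) (hθ : θ.Arithmetical)
    (hf : θ.fvN ⊆ {0}) (hf' : θ.fvS ⊆ {i}) (hb : θ.bd ≤ b) (hb0 : b ≠ 0)
    (hR : M.Holds (𝒜.reflection (.exS i θ))) : M.Holds (gamma 𝒜 b i θ) := by
  have hA : Arith M := arith_of_aca M hM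
  have hpi : (gamma 𝒜 b i θ).IsPi11Sentence := gamma_pi hθ hf hf'
  intro v V hV
  have htr := 𝒜.tr_proves _ hpi M hM v V hV
  rw [Sat_iff] at htr
  by_contra hn
  apply hn
  rw [← htr]
  rw [Sat_gamma] at hn
  push Not at hn
  obtain ⟨W, hW, x2, h1, h2⟩ := hn
  rw [Sat_dg] at h1
  obtain ⟨hrec, y, hy, hx⟩ := h1
  rw [update_self] at hrec hy
  rw [update_of_ne (by norm_num : (3 : ℕ) ≠ 2), update_self] at hy hx
  rw [update_self] at hx
  have hy' := rec_unique hA hrec _ y hy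
  rw [hy', ← num_gam hA, ← code_Gam] at hx
  change x2 = M.num (gamma 𝒜 b i θ).code at hx
  rw [Sat_prs M hθ hf hf' hb _ _ hb0] at h2
  rw [update_self, update_self] at h2
  obtain ⟨p, hp, hax⟩ := h2
  -- the instance of the truth predicate
  simp only [Fm.inst, Sat, Sat_imp, Tm.val, update_self, val_numeral]
  rintro a rfl
  have hPi := 𝒜.isPi_proves _ hpi M hM v V hV
  simp only [Fm.inst, Sat, Sat_imp, Tm.val, update_self, val_numeral] at hPi
  have hRR := hR v V hV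
  simp only [Arithmetization.reflection, Arithmetization.Pr, Sat, Sat_imp, Sat_ex, Sat_exS] at hRR
  refine hRR _ ⟨hPi _ rfl, p, ?_, ?_⟩
  · refine (Sat_free_asg M 𝒜.prf_free _ _ _ _ ?_).mpr hp
    intro j hj
    rcases hj with rfl | rfl
    · simp [asg]
    · simp [asg, hx]
  · intro a ha
    refine ⟨{n | M.pr (M.add a M.one) n ∈ W}, section_mem M hM W hW a, ?_⟩
    have h3 := hax a ((Sat_free_asg M 𝒜.axIn_free _ _ _ _ (by
      intro j hj
      rcases hj with rfl | rfl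
      · simp [asg]
      · simp [asg])).mp ha)
    refine (Sat_congr M θ _ _ _ _ ?_ ?_).mp h3
    · intro j hj
      have := hf hj
      rw [Set.mem_singleton_iff] at this
      subst this
      simp [asg]
    · intro j hj
      have := hf' hj
      rw [Set.mem_singleton_iff] at this
      subst this
      simp

end Pool.Agent.H986R3.SOA
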