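import Pool.Agent.H986R3.SOBDefs

set_option autoImplicit false

namespace Pool.Agent.H986R3.SOB

open Function

theorem Tm.val_congr (M : Model) (t : Tm) : ∀ (v v' : ℕ → M.Num), (∀ i ∈ t.fv, v i = v' i) →
    t.val M v = t.val M v' := by
  induction t with
  | var i => intro v v' h; exact h i (by simp [Tm.fv])
  | zero => intro v v' h; rfl
  | one => intro v v' h; rfl
  | add s t hs ht =>
    intro v v' h
    simp only [Tm.val]
    rw [hs v v' (fun i hi => h i (Or.inl hi)), ht v v' (fun i hi => h i (Or.inr hi))]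
  | mul s t hs ht =>
    intro v v' h
    simp only [Tm.val]
    rw [hs v v' (fun i hi => h i (Or.inl hi)), ht v v' (fun i hi => h i (Or.inr hi))]

theorem Sat_congr (M : Model) (φ : Fm) : ∀ (v v' : ℕ → M.Num) (V V' : ℕ → Set M.Num),
    (∀ i ∈ φ.fvN, v i = v' i) → (∀ i ∈ φ.fvS, V i = V' i) → (Sat M v V φ ↔ Sat M v' V' φ) := by
  induction φ with
  | eq s t =>
    intro v v' V V' h _
    simp only [Sat]
    rw [Tm.val_congr M s v v' (fun i hi => h i (Or.inl hi)),
      Tm.val_congr M t v v' (fun i hi => h i (Or.inr hi))]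
  | lt s t =>
    intro v v' V V' h _
    simp only [Sat]
    rw [Tm.val_congr M s v v' (fun i hi => h i (Or.inl hi)),
      Tm.val_congr M t v v' (fun i hi => h i (Or.inr hi))]
  | mem t i =>
    intro v v' V V' h h'
    simp only [Sat]
    rw [Tm.val_congr M t v v' (fun i hi => h i hi), h' i rfl]
  | neg φ ih =>
    intro v v' V V' h h'
    simp only [Sat]
    rw [ih v v' V V' h h']
  | and φ ψ ih1 ih2 =>
    intro v v' V V' h h'
    simp only [Sat]
    rw [ih1 v v' V V' (fun i hi => h i (Or.inl hi)) (fun i hi => h' i (Or.inl hi)),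
      ih2 v v' V V' (fun i hi => h i (Or.inr hi)) (fun i hi => h' i (Or.inr hi))]
  | all i φ ih =>
    intro v v' V V' h h'
    simp only [Sat]
    refine forall_congr' fun a => ih _ _ _ _ (fun j hj => ?_) h'
    by_cases hji : j = i
    · subst hji; simp
    · rw [update_of_ne hji, update_of_ne hji]
      exact h j ⟨hj, hji⟩
  | allS i φ ih =>
    intro v v' V V' h h'
    simp only [Sat]
    refine forall_congr' fun A => forall_congr' fun _ => ih _ _ _ _ h (fun j hj => ?_)
    by_cases hji : j = i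
    · subst hji; simp
    · rw [update_of_ne hji, update_of_ne hji]
      exact h' j ⟨hj, hji⟩

section sat
variable (M : Model) (v : ℕ → M.Num) (V : ℕ → Set M.Num)

@[simp] theorem Sat_imp (φ ψ : Fm) : Sat M v V (φ.imp ψ) ↔ (Sat M v V φ → Sat M v V ψ) := by
  simp only [Fm.imp, Sat]; tauto

@[simp] theorem Sat_iff (φ ψ : Fm) : Sat M v V (φ.iff ψ) ↔ (Sat M v V φ ↔ Sat M v V ψ) := by
  simp only [Fm.iff, Sat, Sat_imp]; tauto

@[simp] theorem Sat_or (φ ψ : Fm) : Sat M v V (φ.or ψ) ↔ (Sat M v V φ ∨ Sat M v V ψ) := by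
  simp only [Fm.or, Sat]; tauto

@[simp] theorem Sat_ex (i : ℕ) (φ : Fm) :
    Sat M v V (φ.ex i) ↔ ∃ a, Sat M (update v i a) V φ := by
  simp only [Fm.ex, Sat]; push Not; rfl

@[simp] theorem Sat_exS (i : ℕ) (φ : Fm) :
    Sat M v V (φ.exS i) ↔ ∃ A ∈ M.sets, Sat M v (update V i A) φ := by
  simp only [Fm.exS, Sat]; push Not; rfl

end sat


end Pool.Agent.H986R3.SOB
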