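import Pool.Agent.H986R3.SOBBasic
import Pool.Agent.Helper180.ArithDef

set_option autoImplicit false

namespace Pool.Agent.H986R3.SOB

open Function Pool.Agent.Helper180.ArithDef

/-! Arithmetical definability in the standard model. -/

/-- `R` depends only on finitely many arguments and is defined by arithmetical formulas, uniformly
in the choice of the variables. -/
def ADef (R : (ℕ → ℕ) → Prop) : Prop :=
  ∃ N : ℕ, (∀ w w' : ℕ → ℕ, (∀ i < N, w i = w' i) → (R w ↔ R w')) ∧
    ∀ σ : ℕ → ℕ, ∃ φ : Fm, φ.Arithmetical ∧ φ.fvS = ∅ ∧ φ.fvN ⊆ {x | ∃ i < N, σ i = x} ∧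
      ∀ v : ℕ → ℕ, Sat std v (fun _ => (∅ : Set ℕ)) φ ↔ R (fun i => v (σ i))

theorem ADef_DC : DC ADef where
  add := by
    refine ⟨3, fun w w' h => ?_, fun σ => ⟨.eq (.add (.var (σ 0)) (.var (σ 1))) (.var (σ 2)), trivial,
      by simp [Fm.fvS], ?_, fun v => Iff.rfl⟩⟩
    · beta_reduce
      rw [h 0 (by norm_num), h 1 (by norm_num), h 2 (by norm_num)]
    · intro x hx
      simp only [Fm.fvN, Tm.fv, Set.mem_union, Set.mem_singleton_iff] at hx
      rcases hx with (rfl | rfl) | rfl
      · exact ⟨0, by norm_num, rfl⟩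
      · exact ⟨1, by norm_num, rfl⟩
      · exact ⟨2, by norm_num, rfl⟩
  mul := by
    refine ⟨3, fun w w' h => ?_, fun σ => ⟨.eq (.mul (.var (σ 0)) (.var (σ 1))) (.var (σ 2)), trivial,
      by simp [Fm.fvS], ?_, fun v => Iff.rfl⟩⟩
    · beta_reduce
      rw [h 0 (by norm_num), h 1 (by norm_num), h 2 (by norm_num)]
    · intro x hx
      simp only [Fm.fvN, Tm.fv, Set.mem_union, Set.mem_singleton_iff] at hx
      rcases hx with (rfl | rfl) | rfl
      · exact ⟨0, by norm_num, rfl⟩
      · exact ⟨1, by norm_num, rfl⟩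
      · exact ⟨2, by norm_num, rfl⟩
  bot := by
    refine ⟨0, fun w w' h => Iff.rfl, fun σ => ⟨.neg (.eq .zero .zero), trivial, by simp [Fm.fvS],
      ?_, fun v => ?_⟩⟩
    · intro x hx; simp [Fm.fvN, Tm.fv] at hx
    · simp only [Sat]; simp
  imp := by
    rintro R S ⟨N, hN, hR⟩ ⟨K, hK, hS⟩
    refine ⟨max N K, fun w w' h => ?_, fun σ => ?_⟩
    · beta_reduce
      rw [hN w w' (fun i hi => h i (lt_of_lt_of_le hi (le_max_left _ _))),
        hK w w' (fun i hi => h i (lt_of_lt_of_le hi (le_max_right _ _)))]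
    · obtain ⟨φ, a1, a2, a3, a4⟩ := hR σ
      obtain ⟨ψ, b1, b2, b3, b4⟩ := hS σ
      refine ⟨φ.imp ψ, ⟨a1, b1⟩, ?_, ?_, fun v => ?_⟩
      · simp [Fm.imp, Fm.fvS, a2, b2]
      · rintro x (hx | hx)
        · obtain ⟨i, hi, rfl⟩ := a3 hx
          exact ⟨i, lt_of_lt_of_le hi (le_max_left _ _), rfl⟩
        · obtain ⟨i, hi, rfl⟩ := b3 hx
          exact ⟨i, lt_of_lt_of_le hi (le_max_right _ _), rfl⟩
      · exact (Sat_imp std v _ φ ψ).trans (imp_congr (a4 v) (b4 v))
  all := by
    rintro R ⟨N, hN, hR⟩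
    refine ⟨N, fun w w' h => ?_, fun σ => ?_⟩
    · refine forall_congr' fun a => hN _ _ fun i hi => ?_
      cases i with
      | zero => rfl
      | succ i => exact h i (by omega)
    · obtain ⟨x, hx⟩ : ∃ x : ℕ, ∀ i < N, σ i ≠ x := by
        refine ⟨(Finset.range N).sup σ + 1, fun i hi h => ?_⟩
        have := Finset.le_sup (f := σ) (Finset.mem_range.mpr hi)
        omega
      obtain ⟨φ, a1, a2, a3, a4⟩ := hR (cns x σ)
      refine ⟨.all x φ, a1, a2, ?_, fun v => ?_⟩
      · rintro y ⟨hy, hyx⟩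
        obtain ⟨i, hi, rfl⟩ := a3 hy
        cases i with
        | zero => exact absurd rfl hyx
        | succ i => exact ⟨i, by omega, rfl⟩
      · refine forall_congr' fun a => (a4 _).trans (hN _ _ fun i hi => ?_)
        cases i with
        | zero => exact update_self (β := fun _ => ℕ) x a v
        | succ i => exact update_of_ne (β := fun _ => ℕ) (hx i (by omega)) a v
  ren := by
    rintro R ρ ⟨N, hN, hR⟩
    refine ⟨(Finset.range N).sup ρ + 1, fun w w' h => hN _ _ fun i hi => h _ ?_, fun σ => ?_⟩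
    · have := Finset.le_sup (f := ρ) (Finset.mem_range.mpr hi)
      omega
    · obtain ⟨φ, a1, a2, a3, a4⟩ := hR (fun i => σ (ρ i))
      refine ⟨φ, a1, a2, ?_, a4⟩
      intro y hy
      obtain ⟨i, hi, rfl⟩ := a3 hy
      refine ⟨ρ i, ?_, rfl⟩
      have := Finset.le_sup (f := ρ) (Finset.mem_range.mpr hi)
      omega

/-- Unary definable predicates are defined by arithmetical formulas with free variable `0`. -/
theorem exists_formula {Q : ℕ → Prop} (h : ADef (fun w => Q (w 0))) :
    ∃ φ : Fm, φ.Arithmetical ∧ φ.FreeIn {0} ∧ ∀ v : ℕ → ℕ,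
      Sat std v (fun _ => (∅ : Set ℕ)) φ ↔ Q (v 0) := by
  obtain ⟨N, _, hR⟩ := h
  obtain ⟨φ, a1, a2, a3, a4⟩ := hR (fun _ => 0)
  refine ⟨φ, a1, ⟨?_, a2⟩, a4⟩
  intro x hx
  obtain ⟨i, _, rfl⟩ := a3 hx
  rfl

section
variable {D : ((ℕ → ℕ) → Prop) → Prop} (h : DC D)
include h

theorem tconst (k : ℕ) : DT D (fun _ => k) := by
  induction k with
  | zero => exact h.tzero
  | succ k ih => exact h.tadd ih h.tone

theorem tlin (k : ℕ) {F : (ℕ → ℕ) → ℕ} (hF : DT D F) : DT D (fun w => 7 * F w + k) :=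
  h.tadd (h.tmul (tconst h 7) hF) (tconst h k)

theorem tapp {f : ℕ → ℕ} (hf : Primrec f) {F : (ℕ → ℕ) → ℕ} (hF : DT D F) :
    DT D (fun w => f (F w)) := by
  have hp : Nat.Partrec (f : ℕ →. ℕ) := Nat.Partrec.of_primrec (Primrec.nat_iff.mp hf)
  have h1 : D (fun w => w 1 = f (w 0)) :=
    h.iff (fun w => by simp) (h.partrec hp)
  have h2 : D (fun w => w 0 = f (F (fun n => w (n + 1)))) :=
    h.app2 (R := fun x y => y = f x) h1 (h.tren (fun n => n + 1) hF) (h.tvar 0)
  exact h2

end

/-- Universal closure with respect to the variables `0, ..., N - 1` of both sorts. -/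
def CL : ℕ → Fm → Fm
  | 0, ψ => ψ
  | N + 1, ψ => .all N (.allS N (CL N ψ))

def iter (p : ℕ) : ℕ :=
  Nat.rec (motive := fun _ => ℕ) (Nat.unpair p).2
    (fun k ih => 7 * Nat.pair k (7 * Nat.pair k ih + 6) + 5) (Nat.unpair p).1

theorem iter_primrec : Primrec iter := by
  unfold iter
  have hk : Primrec (fun q : ℕ × (ℕ × ℕ) => q.2.1) := Primrec.fst.comp Primrec.snd
  have hi : Primrec (fun q : ℕ × (ℕ × ℕ) => q.2.2) := Primrec.snd.comp Primrec.snd
  have h7 : Primrec (fun _ : ℕ × (ℕ × ℕ) => 7) := Primrec.const 7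
  have h1 : Primrec (fun q : ℕ × (ℕ × ℕ) => 7 * Nat.pair q.2.1 q.2.2 + 6) :=
    Primrec.nat_add.comp (Primrec.nat_mul.comp h7 (Primrec₂.natPair.comp hk hi)) (Primrec.const 6)
  have h2 : Primrec (fun q : ℕ × (ℕ × ℕ) => 7 * Nat.pair q.2.1 (7 * Nat.pair q.2.1 q.2.2 + 6) + 5) :=
    Primrec.nat_add.comp (Primrec.nat_mul.comp h7 (Primrec₂.natPair.comp hk h1)) (Primrec.const 5)
  exact Primrec.nat_rec' (f := fun p : ℕ => (Nat.unpair p).1) (g := fun p : ℕ => (Nat.unpair p).2)
    (h := fun (_ : ℕ) (q : ℕ × ℕ) => 7 * Nat.pair q.1 (7 * Nat.pair q.1 q.2 + 6) + 5)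
    (Primrec.fst.comp Primrec.unpair) (Primrec.snd.comp Primrec.unpair) h2

theorem code_CL (N : ℕ) (ψ : Fm) : (CL N ψ).code = iter (Nat.pair N ψ.code) := by
  induction N with
  | zero => simp [CL, iter]
  | succ N ih =>
    simp only [CL, Fm.code, ih]
    simp [iter]

theorem Sat_CL {M : Model} {v : ℕ → M.Num} {V : ℕ → Set M.Num} (hV : ∀ j, V j ∈ M.sets) (N : ℕ)
    {ψ : Fm} (h : Sat M v V (CL N ψ)) : Sat M v V ψ := by
  induction N with
  | zero => exact h
  | succ N ih =>
    have h1 := h (v N) (V N) (hV N)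
    rw [update_eq_self, update_eq_self] at h1
    exact ih h1

theorem Holds_of_CL {M : Model} {N : ℕ} {ψ : Fm} (h : M.Holds (CL N ψ)) : M.Holds ψ :=
  fun v V hV => Sat_CL hV N (h v V hV)

theorem Holds_CL {M : Model} {ψ : Fm} (h : M.Holds ψ) (N : ℕ) : M.Holds (CL N ψ) := by
  induction N with
  | zero => exact h
  | succ N ih =>
    intro v V hV a A hA
    refine ih _ _ fun j => ?_
    by_cases hj : j = N
    · subst hj; rw [update_self]; exact hA
    · rw [update_of_ne hj]; exact hV j

theorem fvN_CL (N : ℕ) (ψ : Fm) : ∀ x ∈ (CL N ψ).fvN, x ∈ ψ.fvN ∧ N ≤ x := by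
  induction N with
  | zero => exact fun x hx => ⟨hx, Nat.zero_le _⟩
  | succ N ih =>
    rintro x ⟨hx, hne⟩
    have h1 := ih x hx
    refine ⟨h1.1, ?_⟩
    rw [Set.mem_singleton_iff] at hne
    omega

theorem fvS_CL (N : ℕ) (ψ : Fm) : ∀ x ∈ (CL N ψ).fvS, x ∈ ψ.fvS ∧ N ≤ x := by
  induction N with
  | zero => exact fun x hx => ⟨hx, Nat.zero_le _⟩
  | succ N ih =>
    rintro x ⟨hx, hne⟩
    have h1 := ih x hx
    refine ⟨h1.1, ?_⟩
    rw [Set.mem_singleton_iff] at hne
    omega

theorem CL_sentence {N : ℕ} {ψ : Fm} (h1 : ∀ x ∈ ψ.fvN, x < N) (h2 : ∀ x ∈ ψ.fvS, x < N) :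
    (CL N ψ).IsSentence := by
  constructor
  · refine Set.eq_empty_iff_forall_notMem.mpr fun x hx => ?_
    have := fvN_CL N ψ x hx
    have := h1 x this.1
    omega
  · refine Set.eq_empty_iff_forall_notMem.mpr fun x hx => ?_
    have := fvS_CL N ψ x hx
    have := h2 x this.1
    omega

theorem Tm.fv_le_code : ∀ (t : Tm), ∀ x ∈ t.fv, x ≤ t.code := by
  intro t
  induction t with
  | var i => intro x hx; simp only [Tm.fv, Set.mem_singleton_iff] at hx; simp only [Tm.code]; omega
  | zero => intro x hx; exact hx.elim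
  | one => intro x hx; exact hx.elim
  | add s t hs ht =>
    rintro x (hx | hx)
    · have := hs x hx
      have := Nat.left_le_pair s.code t.code
      simp only [Tm.code]; omega
    · have := ht x hx
      have := Nat.right_le_pair s.code t.code
      simp only [Tm.code]; omega
  | mul s t hs ht =>
    rintro x (hx | hx)
    · have := hs x hx
      have := Nat.left_le_pair s.code t.code
      simp only [Tm.code]; omega
    · have := ht x hx
      have := Nat.right_le_pair s.code t.code
      simp only [Tm.code]; omega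

theorem Fm.fv_le_code : ∀ (φ : Fm), (∀ x ∈ φ.fvN, x ≤ φ.code) ∧ (∀ x ∈ φ.fvS, x ≤ φ.code) := by
  intro φ
  induction φ with
  | eq s t =>
    refine ⟨?_, fun x hx => hx.elim⟩
    rintro x (hx | hx)
    · have := Tm.fv_le_code s x hx
      have := Nat.left_le_pair s.code t.code
      simp only [Fm.code]; omega
    · have := Tm.fv_le_code t x hx
      have := Nat.right_le_pair s.code t.code
      simp only [Fm.code]; omega
  | lt s t =>
    refine ⟨?_, fun x hx => hx.elim⟩
    rintro x (hx | hx)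
    · have := Tm.fv_le_code s x hx
      have := Nat.left_le_pair s.code t.code
      simp only [Fm.code]; omega
    · have := Tm.fv_le_code t x hx
      have := Nat.right_le_pair s.code t.code
      simp only [Fm.code]; omega
  | mem t i =>
    constructor
    · intro x hx
      have := Tm.fv_le_code t x hx
      have := Nat.left_le_pair t.code i
      simp only [Fm.code]; omega
    · intro x hx
      simp only [Fm.fvS, Set.mem_singleton_iff] at hx
      have := Nat.right_le_pair t.code i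
      simp only [Fm.code]; omega
  | neg φ ih =>
    constructor
    · intro x hx
      have := ih.1 x hx
      simp only [Fm.code]; omega
    · intro x hx
      have := ih.2 x hx
      simp only [Fm.code]; omega
  | and φ ψ ih1 ih2 =>
    have h1 := Nat.left_le_pair φ.code ψ.code
    have h2 := Nat.right_le_pair φ.code ψ.code
    constructor
    · rintro x (hx | hx)
      · have := ih1.1 x hx
        simp only [Fm.code]; omega
      · have := ih2.1 x hx
        simp only [Fm.code]; omega
    · rintro x (hx | hx)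
      · have := ih1.2 x hx
        simp only [Fm.code]; omega
      · have := ih2.2 x hx
        simp only [Fm.code]; omega
  | all i φ ih =>
    have h2 := Nat.right_le_pair i φ.code
    constructor
    · intro x hx
      have := ih.1 x hx.1
      simp only [Fm.code]; omega
    · intro x hx
      have := ih.2 x hx
      simp only [Fm.code]; omega
  | allS i φ ih =>
    have h2 := Nat.right_le_pair i φ.code
    constructor
    · intro x hx
      have := ih.1 x hx
      simp only [Fm.code]; omega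
    · intro x hx
      have := ih.2 x hx.1
      simp only [Fm.code]; omega

theorem Tm.code_surj : ∀ n : ℕ, ∃ t : Tm, t.code = n := by
  intro n
  induction n using Nat.strong_induction_on with
  | _ n ih =>
    rcases Nat.lt_or_ge n 2 with h | h
    · interval_cases n
      · exact ⟨.zero, rfl⟩
      · exact ⟨.one, rfl⟩
    · obtain ⟨q, r, hr, hn⟩ : ∃ q r, r < 3 ∧ n = 3 * q + r + 2 := ⟨(n - 2) / 3, (n - 2) % 3,
        Nat.mod_lt _ (by norm_num), by omega⟩
      interval_cases r
      · exact ⟨.var q, by simp only [Tm.code]; omega⟩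
      · have h1 := Nat.unpair_left_le q
        have h2 := Nat.unpair_right_le q
        obtain ⟨s, hs⟩ := ih (Nat.unpair q).1 (by omega)
        obtain ⟨t, ht⟩ := ih (Nat.unpair q).2 (by omega)
        exact ⟨.add s t, by simp only [Tm.code, hs, ht, Nat.pair_unpair]; omega⟩
      · have h1 := Nat.unpair_left_le q
        have h2 := Nat.unpair_right_le q
        obtain ⟨s, hs⟩ := ih (Nat.unpair q).1 (by omega)
        obtain ⟨t, ht⟩ := ih (Nat.unpair q).2 (by omega)
        exact ⟨.mul s t, by simp only [Tm.code, hs, ht, Nat.pair_unpair]; omega⟩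

/-- Every natural number is the Goedel number of a formula. -/
theorem Fm.code_surj : ∀ n : ℕ, ∃ φ : Fm, φ.code = n := by
  intro n
  induction n using Nat.strong_induction_on with
  | _ n ih =>
    obtain ⟨q, r, hr, hn⟩ : ∃ q r, r < 7 ∧ n = 7 * q + r := ⟨n / 7, n % 7,
      Nat.mod_lt _ (by norm_num), by omega⟩
    have h1 := Nat.unpair_left_le q
    have h2 := Nat.unpair_right_le q
    obtain ⟨s, hs⟩ := Tm.code_surj (Nat.unpair q).1
    obtain ⟨t, ht⟩ := Tm.code_surj (Nat.unpair q).2
    interval_cases r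
    · exact ⟨.eq s t, by simp only [Fm.code, hs, ht, Nat.pair_unpair]; omega⟩
    · exact ⟨.lt s t, by simp only [Fm.code, hs, ht, Nat.pair_unpair]; omega⟩
    · exact ⟨.mem s (Nat.unpair q).2, by simp only [Fm.code, hs, Nat.pair_unpair]; omega⟩
    · obtain ⟨φ, hφ⟩ := ih q (by omega)
      exact ⟨.neg φ, by simp only [Fm.code, hφ]; omega⟩
    · obtain ⟨φ, hφ⟩ := ih (Nat.unpair q).1 (by omega)
      obtain ⟨ψ, hψ⟩ := ih (Nat.unpair q).2 (by omega)
      exact ⟨.and φ ψ, by simp only [Fm.code, hφ, hψ, Nat.pair_unpair]; omega⟩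
    · obtain ⟨ψ, hψ⟩ := ih (Nat.unpair q).2 (by omega)
      exact ⟨.all (Nat.unpair q).1 ψ, by simp only [Fm.code, hψ, Nat.pair_unpair]; omega⟩
    · obtain ⟨ψ, hψ⟩ := ih (Nat.unpair q).2 (by omega)
      exact ⟨.allS (Nat.unpair q).1 ψ, by simp only [Fm.code, hψ, Nat.pair_unpair]; omega⟩

end Pool.Agent.H986R3.SOB
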