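import Pool.Agent.H986R3.SOBTheory

set_option autoImplicit false

namespace Pool.Agent.H986R3.SOB

open Function

namespace Arithmetization

variable (𝒜 : Arithmetization)

/-- Each proof uses no non-logical axiom or a largest one. -/
def F1 : Fm := .all 1 (.or (.all 0 (.neg 𝒜.axIn)) (.ex 3 (.and
  (.all 0 (.imp 𝒜.axIn (.neg (.lt (.var 3) (.var 0)))))
  (.all 0 (.imp (.eq (.var 0) (.var 3)) 𝒜.axIn)))))

/-- `Pi^1_1` sentences with a proof without non-logical axioms are true. -/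
def F2 : Fm := .all 1 (.all 2 (.imp (.and 𝒜.prf (.and 𝒜.isPi (.all 0 (.neg 𝒜.axIn)))) 𝒜.tr))

def AX (M : Model) (p a : M.Num) : Prop := Sat M (asg a p a) (fun _ => ∅) 𝒜.axIn
def PRF (M : Model) (p x : M.Num) : Prop := Sat M (asg x p x) (fun _ => ∅) 𝒜.prf
def PI (M : Model) (x : M.Num) : Prop := Sat M (asg x x x) (fun _ => ∅) 𝒜.isPi
def TR (M : Model) (x : M.Num) : Prop := Sat M (asg x x x) (fun _ => ∅) 𝒜.tr

end Arithmetization

/-- The truth value in `M` of a formula with free variable `0`. -/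
def TAU (τ : Fm) (M : Model) (a : M.Num) : Prop := Sat M (asg a a a) (fun _ => ∅) τ

theorem sat_free {φ : Fm} {s : Set ℕ} (h : φ.FreeIn s) (M : Model) (v w : ℕ → M.Num)
    (V W : ℕ → Set M.Num) (hv : ∀ i ∈ s, v i = w i) : Sat M v V φ ↔ Sat M w W φ :=
  Sat_congr M φ v w V W (fun i hi => hv i (h.1 hi)) (fun i hi => by rw [h.2] at hi; exact hi.elim)

theorem FreeIn.mem {φ : Fm} {s : Set ℕ} (h : φ.FreeIn s) (x : ℕ) : x ∈ φ.fvN → x ∈ s :=
  fun hx => h.1 hx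

section
variable (𝒜 : Arithmetization) (M : Model) (v : ℕ → M.Num) (V : ℕ → Set M.Num)

theorem sat_axIn : Sat M v V 𝒜.axIn ↔ 𝒜.AX M (v 1) (v 0) := by
  refine sat_free 𝒜.axIn_free M _ _ _ _ ?_
  rintro i (rfl | rfl) <;> rfl

theorem sat_prf : Sat M v V 𝒜.prf ↔ 𝒜.PRF M (v 1) (v 2) := by
  refine sat_free 𝒜.prf_free M _ _ _ _ ?_
  rintro i (rfl | rfl) <;> rfl

theorem sat_isPi : Sat M v V 𝒜.isPi ↔ 𝒜.PI M (v 2) := by
  refine sat_free 𝒜.isPi_free M _ _ _ _ ?_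
  rintro i rfl; rfl

theorem sat_tr : Sat M v V 𝒜.tr ↔ 𝒜.TR M (v 2) := by
  refine sat_free 𝒜.tr_free M _ _ _ _ ?_
  rintro i rfl; rfl

theorem sat_tau {τ : Fm} (hτ : τ.FreeIn {0}) : Sat M v V τ ↔ TAU τ M (v 0) := by
  refine sat_free hτ M _ _ _ _ ?_
  rintro i rfl; rfl

theorem sat_F1 : Sat M v V 𝒜.F1 ↔ ∀ p : M.Num, (∀ a, ¬ 𝒜.AX M p a) ∨
    ∃ m, (∀ a, 𝒜.AX M p a → ¬ M.lt m a) ∧ ∀ a, a = m → 𝒜.AX M p a := by
  simp only [Arithmetization.F1, Sat, Sat_or, Sat_ex, Sat_imp, sat_axIn, Tm.val, update_self,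
    update_of_ne (show (1 : ℕ) ≠ 0 by decide), update_of_ne (show (1 : ℕ) ≠ 3 by decide),
    update_of_ne (show (3 : ℕ) ≠ 0 by decide)]

theorem sat_F2 : Sat M v V 𝒜.F2 ↔ ∀ p x : M.Num, 𝒜.PRF M p x ∧ 𝒜.PI M x ∧ (∀ a, ¬ 𝒜.AX M p a) →
    𝒜.TR M x := by
  simp only [Arithmetization.F2, Sat, Sat_imp, sat_axIn, sat_prf, sat_isPi, sat_tr, update_self,
    update_of_ne (show (1 : ℕ) ≠ 0 by decide), update_of_ne (show (1 : ℕ) ≠ 2 by decide)]

theorem sat_reflection {τ : Fm} (hτ : τ.FreeIn {0}) : Sat M v V (𝒜.reflection τ) ↔ ∀ x : M.Num,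
    (𝒜.PI M x ∧ ∃ p, 𝒜.PRF M p x ∧ ∀ a, 𝒜.AX M p a → TAU τ M a) → 𝒜.TR M x := by
  simp only [Arithmetization.reflection, Arithmetization.Pr, Sat, Sat_imp, Sat_ex, sat_axIn,
    sat_prf, sat_isPi, sat_tr, sat_tau M _ _ hτ, update_self,
    update_of_ne (show (1 : ℕ) ≠ 0 by decide), update_of_ne (show (2 : ℕ) ≠ 1 by decide),
    update_of_ne (show (1 : ℕ) ≠ 2 by decide)]

end

/-- The condition on proofs in `tauStar`. -/
def X (𝒜 : Arithmetization) (τ : Fm) : Fm :=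
  .and 𝒜.prf (.and 𝒜.isPi (.all 0 (.imp 𝒜.axIn (.and τ (.neg (.lt (.var 3) (.var 0)))))))

/-- `a` satisfies `τ` and each `Pi^1_1` sentence with a proof from axioms `≤ a` that satisfy `τ` is
true; `ψ` is the matrix of the truth predicate `∀ X_i ψ`. -/
def tauStar (𝒜 : Arithmetization) (τ : Fm) (i : ℕ) (ψ : Fm) : Fm :=
  .allS i (.and τ (.all 3 (.imp (.eq (.var 3) (.var 0)) (.all 1 (.all 2 (.imp (X 𝒜 τ) ψ))))))

theorem sat_X (𝒜 : Arithmetization) (M : Model) (v : ℕ → M.Num) (V : ℕ → Set M.Num) {τ : Fm}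
    (hτ : τ.FreeIn {0}) : Sat M v V (X 𝒜 τ) ↔ 𝒜.PRF M (v 1) (v 2) ∧ 𝒜.PI M (v 2) ∧
      ∀ a, 𝒜.AX M (v 1) a → TAU τ M a ∧ ¬ M.lt (v 3) a := by
  simp only [X, Sat, Sat_imp, sat_axIn, sat_prf, sat_isPi, sat_tau M _ _ hτ, update_self, Tm.val,
    update_of_ne (show (1 : ℕ) ≠ 0 by decide), update_of_ne (show (3 : ℕ) ≠ 0 by decide)]

theorem sat_tauStar (𝒜 : Arithmetization) (M : Model) (v : ℕ → M.Num) (V : ℕ → Set M.Num) {τ : Fm}
    (hτ : τ.FreeIn {0}) {i : ℕ} {ψ : Fm} (htr : 𝒜.tr = .allS i ψ) :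
    Sat M v V (tauStar 𝒜 τ i ψ) ↔ TAU τ M (v 0) ∧ ∀ p x : M.Num, (𝒜.PRF M p x ∧ 𝒜.PI M x ∧
      ∀ a, 𝒜.AX M p a → TAU τ M a ∧ ¬ M.lt (v 0) a) → 𝒜.TR M x := by
  have htr2 : ∀ (w : ℕ → M.Num), (∀ A ∈ M.sets, Sat M w (update V i A) ψ) ↔ 𝒜.TR M (w 2) := by
    intro w
    rw [← sat_tr 𝒜 M w V, htr]
    rfl
  constructor
  · intro h
    obtain ⟨A₀, hA₀⟩ := M.sets_nonempty
    refine ⟨(sat_tau M _ _ hτ).mp (h A₀ hA₀).1, fun p x hX => ?_⟩
    have h3 := htr2 (update (update (update v 3 (v 0)) 1 p) 2 x)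
    rw [update_self] at h3
    rw [← h3]
    intro A hA
    have h4 := (h A hA).2 (v 0)
    rw [Sat_imp] at h4
    have h5 := h4 (by
      simp only [Sat, Tm.val, update_self, update_of_ne (show (0 : ℕ) ≠ 3 by decide)]) p x
    rw [Sat_imp, sat_X 𝒜 M _ _ hτ] at h5
    refine h5 ?_
    simpa only [update_self, update_of_ne (show (1 : ℕ) ≠ 2 by decide),
      update_of_ne (show (3 : ℕ) ≠ 2 by decide), update_of_ne (show (3 : ℕ) ≠ 1 by decide)] using hX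
  · rintro ⟨h1, h2⟩ A hA
    refine ⟨(sat_tau M _ _ hτ).mpr h1, fun b => ?_⟩
    rw [Sat_imp]
    intro hb p x
    have hb' : b = v 0 := by
      simpa only [Sat, Tm.val, update_self, update_of_ne (show (0 : ℕ) ≠ 3 by decide)] using hb
    rw [Sat_imp, sat_X 𝒜 M _ _ hτ]
    intro hX
    have h3 := htr2 (update (update (update v 3 b) 1 p) 2 x)
    rw [update_self] at h3
    refine (h3.mpr (h2 p x ?_)) A hA
    rw [← hb']
    simpa only [update_self, update_of_ne (show (1 : ℕ) ≠ 2 by decide),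
      update_of_ne (show (3 : ℕ) ≠ 2 by decide), update_of_ne (show (3 : ℕ) ≠ 1 by decide)] using hX

theorem X_arith (𝒜 : Arithmetization) {τ : Fm} (hτ : τ.Arithmetical) : (X 𝒜 τ).Arithmetical :=
  ⟨𝒜.prf_arith, 𝒜.isPi_arith, 𝒜.axIn_arith, hτ, trivial⟩

theorem X_free (𝒜 : Arithmetization) {τ : Fm} (hτ : τ.FreeIn {0}) : (X 𝒜 τ).FreeIn {1, 2, 3} := by
  have h1 := 𝒜.prf_free
  have h2 := 𝒜.isPi_free
  have h3 := 𝒜.axIn_free
  constructor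
  · intro x hx
    simp only [X, Fm.imp, Fm.fvN, Tm.fv, Set.mem_sdiff, Set.mem_union, Set.mem_singleton_iff] at hx
    have h1 := FreeIn.mem h1 x
    have h2 := FreeIn.mem h2 x
    have h3 := FreeIn.mem h3 x
    have h4 := FreeIn.mem hτ x
    simp only [Set.mem_insert_iff, Set.mem_singleton_iff] at h1 h2 h3 h4 ⊢
    tauto
  · simp [X, Fm.imp, Fm.fvS, h1.2, h2.2, h3.2, hτ.2]

theorem tauStar_pi (𝒜 : Arithmetization) {τ : Fm} (hτ : τ.Arithmetical) {i : ℕ} {ψ : Fm}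
    (hψ : ψ.Arithmetical) : (tauStar 𝒜 τ i ψ).IsPi11 :=
  ⟨i, _, rfl, hτ, trivial, X_arith 𝒜 hτ, hψ⟩

theorem tauStar_free (𝒜 : Arithmetization) {τ : Fm} (hτ : τ.FreeIn {0}) {i : ℕ} {ψ : Fm}
    (htr : 𝒜.tr = .allS i ψ) : (tauStar 𝒜 τ i ψ).FreeIn {0} := by
  have h1 := X_free 𝒜 hτ
  have h2 := 𝒜.tr_free
  rw [htr] at h2
  constructor
  · intro x hx
    simp only [tauStar, Fm.imp, Fm.fvN, Tm.fv, Set.mem_sdiff, Set.mem_union,
      Set.mem_singleton_iff] at hx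
    have h1 := FreeIn.mem h1 x
    have h2 := FreeIn.mem h2 x
    have h4 := FreeIn.mem hτ x
    simp only [Set.mem_insert_iff, Set.mem_singleton_iff, Fm.fvN] at h1 h2 h4 ⊢
    tauto
  · have h3 := h2.2
    simp only [Fm.fvS] at h3
    simp only [tauStar, Fm.imp, Fm.fvS, hτ.2, h1.2, Set.empty_union, h3]

theorem F1_sentence (𝒜 : Arithmetization) : 𝒜.F1.IsSentence := by
  have h3 := 𝒜.axIn_free
  constructor
  · refine Set.eq_empty_iff_forall_notMem.mpr fun x hx => ?_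
    simp only [Arithmetization.F1, Fm.or, Fm.ex, Fm.imp, Fm.fvN, Tm.fv, Set.mem_sdiff,
      Set.mem_union, Set.mem_singleton_iff] at hx
    have h3 := FreeIn.mem h3 x
    simp only [Set.mem_insert_iff, Set.mem_singleton_iff] at h3
    tauto
  · simp [Arithmetization.F1, Fm.or, Fm.ex, Fm.imp, Fm.fvS, h3.2]

theorem F2_sentence (𝒜 : Arithmetization) : 𝒜.F2.IsSentence := by
  have h1 := 𝒜.prf_free
  have h2 := 𝒜.isPi_free
  have h3 := 𝒜.axIn_free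
  have h4 := 𝒜.tr_free
  constructor
  · refine Set.eq_empty_iff_forall_notMem.mpr fun x hx => ?_
    simp only [Arithmetization.F2, Fm.imp, Fm.fvN, Set.mem_sdiff,
      Set.mem_union, Set.mem_singleton_iff] at hx
    have h1 := FreeIn.mem h1 x
    have h2 := FreeIn.mem h2 x
    have h3 := FreeIn.mem h3 x
    have h4 := FreeIn.mem h4 x
    simp only [Set.mem_insert_iff, Set.mem_singleton_iff] at h1 h2 h3 h4
    tauto
  · simp [Arithmetization.F2, Fm.imp, Fm.fvS, h1.2, h2.2, h3.2, h4.2]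

/-! Truth in the standard model. -/

theorem std_AX (𝒜 : Arithmetization) (p a : ℕ) : 𝒜.AX std p a ↔ SatN a p 0 𝒜.axIn :=
  (sat_axIn 𝒜 std (asg (A := ℕ) a p 0) (fun _ => (∅ : Set ℕ))).symm

theorem std_PRF (𝒜 : Arithmetization) (p x : ℕ) : 𝒜.PRF std p x ↔ SatN 0 p x 𝒜.prf :=
  (sat_prf 𝒜 std (asg (A := ℕ) 0 p x) (fun _ => (∅ : Set ℕ))).symm

theorem std_PI (𝒜 : Arithmetization) (x : ℕ) :
    𝒜.PI std x ↔ ∃ φ : Fm, φ.IsPi11Sentence ∧ φ.code = x :=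
  (sat_isPi 𝒜 std (asg (A := ℕ) 0 0 x) (fun _ => (∅ : Set ℕ))).symm.trans (𝒜.isPi_std x)

theorem std_aca : ∀ φ, ACA0 φ → std.Holds φ := by
  refine Th_aca (L := cbasics) (fun _ h => h) (std_Th fun φ hφ => ?_)
  obtain ⟨ψ, hψ, rfl⟩ := List.mem_map.mp hφ
  exact Holds_CL (std_basics ψ hψ) 2

theorem std_numeral (v : ℕ → ℕ) (n : ℕ) : (numeral n).val std v = n := by
  induction n with
  | zero => rfl
  | succ n ih => exact congrArg (· + 1) ih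

theorem sat_inst (M : Model) (v : ℕ → M.Num) (V : ℕ → Set M.Num) (φ : Fm) (n : ℕ)
    (h : Sat M v V (φ.inst n)) :
    Sat M (update v 2 ((numeral n).val M v)) V φ := by
  have h1 := h ((numeral n).val M v)
  rw [Sat_imp] at h1
  refine h1 ?_
  simp only [Sat, Tm.val, update_self]
  refine Tm.val_congr M _ _ _ fun i hi => ?_
  have : ∀ n, (numeral n).fv = ∅ := by
    intro n
    induction n with
    | zero => rfl
    | succ n ih => simp only [numeral, Tm.fv, ih, Set.union_empty]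
  rw [this] at hi
  exact hi.elim

theorem sat_inst_tr (𝒜 : Arithmetization) (M : Model) (v : ℕ → M.Num) (V : ℕ → Set M.Num) (n : ℕ)
    (h : Sat M v V (𝒜.tr.inst n)) : 𝒜.TR M ((numeral n).val M v) := by
  have h3 := (sat_tr 𝒜 M _ _).mp (sat_inst M _ _ _ _ h)
  rw [update_self] at h3
  exact h3

theorem std_TR (𝒜 : Arithmetization) {φ : Fm} (hφ : φ.IsPi11Sentence) (h : std.Holds φ) :
    𝒜.TR std φ.code := by
  have h1 := 𝒜.tr_proves φ hφ std (fun ψ hψ => std_aca ψ hψ) (fun _ => (0 : ℕ))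
    (fun _ => (∅ : Set ℕ)) (fun _ => trivial)
  have h2 := sat_inst_tr 𝒜 std _ _ _ (((Sat_iff std _ _ _ _).mp h1).mpr (h _ _ (fun _ => trivial)))
  have h3 := std_numeral (fun _ => 0) φ.code
  exact h3 ▸ h2

theorem std_F1 (𝒜 : Arithmetization) : std.Holds 𝒜.F1 := by
  intro v V _
  rw [sat_F1]
  intro p
  change ℕ at p
  have hfin := 𝒜.axIn_finite p
  by_cases hne : {a : ℕ | SatN a p 0 𝒜.axIn}.Nonempty
  · right
    obtain ⟨m, hm, hmax⟩ := hfin.exists_maximal hne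
    refine ⟨m, fun a ha => ?_, fun a ha => ?_⟩
    · intro hlt
      have h1 := (std_AX 𝒜 p a).mp ha
      have h2 : m < a := hlt
      exact absurd (hmax h1 h2.le) (not_le.mpr h2)
    · subst ha
      exact (std_AX 𝒜 p _).mpr hm
  · left
    intro a ha
    exact hne ⟨a, (std_AX 𝒜 p a).mp ha⟩

theorem std_F2 (𝒜 : Arithmetization) : std.Holds 𝒜.F2 := by
  intro v V _
  rw [sat_F2]
  rintro p x ⟨h1, h2, h3⟩
  obtain ⟨φ, hφ, rfl⟩ := (std_PI 𝒜 x).mp h2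
  refine std_TR 𝒜 hφ ?_
  have h4 : Proves ∅ φ := (𝒜.prf_correct ∅ (fun _ h => h.elim) φ hφ.2).mpr
    ⟨p, (std_PRF 𝒜 p _).mp h1, fun a ha => absurd ((std_AX 𝒜 p a).mpr ha) (h3 a)⟩
  exact h4 std (fun _ h => h.elim)

/-- The theory. -/
def theT (𝒜 : Arithmetization) : Set Fm := Th (cbasics ++ [𝒜.F1, 𝒜.F2])

theorem theT_std (𝒜 : Arithmetization) : ∀ φ ∈ theT 𝒜, std.Holds φ := by
  refine std_Th fun φ hφ => ?_
  simp only [List.mem_append, List.mem_cons, List.not_mem_nil, or_false] at hφ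
  rcases hφ with hφ | rfl | rfl
  · obtain ⟨ψ, hψ, rfl⟩ := List.mem_map.mp hφ
    exact Holds_CL (std_basics ψ hψ) 2
  · exact std_F1 𝒜
  · exact std_F2 𝒜

theorem theT_sentence (𝒜 : Arithmetization) : ∀ φ ∈ theT 𝒜, φ.IsSentence := by
  refine Th_sentence fun φ hφ => ?_
  simp only [List.mem_append, List.mem_cons, List.not_mem_nil, or_false] at hφ
  rcases hφ with hφ | rfl | rfl
  · exact cbasics_sentence φ hφ
  · exact F1_sentence 𝒜
  · exact F2_sentence 𝒜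

theorem theT_sound (𝒜 : Arithmetization) {φ : Fm} (h : Proves (theT 𝒜) φ) : std.Holds φ :=
  h std (theT_std 𝒜)

theorem theT_ext (𝒜 : Arithmetization) : ExtendsSigma11AC (theT 𝒜) :=
  ⟨theT_sentence 𝒜, Th_sigma fun _ h => List.mem_append_left _ h⟩

theorem theT_own (𝒜 : Arithmetization) : ProvesOwnSoundness 𝒜 (theT 𝒜) := by
  obtain ⟨τ, ha, hf, hτ⟩ := exists_tau0 (cbasics ++ [𝒜.F1, 𝒜.F2])
  obtain ⟨i, ψ, htr, hψ⟩ := 𝒜.tr_pi
  have hτ' : ∀ n : ℕ, TAU τ std n ↔ ∃ φ ∈ theT 𝒜, φ.code = n := fun n =>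
    hτ (asg (A := ℕ) n n n)
  refine ⟨tauStar 𝒜 τ i ψ, ⟨tauStar_pi 𝒜 ha hψ, tauStar_free 𝒜 hf htr, fun n => ?_⟩, ?_⟩
  · refine (sat_tauStar 𝒜 std _ _ hf htr).trans ?_
    constructor
    · rintro ⟨h1, _⟩
      exact (hτ' n).mp h1
    · intro h1
      refine ⟨(hτ' n).mpr h1, ?_⟩
      rintro p x ⟨h2, h3, h4⟩
      obtain ⟨φ, hφ, rfl⟩ := (std_PI 𝒜 x).mp h3
      refine std_TR 𝒜 hφ (theT_sound 𝒜 ?_)
      refine (𝒜.prf_correct _ (theT_sentence 𝒜) φ hφ.2).mpr ⟨p, (std_PRF 𝒜 p _).mp h2, fun a ha => ?_⟩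
      exact (hτ' a).mp (h4 a ((std_AX 𝒜 p a).mpr ha)).1
  · intro M hM v V hV
    have hF1 := hM 𝒜.F1 (Or.inl (List.mem_append_right _ (by simp))) v V hV
    have hF2 := hM 𝒜.F2 (Or.inl (List.mem_append_right _ (by simp))) v V hV
    rw [sat_F1] at hF1
    rw [sat_F2] at hF2
    rw [sat_reflection 𝒜 M v V (tauStar_free 𝒜 hf htr)]
    rintro x ⟨hx, p, hp, hax⟩
    have hstar : ∀ a, TAU (tauStar 𝒜 τ i ψ) M a ↔ TAU τ M a ∧ ∀ q y : M.Num, (𝒜.PRF M q y ∧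
        𝒜.PI M y ∧ ∀ c, 𝒜.AX M q c → TAU τ M c ∧ ¬ M.lt a c) → 𝒜.TR M y :=
      fun a => sat_tauStar 𝒜 M _ _ hf htr
    rcases hF1 p with h0 | ⟨m, hm1, hm2⟩
    · exact hF2 p x ⟨hp, hx, h0⟩
    · have hm := (hstar m).mp (hax m (hm2 m rfl))
      exact hm.2 p x ⟨hp, hx, fun a ha => ⟨((hstar a).mp (hax a ha)).1, hm1 a ha⟩⟩

end Pool.Agent.H986R3.SOB
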