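import Pool.Agent.H986R3.SOBDef

set_option autoImplicit false

namespace Pool.Agent.H986R3.SOB

open Function Pool.Agent.Helper180.ArithDef

/-! A recursive set of true sentences that proves all axioms of `Sigma^1_1-AC_0`. -/

def basics : List Fm :=
  [.neg (.eq (.add (.var 0) .one) .zero),
   .imp (.eq (.add (.var 0) .one) (.add (.var 1) .one)) (.eq (.var 0) (.var 1)),
   .eq (.add (.var 0) .zero) (.var 0),
   .eq (.add (.var 0) (.add (.var 1) .one)) (.add (.add (.var 0) (.var 1)) .one),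
   .eq (.mul (.var 0) .zero) .zero,
   .eq (.mul (.var 0) (.add (.var 1) .one)) (.add (.mul (.var 0) (.var 1)) (.var 0)),
   .neg (.lt (.var 0) .zero),
   .iff (.lt (.var 0) (.add (.var 1) .one)) (.or (.lt (.var 0) (.var 1)) (.eq (.var 0) (.var 1))),
   .imp (.and (.mem .zero 0)
      (.all 0 (.imp (.mem (.var 0) 0) (.mem (.add (.var 0) .one) 0)))) (.all 0 (.mem (.var 0) 0))]

def compAx (φ : Fm) (i j : ℕ) : Fm := .exS j (.all i (.iff (.mem (.var i) j) φ))

def choiceAx (η : Fm) (n m i j : ℕ) : Fm :=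
  .imp (.all n (.exS i η)) (.exS j (.all n (.exS i (.and
        (.all m (.iff (.mem (.var m) i) (.mem (prT (.var n) (.var m)) j))) η))))

def compS (φ : Fm) (i : ℕ) : Fm := CL (φ.code + i + 1) (compAx φ i (φ.code + i + 1))

def choiceS (η : Fm) (n i : ℕ) : Fm :=
  CL (η.code + n + i + 1) (choiceAx η n (η.code + n + i + 1) i (η.code + n + i + 1))

/-- The theory given by a list of sentences, comprehension and choice. -/
def Th (L : List Fm) : Set Fm :=
  {θ | θ ∈ L ∨ (∃ φ i, θ = compS φ i) ∨ (∃ η n i, θ = choiceS η n i)}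

/-- The closures of the basic axioms. -/
def cbasics : List Fm := basics.map (CL 2)

theorem compS_sentence (φ : Fm) (i : ℕ) : (compS φ i).IsSentence := by
  have hc := Fm.fv_le_code φ
  refine CL_sentence ?_ ?_
  · intro x hx
    simp only [compAx, Fm.exS, Fm.iff, Fm.imp, Fm.fvN, Tm.fv, Set.mem_sdiff, Set.mem_union,
      Set.mem_singleton_iff] at hx
    obtain ⟨hx, hne⟩ := hx
    have : x ∈ φ.fvN := by tauto
    have := hc.1 x this
    omega
  · intro x hx
    simp only [compAx, Fm.exS, Fm.iff, Fm.imp, Fm.fvS, Set.mem_sdiff, Set.mem_union,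
      Set.mem_singleton_iff] at hx
    obtain ⟨hx, hne⟩ := hx
    have : x ∈ φ.fvS := by tauto
    have := hc.2 x this
    omega

theorem choiceS_sentence (φ : Fm) (n i : ℕ) : (choiceS φ n i).IsSentence := by
  have hc := Fm.fv_le_code φ
  refine CL_sentence ?_ ?_
  · intro x hx
    simp only [choiceAx, prT, Fm.exS, Fm.iff, Fm.imp, Fm.fvN, Tm.fv, Set.mem_sdiff, Set.mem_union,
      Set.mem_singleton_iff] at hx
    have : x ∈ φ.fvN := by tauto
    have := hc.1 x this
    omega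
  · intro x hx
    simp only [choiceAx, prT, Fm.exS, Fm.iff, Fm.imp, Fm.fvS, Set.mem_sdiff, Set.mem_union,
      Set.mem_singleton_iff] at hx
    have : x ∈ φ.fvS := by tauto
    have := hc.2 x this
    omega

theorem cbasics_sentence : ∀ φ ∈ cbasics, φ.IsSentence := by
  intro φ hφ
  obtain ⟨ψ, hψ, rfl⟩ := List.mem_map.mp hφ
  refine CL_sentence ?_ ?_
  · intro x hx
    simp only [basics, List.mem_cons, List.not_mem_nil, or_false] at hψ
    rcases hψ with rfl | rfl | rfl | rfl | rfl | rfl | rfl | rfl | rfl <;>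
    · simp only [Fm.iff, Fm.imp, Fm.or, Fm.fvN, Tm.fv, Set.mem_sdiff, Set.mem_union,
        Set.mem_singleton_iff, Set.mem_empty_iff_false, or_false, false_or, and_not_self] at hx
      omega
  · intro x hx
    simp only [basics, List.mem_cons, List.not_mem_nil, or_false] at hψ
    rcases hψ with rfl | rfl | rfl | rfl | rfl | rfl | rfl | rfl | rfl <;>
    · simp only [Fm.iff, Fm.imp, Fm.or, Fm.fvS, Set.mem_sdiff, Set.mem_union,
        Set.mem_singleton_iff, Set.mem_empty_iff_false, or_false, false_or, and_not_self] at hx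
      try omega

theorem Sat_mem_var (M : Model) (v : ℕ → M.Num) (V : ℕ → Set M.Num) (i j : ℕ) (a : M.Num) :
    Sat M (update v i a) V (.mem (.var i) j) ↔ a ∈ V j := by
  simp only [Sat, Tm.val, update_self]

theorem Sat_mem_succ (M : Model) (v : ℕ → M.Num) (V : ℕ → Set M.Num) (i j : ℕ) (a : M.Num) :
    Sat M (update v i a) V (.mem (.add (.var i) .one) j) ↔ M.add a M.one ∈ V j := by
  simp only [Sat, Tm.val, update_self]

theorem Sat_ind (M : Model) (v : ℕ → M.Num) (V : ℕ → Set M.Num)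
    (h : ∀ A : Set M.Num, M.zero ∈ A → (∀ a, a ∈ A → M.add a M.one ∈ A) → ∀ a, a ∈ A) :
    Sat M v V (.imp (.and (.mem .zero 0)
      (.all 0 (.imp (.mem (.var 0) 0) (.mem (.add (.var 0) .one) 0)))) (.all 0 (.mem (.var 0) 0))) := by
  rw [Sat_imp]
  rintro ⟨h0, h1⟩ a
  rw [Sat_mem_var]
  refine h (V 0) h0 (fun a ha => ?_) a
  have h3 := h1 a
  rw [Sat_imp, Sat_mem_var, Sat_mem_succ] at h3
  exact h3 ha

theorem std_basics : ∀ φ ∈ basics, std.Holds φ := by
  intro φ hφ v V _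
  simp only [basics, List.mem_cons, List.not_mem_nil, or_false] at hφ
  rcases hφ with rfl | rfl | rfl | rfl | rfl | rfl | rfl | rfl | rfl
  · exact Nat.succ_ne_zero (v 0)
  · rw [Sat_imp]
    exact fun h => Nat.succ_injective h
  · rfl
  · rfl
  · rfl
  · rfl
  · exact Nat.not_lt_zero (v 0)
  · rw [Sat_iff, Sat_or]
    exact Nat.lt_succ_iff_lt_or_eq
  · exact Sat_ind std v V fun A h0 h1 a => Nat.rec (motive := fun a : ℕ => a ∈ (A : Set ℕ)) h0
      (fun a ih => h1 a ih) a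

theorem std_comp (φ : Fm) (i j : ℕ) (hj : j ∉ φ.fvS) : std.Holds (compAx φ i j) := by
  intro v V _
  rw [compAx, Sat_exS]
  refine ⟨{a | Sat std (update v i a) V φ}, trivial, fun a => ?_⟩
  rw [Sat_iff]
  have h1 : Sat std (update v i a) (update V j {a | Sat std (update v i a) V φ})
      (.mem (.var i) j) ↔ Sat std (update v i a) V φ := by
    simp only [Sat, Tm.val, update_self]
    rfl
  rw [h1]
  refine Sat_congr std φ _ _ _ _ (fun _ _ => rfl) fun k hk => ?_
  rw [update_of_ne]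
  rintro rfl
  exact hj hk

theorem pr_inj {a b a' b' : ℕ} (h : (a + b) * (a + b) + a = (a' + b') * (a' + b') + a') :
    a = a' ∧ b = b' := by
  have h1 : a + b = a' + b' := by
    by_contra hne
    rcases Nat.lt_or_gt_of_ne hne with hlt | hlt
    · have : (a + b + 1) * (a + b + 1) ≤ (a' + b') * (a' + b') := Nat.mul_le_mul hlt hlt
      nlinarith
    · have : (a' + b' + 1) * (a' + b' + 1) ≤ (a + b) * (a + b) := Nat.mul_le_mul hlt hlt
      nlinarith
  rw [h1] at h
  omega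

theorem Holds_choice (M : Model) (hs : ∀ A, A ∈ M.sets) (hp : ∀ a b a' b' : M.Num,
    M.add (M.mul (M.add a b) (M.add a b)) a = M.add (M.mul (M.add a' b') (M.add a' b')) a' →
    a = a' ∧ b = b') (η : Fm) (n m i j : ℕ) (hj : j ∉ η.fvS) (hji : j ≠ i) (hmn : m ≠ n) :
    M.Holds (choiceAx η n m i j) := by
  intro v V _
  rw [choiceAx, Sat_imp]
  intro h
  have h1 : ∀ a : M.Num, ∃ A : Set M.Num, Sat M (update v n a) (update V i A) η := by
    intro a
    have := h a
    rw [Sat_exS] at this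
    obtain ⟨A, _, hA⟩ := this
    exact ⟨A, hA⟩
  choose f hf using h1
  rw [Sat_exS]
  refine ⟨{k : M.Num | ∃ a b : M.Num, k = M.add (M.mul (M.add a b) (M.add a b)) a ∧ b ∈ f a},
    hs _, fun a => ?_⟩
  rw [Sat_exS]
  refine ⟨f a, hs _, fun b => ?_, ?_⟩
  · rw [Sat_iff]
    simp only [Sat, Tm.val, prT, update_self, update_of_ne hji, update_of_ne hmn.symm]
    constructor
    · intro hb
      exact ⟨a, b, rfl, hb⟩
    · rintro ⟨a', b', hab, hb'⟩
      obtain ⟨rfl, rfl⟩ := hp _ _ _ _ hab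
      exact hb'
  · refine (Sat_congr M η _ _ _ _ (fun _ _ => rfl) fun k hk => ?_).mp (hf a)
    by_cases hki : k = i
    · subst hki; simp
    · have hkj : k ≠ j := by rintro rfl; exact hj hk
      rw [update_of_ne hki, update_of_ne hki, update_of_ne hkj]

theorem std_choice (η : Fm) (n m i j : ℕ) (hj : j ∉ η.fvS) (hji : j ≠ i) (hmn : m ≠ n) :
    std.Holds (choiceAx η n m i j) :=
  Holds_choice std (fun _ => trivial) (fun _ _ _ _ h => pr_inj h) η n m i j hj hji hmn

theorem fresh_S (φ : Fm) (k : ℕ) : φ.code + k + 1 ∉ φ.fvS := by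
  intro h
  have := (Fm.fv_le_code φ).2 _ h
  omega

theorem std_Th {L : List Fm} (hL : ∀ φ ∈ L, std.Holds φ) : ∀ φ ∈ Th L, std.Holds φ := by
  rintro φ (h | ⟨ψ, i, rfl⟩ | ⟨η, n, i, rfl⟩)
  · exact hL φ h
  · exact Holds_CL (std_comp _ _ _ (fresh_S _ _)) _
  · refine Holds_CL (std_choice _ _ _ _ _ ?_ (by omega) (by omega)) _
    have := fresh_S η (n + i)
    rwa [← add_assoc] at this

theorem Th_sentence {L : List Fm} (hL : ∀ φ ∈ L, φ.IsSentence) : ∀ φ ∈ Th L, φ.IsSentence := by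
  rintro φ (h | ⟨ψ, i, rfl⟩ | ⟨η, n, i, rfl⟩)
  · exact hL φ h
  · exact compS_sentence _ _
  · exact choiceS_sentence _ _ _

theorem Th_aca {L : List Fm} (hL : ∀ φ ∈ cbasics, φ ∈ L) {M : Model} (hM : ∀ ψ ∈ Th L, M.Holds ψ) :
    ∀ φ, ACA0 φ → M.Holds φ := by
  have hb : ∀ φ ∈ basics, M.Holds φ := fun φ hφ =>
    Holds_of_CL (hM _ (Or.inl (hL _ (List.mem_map.mpr ⟨φ, hφ, rfl⟩))))
  intro φ hφ
  cases hφ with
  | succ_ne_zero => exact hb _ (by simp [basics])
  | succ_inj => exact hb _ (by simp [basics])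
  | add_zero => exact hb _ (by simp [basics])
  | add_succ => exact hb _ (by simp [basics])
  | mul_zero => exact hb _ (by simp [basics])
  | mul_succ => exact hb _ (by simp [basics])
  | not_lt_zero => exact hb _ (by simp [basics])
  | lt_succ => exact hb _ (by simp [basics])
  | induction => exact hb _ (by simp [basics])
  | comprehension φ i j _ hj =>
    have h1 : M.Holds (compAx φ i (φ.code + i + 1)) := Holds_of_CL (hM _ (Or.inr (Or.inl ⟨φ, i, rfl⟩)))
    intro v V hV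
    have h2 := h1 v V hV
    rw [compAx, Sat_exS] at h2
    obtain ⟨Y, hY, hY2⟩ := h2
    rw [Sat_exS]
    refine ⟨Y, hY, fun a => ?_⟩
    have h3 := hY2 a
    rw [Sat_iff] at h3 ⊢
    have e1 : ∀ k, Sat M (update v i a) (update V k Y) (.mem (.var i) k) ↔ a ∈ Y := by
      intro k
      simp only [Sat, Tm.val, update_self]
    rw [e1] at h3 ⊢
    rw [h3]
    refine Sat_congr M φ _ _ _ _ (fun _ _ => rfl) fun k hk => ?_
    have hkj : k ≠ j := by rintro rfl; exact hj hk
    have hkN : k ≠ φ.code + i + 1 := by rintro rfl; exact fresh_S φ i hk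
    rw [update_of_ne hkj, update_of_ne hkN]

theorem Th_sigma {L : List Fm} (hL : ∀ φ ∈ cbasics, φ ∈ L) : ∀ φ, Sigma11AC φ → Proves (Th L) φ := by
  intro φ hφ M hM
  cases hφ with
  | aca φ h => exact Th_aca hL hM φ h
  | choice η n m i j _ hj hji hmn =>
    have h1 : M.Holds (choiceAx η n (η.code + n + i + 1) i (η.code + n + i + 1)) :=
      Holds_of_CL (hM _ (Or.inr (Or.inr ⟨η, n, i, rfl⟩)))
    have hfr : η.code + n + i + 1 ∉ η.fvS := by
      have := fresh_S η (n + i)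
      rwa [← add_assoc] at this
    have hN1 : η.code + n + i + 1 ≠ i := by omega
    have hN2 : n ≠ η.code + n + i + 1 := by omega
    generalize η.code + n + i + 1 = N at h1 hfr hN1 hN2
    intro v V hV
    have h2 := h1 v V hV
    rw [choiceAx, Sat_imp] at h2
    rw [Sat_imp]
    intro h
    have h3 := h2 h
    rw [Sat_exS] at h3 ⊢
    obtain ⟨Y, hY, hY2⟩ := h3
    refine ⟨Y, hY, fun a => ?_⟩
    have h4 := hY2 a
    rw [Sat_exS] at h4 ⊢
    obtain ⟨A, hA, h5, h6⟩ := h4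
    refine ⟨A, hA, fun b => ?_, ?_⟩
    · have h7 := h5 b
      rw [Sat_iff] at h7 ⊢
      simp only [Sat, Tm.val, prT, update_self, update_of_ne hji, update_of_ne hmn.symm,
        update_of_ne hN1, update_of_ne hN2] at h7 ⊢
      exact h7
    · refine (Sat_congr M η _ _ _ _ (fun _ _ => rfl) fun k hk => ?_).mp h6
      by_cases hki : k = i
      · subst hki; simp
      · have hkj : k ≠ j := by rintro rfl; exact hj hk
        have hkN : k ≠ N := by rintro rfl; exact hfr hk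
        rw [update_of_ne hki, update_of_ne hki, update_of_ne hkj, update_of_ne hkN]

/-! The set of codes of `Th L` is arithmetical. -/

def cimp (a b : ℕ) : ℕ := 7 * (7 * Nat.pair a (7 * b + 3) + 4) + 3
def ciff (a b : ℕ) : ℕ := 7 * Nat.pair (cimp a b) (cimp b a) + 4
def cexS (i a : ℕ) : ℕ := 7 * (7 * Nat.pair i (7 * a + 3) + 6) + 3
def call (i a : ℕ) : ℕ := 7 * Nat.pair i a + 5
def cvar (i : ℕ) : ℕ := 3 * i + 2
def cmem (t i : ℕ) : ℕ := 7 * Nat.pair t i + 2
def cadd (s t : ℕ) : ℕ := 3 * Nat.pair s t + 3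
def cmul (s t : ℕ) : ℕ := 3 * Nat.pair s t + 4
def cpr (s t : ℕ) : ℕ := cadd (cmul (cadd s t) (cadd s t)) s
def ccomp (c i j : ℕ) : ℕ := cexS j (call i (ciff (cmem (cvar i) j) c))
def cchoice (c n m i j : ℕ) : ℕ :=
  cimp (call n (cexS i c)) (cexS j (call n (cexS i
    (7 * Nat.pair (call m (ciff (cmem (cvar m) i) (cmem (cpr (cvar n) (cvar m)) j))) c + 4))))

theorem code_imp (φ ψ : Fm) : (Fm.imp φ ψ).code = cimp φ.code ψ.code := by
  simp only [Fm.imp, Fm.code, cimp]
theorem code_iff (φ ψ : Fm) : (Fm.iff φ ψ).code = ciff φ.code ψ.code := by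
  simp only [Fm.iff, Fm.code, ciff, code_imp]
theorem code_exS (i : ℕ) (φ : Fm) : (Fm.exS i φ).code = cexS i φ.code := by
  simp only [Fm.exS, Fm.code, cexS]

theorem code_compAx (φ : Fm) (i j : ℕ) : (compAx φ i j).code = ccomp φ.code i j := by
  simp only [compAx, code_exS, Fm.code, code_iff, ccomp, call, cmem, cvar, Tm.code]

theorem code_choiceAx (η : Fm) (n m i j : ℕ) :
    (choiceAx η n m i j).code = cchoice η.code n m i j := by
  simp only [choiceAx, code_imp, code_exS, Fm.code, code_iff, cchoice, call, cmem, cvar, Tm.code,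
    prT, cpr, cadd, cmul]

section
variable {D : ((ℕ → ℕ) → Prop) → Prop} (h : DC D)
include h

theorem tlin3 (k : ℕ) {F : (ℕ → ℕ) → ℕ} (hF : DT D F) : DT D (fun w => 3 * F w + k) :=
  h.tadd (h.tmul (tconst h 3) hF) (tconst h k)

variable {F G : (ℕ → ℕ) → ℕ}

theorem tcimp (hF : DT D F) (hG : DT D G) : DT D (fun w => cimp (F w) (G w)) :=
  tlin h 3 (tlin h 4 (h.tpair hF (tlin h 3 hG)))
theorem tciff (hF : DT D F) (hG : DT D G) : DT D (fun w => ciff (F w) (G w)) :=
  tlin h 4 (h.tpair (tcimp h hF hG) (tcimp h hG hF))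
theorem tcexS (hF : DT D F) (hG : DT D G) : DT D (fun w => cexS (F w) (G w)) :=
  tlin h 3 (tlin h 6 (h.tpair hF (tlin h 3 hG)))
theorem tcall (hF : DT D F) (hG : DT D G) : DT D (fun w => call (F w) (G w)) :=
  tlin h 5 (h.tpair hF hG)
theorem tcvar (hF : DT D F) : DT D (fun w => cvar (F w)) := tlin3 h 2 hF
theorem tcmem (hF : DT D F) (hG : DT D G) : DT D (fun w => cmem (F w) (G w)) :=
  tlin h 2 (h.tpair hF hG)
theorem tcadd (hF : DT D F) (hG : DT D G) : DT D (fun w => cadd (F w) (G w)) :=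
  tlin3 h 3 (h.tpair hF hG)
theorem tcmul (hF : DT D F) (hG : DT D G) : DT D (fun w => cmul (F w) (G w)) :=
  tlin3 h 4 (h.tpair hF hG)
theorem tcpr (hF : DT D F) (hG : DT D G) : DT D (fun w => cpr (F w) (G w)) :=
  tcadd h (tcmul h (tcadd h hF hG) (tcadd h hF hG)) hF

theorem tccomp {I J : (ℕ → ℕ) → ℕ} (hF : DT D F) (hI : DT D I) (hJ : DT D J) :
    DT D (fun w => ccomp (F w) (I w) (J w)) :=
  tcexS h hJ (tcall h hI (tciff h (tcmem h (tcvar h hI) hJ) hF))

theorem tcchoice {N M I J : (ℕ → ℕ) → ℕ} (hF : DT D F) (hN : DT D N) (hM : DT D M) (hI : DT D I)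
    (hJ : DT D J) : DT D (fun w => cchoice (F w) (N w) (M w) (I w) (J w)) :=
  tcimp h (tcall h hN (tcexS h hI hF)) (tcexS h hJ (tcall h hN (tcexS h hI
    (tlin h 4 (h.tpair (tcall h hM (tciff h (tcmem h (tcvar h hM) hI)
      (tcmem h (tcpr h (tcvar h hN) (tcvar h hM)) hJ))) hF)))))

theorem def_list (L : List Fm) : D (fun w => ∃ φ ∈ L, φ.code = w 0) := by
  induction L with
  | nil => exact h.iff (fun w => by simp) h.bot
  | cons φ L ih =>
    refine h.iff (fun w => ?_) (h.or (h.eq (tconst h φ.code) (h.tvar 0)) ih)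
    simp only [List.mem_cons, exists_eq_or_imp]

theorem def_comp : D (fun w => ∃ φ i, (compS φ i).code = w 0) := by
  refine h.iff (fun w => ?_) (h.ex' (S := fun c w => ∃ i,
    iter (Nat.pair (c + i + 1) (ccomp c i (c + i + 1))) = w 0)
    (h.ex' (S := fun i w => iter (Nat.pair (w 0 + i + 1) (ccomp (w 0) i (w 0 + i + 1))) = w 1)
      (h.eq (tapp h iter_primrec (h.tpair (h.tadd (h.tadd (h.tvar 1) (h.tvar 0)) h.tone)
        (tccomp h (h.tvar 1) (h.tvar 0) (h.tadd (h.tadd (h.tvar 1) (h.tvar 0)) h.tone))))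
        (h.tvar 2))))
  constructor
  · rintro ⟨c, i, hc⟩
    obtain ⟨φ, rfl⟩ := Fm.code_surj c
    exact ⟨φ, i, by rw [compS, code_CL, code_compAx, hc]⟩
  · rintro ⟨φ, i, hc⟩
    exact ⟨φ.code, i, by rw [← hc, compS, code_CL, code_compAx]⟩

theorem def_choice : D (fun w => ∃ φ n i, (choiceS φ n i).code = w 0) := by
  refine h.iff (fun w => ?_) (h.ex' (S := fun c w => ∃ n i,
    iter (Nat.pair (c + n + i + 1) (cchoice c n (c + n + i + 1) i (c + n + i + 1))) = w 0)
    (h.ex' (S := fun n w => ∃ i, iter (Nat.pair (w 0 + n + i + 1)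
        (cchoice (w 0) n (w 0 + n + i + 1) i (w 0 + n + i + 1))) = w 1)
      (h.ex' (S := fun i w => iter (Nat.pair (w 1 + w 0 + i + 1)
        (cchoice (w 1) (w 0) (w 1 + w 0 + i + 1) i (w 1 + w 0 + i + 1))) = w 2) ?_)))
  · constructor
    · rintro ⟨c, n, i, hc⟩
      obtain ⟨φ, rfl⟩ := Fm.code_surj c
      exact ⟨φ, n, i, by rw [choiceS, code_CL, code_choiceAx, hc]⟩
    · rintro ⟨φ, n, i, hc⟩
      exact ⟨φ.code, n, i, by rw [← hc, choiceS, code_CL, code_choiceAx]⟩
  · have hN : DT D (fun w => w 2 + w 1 + w 0 + 1) :=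
      h.tadd (h.tadd (h.tadd (h.tvar 2) (h.tvar 1)) (h.tvar 0)) h.tone
    exact h.eq (tapp h iter_primrec (h.tpair hN (tcchoice h (h.tvar 2) (h.tvar 1) hN (h.tvar 0) hN)))
      (h.tvar 3)

theorem def_Th (L : List Fm) : D (fun w => ∃ φ ∈ Th L, φ.code = w 0) := by
  refine h.iff (fun w => ?_) (h.or (def_list h L) (h.or (def_comp h) (def_choice h)))
  constructor
  · rintro (⟨φ, hφ, hc⟩ | ⟨φ, i, hc⟩ | ⟨φ, n, i, hc⟩)
    · exact ⟨φ, Or.inl hφ, hc⟩
    · exact ⟨_, Or.inr (Or.inl ⟨φ, i, rfl⟩), hc⟩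
    · exact ⟨_, Or.inr (Or.inr ⟨φ, n, i, rfl⟩), hc⟩
  · rintro ⟨_, (hφ | ⟨φ, i, rfl⟩ | ⟨φ, n, i, rfl⟩), hc⟩
    · exact Or.inl ⟨_, hφ, hc⟩
    · exact Or.inr (Or.inl ⟨φ, i, hc⟩)
    · exact Or.inr (Or.inr ⟨φ, n, i, hc⟩)

end

/-- An arithmetical formula defining the codes of `Th L`. -/
theorem exists_tau0 (L : List Fm) : ∃ τ : Fm, τ.Arithmetical ∧ τ.FreeIn {0} ∧ ∀ v : ℕ → ℕ,
    Sat std v (fun _ => (∅ : Set ℕ)) τ ↔ ∃ φ ∈ Th L, φ.code = v 0 :=
  exists_formula (Q := fun n => ∃ φ ∈ Th L, φ.code = n) (def_Th ADef_DC L)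

end Pool.Agent.H986R3.SOB
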